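import Pool.Agent.H49.BP.Zeta

/-!
# The twisted discrepancies after few changes, and the number of the generalised primes
-/

set_option autoImplicit false

open MeasureTheory Filter Topology Set

namespace Pool.Agent.H49.BP

/-- few changes -/
def Few (q q' : ℕ → ℝ) (B : ℝ) : Prop := ∀ J : ℕ, ∃ E : Finset ℕ,
  (∀ j, j < J → j ∉ E → q j = q' j ∧ q j ≤ tt (j + 1)) ∧ (E.card : ℝ) ≤ B * √(tt J)

/-- the conclusion of `sample` -/
def Samp (q : ℕ → ℝ) : Prop := ∀ δ : ℝ, 0 < δ → ∃ C : ℝ, 0 ≤ C ∧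
  ∀ (m : ℤ) (J : ℕ), ‖∑ j ∈ Finset.range J, (em m (q j) - ∫ u in (tt j)..(tt (j + 1)), em m u * (md u : ℂ))‖ ≤
    C * (J : ℝ) ^ (1 / 2 + δ) * √(Real.log (|(m : ℝ)| + 3))

theorem pc_bounds {q q' : ℕ → ℝ} (hq : StrictMono q) (hg : ∀ j : ℕ, (j : ℝ) + 1 ≤ q j) (hgt : ∀ j, tt j < q j)
    {B : ℝ} (hF : Few q q' B) {x : ℝ} {J : ℕ} (h1 : tt J ≤ x) (h2 : x < tt (J + 1)) :
    |(pc q x : ℝ) - J| ≤ B * √(tt J) + 1 := by
  obtain ⟨E, hE1, hE2⟩ := hF J
  have hup : pc q x ≤ J + 1 := by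
    by_contra h3
    push Not at h3
    have h4 := (lt_pc hq hg x (J + 1)).1 h3
    have h5 := hgt (J + 1)
    linarith
  have hlow : J ≤ pc q x + E.card := by
    have h3 : Finset.range J ⊆ Finset.range (pc q x) ∪ E := by
      intro j hj
      rw [Finset.mem_range] at hj
      rw [Finset.mem_union]
      by_cases hjE : j ∈ E
      · right; exact hjE
      · left
        rw [Finset.mem_range, lt_pc hq hg]
        have h4 := (hE1 j hj hjE).2
        have h5 : tt (j + 1) ≤ tt J := tt_mono.monotone hj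
        linarith
    have h6 := (Finset.card_le_card h3).trans (Finset.card_union_le _ _)
    rw [Finset.card_range, Finset.card_range] at h6
    exact h6
  have h7 : (pc q x : ℝ) ≤ J + 1 := by exact_mod_cast hup
  have h8 : (J : ℝ) ≤ pc q x + E.card := by exact_mod_cast hlow
  have h9 : 0 ≤ (E.card : ℝ) := Nat.cast_nonneg _
  rw [abs_le]
  constructor <;> linarith

theorem sum_range_diff {f : ℕ → ℂ} (hf : ∀ j, ‖f j‖ ≤ 1) (a b : ℕ) :
    ‖∑ j ∈ Finset.range a, f j - ∑ j ∈ Finset.range b, f j‖ ≤ |(a : ℝ) - b| := by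
  wlog hab : b ≤ a generalizing a b with H
  · rw [norm_sub_rev, abs_sub_comm]
    exact H b a (le_of_not_ge hab)
  rw [← Finset.sum_Ico_eq_sub _ hab]
  refine (norm_sum_le _ _).trans ?_
  calc ∑ j ∈ Finset.Ico b a, ‖f j‖ ≤ ∑ j ∈ Finset.Ico b a, (1 : ℝ) := Finset.sum_le_sum fun j _ => hf j
    _ = ((a - b : ℕ) : ℝ) := by simp
    _ = |(a : ℝ) - b| := by
        rw [Nat.cast_sub hab, abs_of_nonneg]
        have : (b : ℝ) ≤ a := by exact_mod_cast hab
        linarith

theorem disc_of {q q' : ℕ → ℝ} (hq : StrictMono q) (hg : ∀ j : ℕ, (j : ℝ) + 1 ≤ q j) (hgt : ∀ j, tt j < q j)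
    {B : ℝ} (hB : 0 ≤ B) (hF : Few q q' B) (hS : Samp q') : Disc q := by
  intro δ hδ
  obtain ⟨C, hC0, hC⟩ := hS δ hδ
  refine ⟨C + 3 * B + 2, by positivity, fun m x hx => ?_⟩
  obtain ⟨J, hJ1, hJ2⟩ := exists_slot hx
  have hsL : 1 ≤ √(Real.log (|(m : ℝ)| + 3)) := Real.one_le_sqrt.2 (L_ge m)
  set L := √(Real.log (|(m : ℝ)| + 3)) with hL
  have hx0 : 0 < x := by linarith
  have hxs : √x ≤ x ^ (1 / 2 + δ) := by
    rw [Real.sqrt_eq_rpow]
    exact Real.rpow_le_rpow_of_exponent_le hx (by linarith)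
  have hx1 : 1 ≤ x ^ (1 / 2 + δ) := Real.one_le_rpow hx (by linarith)
  have hJx : (J : ℝ) ≤ x := by
    have := tt_ge J
    linarith
  have hsJ : √(tt J) ≤ √x := Real.sqrt_le_sqrt hJ1
  -- the pieces
  obtain ⟨E, hE1, hE2⟩ := hF J
  have d1 : ‖AA q m x - ∑ j ∈ Finset.range J, em m (q j)‖ ≤ B * √x + 1 := by
    unfold AA
    refine (sum_range_diff (fun j => (em_norm m _).le) _ _).trans ?_
    refine (pc_bounds hq hg hgt hF hJ1 hJ2).trans ?_
    have := mul_le_mul_of_nonneg_left hsJ hB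
    linarith
  have d2 : ‖∑ j ∈ Finset.range J, em m (q j) - ∑ j ∈ Finset.range J, em m (q' j)‖ ≤ 2 * (B * √x) := by
    rw [← Finset.sum_sub_distrib]
    refine (norm_sum_le _ _).trans ?_
    have h1 : ∑ j ∈ Finset.range J, ‖em m (q j) - em m (q' j)‖ ≤
        ∑ j ∈ Finset.range J, (if j ∈ E then (2 : ℝ) else 0) := by
      refine Finset.sum_le_sum fun j hj => ?_
      rw [Finset.mem_range] at hj
      split_ifs with h2
      · refine (norm_sub_le _ _).trans ?_
        rw [em_norm, em_norm]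
        norm_num
      · rw [(hE1 j hj h2).1, sub_self, norm_zero]
    refine h1.trans ?_
    rw [← Finset.sum_filter]
    rw [Finset.sum_const, nsmul_eq_mul]
    have h3 : ((Finset.range J).filter (fun j => j ∈ E)).card ≤ E.card := by
      refine Finset.card_le_card fun j hj => ?_
      exact (Finset.mem_filter.1 hj).2
    have h4 : (((Finset.range J).filter (fun j => j ∈ E)).card : ℝ) ≤ E.card := by exact_mod_cast h3
    have := mul_le_mul_of_nonneg_left hsJ hB
    linarith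
  have hsumI : ∑ j ∈ Finset.range J, ∫ u in (tt j)..(tt (j + 1)), em m u * (md u : ℂ) = BB m (tt J) := by
    unfold BB
    have h1 := intervalIntegral.sum_integral_adjacent_intervals (a := tt) (n := J) (μ := volume)
      (f := fun u => em m u * (md u : ℂ)) (fun k _ => mdg_int (em_meas m) (fun u => (em_norm m u).le)
        (tt_one_le k) (tt_one_le (k + 1)))
    rw [h1, tt_zero]
  have d3 : ‖∑ j ∈ Finset.range J, em m (q' j) - BB m (tt J)‖ ≤ C * x ^ (1 / 2 + δ) * L := by
    rw [← hsumI, ← Finset.sum_sub_distrib]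
    refine (hC m J).trans ?_
    have h1 : (J : ℝ) ^ (1 / 2 + δ) ≤ x ^ (1 / 2 + δ) := Real.rpow_le_rpow (Nat.cast_nonneg J) hJx (by linarith)
    gcongr
  have d4 : ‖BB m (tt J) - BB m x‖ ≤ 1 := by
    have hi1 := mdg_int (g := em m) (em_meas m) (fun u => (em_norm m u).le) le_rfl (tt_one_le J)
    have hi2 := mdg_int (g := em m) (em_meas m) (fun u => (em_norm m u).le) le_rfl hx
    have h1 : BB m x - BB m (tt J) = ∫ u in (tt J)..x, em m u * (md u : ℂ) := by
      unfold BB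
      exact intervalIntegral.integral_interval_sub_left hi2 hi1
    rw [norm_sub_rev, h1]
    have h2 : ‖∫ u in (tt J)..x, em m u * (md u : ℂ)‖ ≤ ∫ u in (tt J)..x, md u := by
      refine intervalIntegral.norm_integral_le_of_norm_le hJ1 (Eventually.of_forall fun u hu => ?_)
        (md_int (tt_one_le J) hx)
      have hu1 : 1 ≤ u := (tt_one_le J).trans hu.1.le
      rw [norm_mul, em_norm, one_mul, Complex.norm_real, Real.norm_of_nonneg (md_nonneg hu1)]
    refine h2.trans ?_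
    rw [← MM_sub (tt_one_le J) hx]
    have h3 := MM_le hx hJ2.le
    rw [MM_tt] at h3 ⊢
    push_cast at h3
    linarith
  have hfin : AA q m x - BB m x = (AA q m x - ∑ j ∈ Finset.range J, em m (q j)) +
      (∑ j ∈ Finset.range J, em m (q j) - ∑ j ∈ Finset.range J, em m (q' j)) +
      (∑ j ∈ Finset.range J, em m (q' j) - BB m (tt J)) + (BB m (tt J) - BB m x) := by ring
  rw [hfin]
  refine (norm_add_le _ _).trans ?_
  refine (add_le_add ((norm_add_le _ _).trans (add_le_add ((norm_add_le _ _).trans (add_le_add d1 d2)) d3)) d4).trans ?_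
  have e1 : B * √x ≤ B * (x ^ (1 / 2 + δ) * L) := by
    refine mul_le_mul_of_nonneg_left (hxs.trans ?_) hB
    exact le_mul_of_one_le_right (by positivity) hsL
  have e2 : 1 ≤ x ^ (1 / 2 + δ) * L := one_le_mul_of_one_le_of_one_le hx1 hsL
  calc B * √x + 1 + 2 * (B * √x) + C * x ^ (1 / 2 + δ) * L + 1
      ≤ 3 * (B * (x ^ (1 / 2 + δ) * L)) + 2 * (x ^ (1 / 2 + δ) * L) + C * (x ^ (1 / 2 + δ) * L) := by
        rw [mul_assoc C]
        linarith
    _ = _ := by ring

/-- the number of the generalised primes -/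
theorem primes_of {q q' : ℕ → ℝ} (hq : StrictMono q) (hg : ∀ j : ℕ, (j : ℝ) + 1 ≤ q j) (hgt : ∀ j, tt j < q j)
    {B : ℝ} (hB : 0 ≤ B) (hF : Few q q' B) :
    ∃ C : ℝ, ∀ x : ℝ, 2 ≤ x → |(pc q x : ℝ) - ∫ u in (2 : ℝ)..x, (Real.log u)⁻¹| ≤ C * √x := by
  refine ⟨B + 3 + MM 2 + 4, fun x hx => ?_⟩
  obtain ⟨J, hJ1, hJ2⟩ := exists_slot (x := x) (by linarith)
  have hx0 : 0 < x := by linarith
  have hsx : 1 ≤ √x := Real.one_le_sqrt.2 (by linarith)
  have h1 := pc_bounds hq hg hgt hF hJ1 hJ2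
  have h2 : √(tt J) ≤ √x := Real.sqrt_le_sqrt hJ1
  have h3 : |(J : ℝ) - MM x| ≤ 1 := by
    have h4 := MM_le (tt_one_le J) hJ1
    have h5 := MM_le (a := x) (by linarith) hJ2.le
    rw [MM_tt] at h4 h5
    push_cast at h5
    rw [abs_le]
    constructor <;> linarith
  have hli : IntervalIntegrable (fun u : ℝ => (Real.log u)⁻¹) volume 2 x := by
    refine ContinuousOn.intervalIntegrable ?_
    rw [uIcc_of_le hx]
    intro u hu
    have hu1 : 1 < u := by linarith [hu.1]
    exact ((Real.continuousAt_log (by linarith)).inv₀ (log_pos' hu1).ne').continuousWithinAt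
  have hui : IntervalIntegrable (fun u : ℝ => u⁻¹) volume 2 x := by
    refine ContinuousOn.intervalIntegrable ?_
    rw [uIcc_of_le hx]
    intro u hu
    exact (continuousAt_inv₀ (by linarith [hu.1])).continuousWithinAt
  have h6 : |MM x - ∫ u in (2 : ℝ)..x, (Real.log u)⁻¹| ≤ MM 2 + 4 * √x := by
    have h7 : MM x = MM 2 + ∫ u in (2 : ℝ)..x, md u := by
      rw [← MM_sub (by norm_num) (by linarith)]
      ring
    have h8 : (∫ u in (2 : ℝ)..x, md u) - ∫ u in (2 : ℝ)..x, (Real.log u)⁻¹ =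
        ∫ u in (2 : ℝ)..x, (md u - (Real.log u)⁻¹) :=
      (intervalIntegral.integral_sub (md_int (by norm_num) (by linarith)) hli).symm
    have h9 : |∫ u in (2 : ℝ)..x, (md u - (Real.log u)⁻¹)| ≤ ∫ u in (2 : ℝ)..x, 2 * u⁻¹ := by
      rw [← Real.norm_eq_abs]
      refine intervalIntegral.norm_integral_le_of_norm_le hx (Eventually.of_forall fun u hu => ?_) (hui.const_mul 2)
      have hu2 : 2 ≤ u := hu.1.le
      have hl : 0 < Real.log u := log_pos' (by linarith)
      have hl2 : 1 / 2 ≤ Real.log u := by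
        have h10 := Real.log_le_log (by norm_num) hu2
        have h11 := Real.log_two_gt_d9
        linarith
      have e : md u - (Real.log u)⁻¹ = -(u⁻¹ * (Real.log u)⁻¹) := by
        unfold md
        field_simp
        ring
      rw [e, norm_neg, norm_mul, norm_inv, norm_inv, Real.norm_of_nonneg (by linarith), Real.norm_of_nonneg hl.le,
        mul_comm]
      refine mul_le_mul_of_nonneg_right ?_ (by positivity)
      rw [inv_le_comm₀ hl (by norm_num)]
      linarith
    have h12 : ∫ u in (2 : ℝ)..x, 2 * u⁻¹ = 2 * Real.log (x / 2) := by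
      rw [intervalIntegral.integral_const_mul, integral_inv_of_pos (by norm_num) hx0]
    have h13 : Real.log (x / 2) ≤ 2 * √x := by
      have h14 : Real.log (x / 2) ≤ Real.log x := Real.log_le_log (by positivity) (by linarith)
      have h15 : Real.log x = 2 * Real.log (√x) := by
        rw [Real.log_sqrt hx0.le]
        ring
      have h16 := Real.log_le_sub_one_of_pos (x := √x) (by linarith)
      linarith
    have h17 : 0 ≤ MM 2 := MM_nonneg (by norm_num)
    have h18 : MM x - ∫ u in (2 : ℝ)..x, (Real.log u)⁻¹ = MM 2 + ∫ u in (2 : ℝ)..x, (md u - (Real.log u)⁻¹) := by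
      rw [← h8, h7]
      ring
    rw [h18]
    have h19 := abs_add_le (MM 2) (∫ u in (2 : ℝ)..x, (md u - (Real.log u)⁻¹))
    rw [abs_of_nonneg h17] at h19
    linarith
  have h20 : |(pc q x : ℝ) - ∫ u in (2 : ℝ)..x, (Real.log u)⁻¹| ≤
      |(pc q x : ℝ) - J| + |(J : ℝ) - MM x| + |MM x - ∫ u in (2 : ℝ)..x, (Real.log u)⁻¹| := by
    have e : (pc q x : ℝ) - ∫ u in (2 : ℝ)..x, (Real.log u)⁻¹ =
      ((pc q x : ℝ) - J) + ((J : ℝ) - MM x) + (MM x - ∫ u in (2 : ℝ)..x, (Real.log u)⁻¹) := by ring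
    rw [e]
    exact (abs_add_le _ _).trans (add_le_add (abs_add_le _ _) le_rfl)
  have h21 := mul_le_mul_of_nonneg_left h2 hB
  have h22 : 0 ≤ MM 2 := MM_nonneg (by norm_num)
  have h23 : MM 2 ≤ MM 2 * √x := le_mul_of_one_le_right h22 hsx
  calc |(pc q x : ℝ) - ∫ u in (2 : ℝ)..x, (Real.log u)⁻¹| ≤ B * √x + 1 + 1 + (MM 2 + 4 * √x) := by linarith
    _ ≤ (B + 3 + MM 2 + 4) * √x := by nlinarith

end Pool.Agent.H49.BP
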