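import Pool.Agent.H49.BP.Holes
import Pool.Agent.H49.BP.DiscB

/-!
# The gaps of the system with the holes
-/

set_option autoImplicit false

open MeasureTheory Filter Topology Set

namespace Pool.Agent.H49.BP

/-- the gaps have the exact maximal order `h` -/
def GapLim (q : ℕ → ℝ) (h : ℝ → ℝ) : Prop :=
  (∀ ε : ℝ, 0 < ε → ∀ᶠ n in atTop, q (n + 1) - q n ≤ (1 + ε) * h (q n)) ∧
    ∀ ε : ℝ, 0 < ε → ∃ᶠ n in atTop, (1 - ε) * h (q n) ≤ q (n + 1) - q n

theorem log_half {t : ℝ} (ht : 2 ≤ t) : 1 / 2 ≤ Real.log t := by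
  have h10 := Real.log_le_log (by norm_num) ht
  have h11 := Real.log_two_gt_d9
  linarith

theorem gapA (h : ℝ → ℝ) (n0 : ℕ) {q' : ℕ → ℝ} (hq' : ∀ j, q' j ∈ Ioc (tt j) (tt (j + 1))) {n : ℕ} (hn : 1 ≤ n)
    (hs : ¬ SS h n0 n) : qq h n0 q' (n + 1) - qq h n0 q' n ≤ 24 * Real.log (qq h n0 q' n) := by
  have h1 := qq_gt h n0 hq' n
  have h2 := tt_two hn
  have h3 := slot2_le hn
  have h4 : Real.log (tt n) ≤ Real.log (qq h n0 q' n) := Real.log_le_log (by linarith) h1.le
  by_cases he : EE h n0 (n + 1)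
  · obtain ⟨k, hk1, hk2⟩ := he
    have hk3 : NN h n0 k ≤ n := by
      by_contra h5
      push Not at h5
      exact hs ⟨k, by omega⟩
    rw [qq_step h n0 q' hk3 hk2]
    have h6 : (1 : ℝ) ≤ hole h (NN h n0 k) := by
      have : 1 ≤ hole h (NN h n0 k) := by omega
      exact_mod_cast this
    have h7 : 1 / (2 * (hole h (NN h n0 k) : ℝ)) ≤ 1 / 2 := by
      apply one_div_le_one_div_of_le (by norm_num)
      linarith
    have h8 := log_half h2
    linarith
  · have h5 := qq_le h n0 hq' he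
    have e : n + 1 + 1 = n + 2 := rfl
    rw [e] at h5
    linarith

theorem gapB (h : ℝ → ℝ) (n0 : ℕ) (q' : ℕ → ℝ) {A : ℝ} (hA : 0 ≤ A) {n : ℕ} (hs : SS h n0 n)
    (hb : h (tt (n + 1)) ≤ A * √(tt (n + 1)) * Real.log (tt (n + 1))) (hpos : 0 ≤ h (tt (n + 1))) :
    h (qq h n0 q' n) - 1 / 2 ≤ qq h n0 q' (n + 1) - qq h n0 q' n ∧
      qq h n0 q' (n + 1) - qq h n0 q' n ≤ h (qq h n0 q' n) + 6 * (1 + 4 * A) * Real.log (qq h n0 q' n) := by
  obtain ⟨k, hk⟩ := hs
  have hqn : qq h n0 q' n = tt (n + 1) := qq_SS h n0 q' ⟨k, hk⟩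
  have hgt := hole_gt h (NN h n0 k)
  have hqn1 := qq_EE h n0 q' (j := n + 1) (k := k) (by omega) (by omega)
  rw [hqn, hqn1, ← hk]
  have hgt' := hole_gt h (n + 1)
  obtain ⟨hf1, hf2⟩ := frac_bd hgt'
  have hge := hole_ge h (n + 1)
  have ht2 : 2 ≤ tt (n + 1) := tt_two (by omega)
  have hlh := log_half ht2
  set t := tt (n + 1) with ht
  refine ⟨by linarith, ?_⟩
  rcases hole_min h (n + 1) with h1 | h1
  · rw [h1] at hf1 ⊢
    have h2 := slot_le (j := n + 1) (by omega)
    have h3 : 6 * Real.log t ≤ 6 * (1 + 4 * A) * Real.log t := by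
      have : 0 ≤ A * Real.log t := by positivity
      nlinarith
    rw [← ht] at h2
    linarith
  · set r := hole h (n + 1) with hr
    have h2 := slot_le (j := r - 1) (by omega)
    have e : r - 1 + 1 = r := by omega
    rw [e] at h2
    have ht0 : 0 < t := by linarith
    have h4 : Real.log t ≤ 2 * √t := by
      have h15 : Real.log t = 2 * Real.log (√t) := by
        rw [Real.log_sqrt ht0.le]
        ring
      have h16 := Real.log_le_sub_one_of_pos (x := √t) (Real.sqrt_pos.2 ht0)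
      linarith
    have h5 : h t ≤ 2 * A * t := by
      refine hb.trans ?_
      have h6 : A * √t * Real.log t ≤ A * √t * (2 * √t) := mul_le_mul_of_nonneg_left h4 (by positivity)
      have h7 : √t * √t = t := Real.mul_self_sqrt ht0.le
      nlinarith
    have h8 : tt (r - 1) ≤ (1 + 2 * A) * t := by linarith
    have h9 : Real.log (tt (r - 1)) ≤ (1 + 4 * A) * Real.log t := by
      have h10 := Real.log_le_log (by linarith [tt_one_le (r - 1)]) h8
      rw [Real.log_mul (by positivity) ht0.ne'] at h10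
      have h11 := Real.log_le_sub_one_of_pos (x := 1 + 2 * A) (by positivity)
      nlinarith
    linarith

/-- the theorem for one function -/
theorem system {h : ℝ → ℝ} (hlim : Tendsto (fun x => h x / Real.log x) atTop atTop)
    (hup : ∃ A : ℝ, ∀ᶠ x in atTop, h x ≤ A * √x * Real.log x) {q' : ℕ → ℝ}
    (hq' : ∀ j, q' j ∈ Ioc (tt j) (tt (j + 1))) :
    ∃ (q : ℕ → ℝ) (B : ℝ), 0 ≤ B ∧ StrictMono q ∧ (∀ j, tt j < q j) ∧ Few q q' B ∧ GapLim q h := by
  obtain ⟨A0, hA0⟩ := hup
  set A := max A0 0 with hAdef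
  have hA : 0 ≤ A := le_max_right _ _
  have hev : ∀ᶠ x in atTop, h x ≤ A * √x * Real.log x ∧ 0 ≤ h x := by
    filter_upwards [hA0, hlim.eventually (eventually_ge_atTop 0), eventually_gt_atTop 1] with x h1 h2 h3
    have hl := log_pos' h3
    refine ⟨h1.trans ?_, ?_⟩
    · have : A0 ≤ A := le_max_left _ _
      gcongr
    · have h4 := mul_nonneg h2 hl.le
      rwa [div_mul_cancel₀ _ hl.ne'] at h4
  obtain ⟨X, hX⟩ := hev.exists_forall_of_atTop
  obtain ⟨n0, hn0⟩ := exists_nat_ge X
  have hX' : ∀ n, n0 ≤ n → h (tt n) ≤ A * √(tt n) * Real.log (tt n) ∧ 0 ≤ h (tt n) := by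
    intro n hn
    refine hX _ ?_
    have h1 := tt_ge n
    have h2 : (n0 : ℝ) ≤ n := by exact_mod_cast hn
    linarith
  set q := qq h n0 q' with hq
  have hmono : StrictMono q := qq_mono h n0 hq'
  have hgt : ∀ j, tt j < q j := qq_gt h n0 hq'
  have htop : Tendsto q atTop atTop := by
    refine tendsto_atTop_mono (fun j => (tt_ge j).trans (hgt j).le) ?_
    exact tendsto_atTop_add_const_right _ _ tendsto_natCast_atTop_atTop
  refine ⟨q, A + 4, by positivity, hmono, hgt, ?_, ?_, ?_⟩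
  · intro J
    obtain ⟨E, hE1, hE2⟩ := exc_card h hA (n0 := n0) (fun n hn => (hX' n hn).1) J
    refine ⟨E, fun j hj hjE => ?_, hE2⟩
    have h1 : ¬ SS h n0 j := fun hs => hjE (hE1 j hj (Or.inl hs))
    have h2 : ¬ EE h n0 j := fun he => hjE (hE1 j hj (Or.inr he))
    exact ⟨qq_other h n0 q' h1 h2, qq_le h n0 hq' h2⟩
  · intro ε hε
    set K := max 24 (6 * (1 + 4 * A)) with hK
    have h1 : ∀ᶠ x in atTop, K / ε ≤ h x / Real.log x := hlim.eventually (eventually_ge_atTop _)
    filter_upwards [htop.eventually h1, eventually_ge_atTop 1, htop.eventually (eventually_gt_atTop 1)] with n h2 h3 h4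
    have hl : 0 < Real.log (q n) := log_pos' h4
    have h5 : K * Real.log (q n) ≤ ε * h (q n) := by
      rw [div_le_div_iff₀ hε hl] at h2
      linarith
    have h6 : 0 ≤ h (q n) := by
      have h7 : 0 ≤ K * Real.log (q n) := by positivity
      by_contra h8
      push Not at h8
      have := mul_neg_of_pos_of_neg hε h8
      linarith
    by_cases hs : SS h n0 n
    · obtain ⟨k, hk⟩ := hs
      have h7 : n0 ≤ n + 1 := by
        have := NN_ge h n0 k
        omega
      have h8 := (gapB h n0 q' hA ⟨k, hk⟩ (hX' (n + 1) h7).1 (hX' (n + 1) h7).2).2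
      have h9 : 6 * (1 + 4 * A) * Real.log (q n) ≤ K * Real.log (q n) :=
        mul_le_mul_of_nonneg_right (le_max_right _ _) hl.le
      rw [← hq] at h8
      linarith
    · have h8 := gapA h n0 hq' h3 hs
      have h9 : 24 * Real.log (q n) ≤ K * Real.log (q n) :=
        mul_le_mul_of_nonneg_right (le_max_left _ _) hl.le
      rw [← hq] at h8
      linarith
  · intro ε hε
    have hinf : Tendsto h atTop atTop := by
      refine tendsto_atTop_mono' (f₁ := fun x => Real.log x) (f₂ := h) _ ?_ Real.tendsto_log_atTop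
      filter_upwards [hlim.eventually (eventually_ge_atTop 1), eventually_gt_atTop 1] with x h1 h2
      rw [le_div_iff₀ (log_pos' h2)] at h1
      linarith
    have h1 : ∀ᶠ n in atTop, 1 / (2 * ε) ≤ h (q n) := (hinf.comp htop).eventually (eventually_ge_atTop _)
    have h2 : ∃ᶠ n in atTop, SS h n0 n := by
      rw [frequently_atTop]
      intro a
      refine ⟨NN h n0 (a + 1) - 1, ?_, a + 1, ?_⟩
      · have := (NN_mono h n0).le_apply (x := a + 1)
        omega
      · have := NN_ge h n0 (a + 1)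
        omega
    refine (h2.and_eventually h1).mono fun n hn => ?_
    obtain ⟨hs, h3⟩ := hn
    obtain ⟨k, hk⟩ := hs
    have h7 : n0 ≤ n + 1 := by
      have := NN_ge h n0 k
      omega
    have h8 := (gapB h n0 q' hA ⟨k, hk⟩ (hX' (n + 1) h7).1 (hX' (n + 1) h7).2).1
    rw [← hq] at h8
    have h9 : 1 / 2 ≤ ε * h (q n) := by
      rw [div_le_iff₀ (by positivity)] at h3
      linarith
    linarith

end Pool.Agent.H49.BP
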