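import Mathlib

/-!
# The density of the primes, its primitive and the slots
-/

set_option autoImplicit false

open MeasureTheory Filter Topology Set

namespace Pool.Agent.H49.BP

/-- the density -/
noncomputable def md (u : ℝ) : ℝ := (1 - u⁻¹) / Real.log u

theorem md_meas : Measurable md := by
  unfold md
  exact (measurable_const.sub measurable_inv).div Real.measurable_log

theorem log_pos' {u : ℝ} (hu : 1 < u) : 0 < Real.log u := Real.log_pos hu

theorem md_pos {u : ℝ} (hu : 1 < u) : 0 < md u := by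
  unfold md
  have h1 : u⁻¹ < 1 := inv_lt_one_of_one_lt₀ hu
  exact div_pos (by linarith) (log_pos' hu)

theorem md_nonneg {u : ℝ} (hu : 1 ≤ u) : 0 ≤ md u := by
  unfold md
  have h1 : u⁻¹ ≤ 1 := inv_le_one_of_one_le₀ hu
  exact div_nonneg (by linarith) (Real.log_nonneg hu)

theorem md_le_one {u : ℝ} (hu : 1 ≤ u) : md u ≤ 1 := by
  unfold md
  rcases eq_or_lt_of_le hu with h | h
  · rw [← h]; simp
  · rw [div_le_one (log_pos' h)]
    exact Real.one_sub_inv_le_log_of_pos (by linarith)

theorem md_le {u : ℝ} (hu : 1 < u) : md u ≤ 1 / Real.log u := by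
  unfold md
  have h1 : 0 < u⁻¹ := by positivity
  exact div_le_div_of_nonneg_right (by linarith) (log_pos' hu).le

theorem le_md {u : ℝ} (hu : 2 ≤ u) : 1 / (2 * Real.log u) ≤ md u := by
  unfold md
  have h1 : u⁻¹ ≤ 2⁻¹ := inv_anti₀ (by norm_num) hu
  have h2 := log_pos' (u := u) (by linarith)
  rw [div_le_div_iff₀ (by positivity) h2]
  nlinarith

theorem md_int {a b : ℝ} (ha : 1 ≤ a) (hb : 1 ≤ b) : IntervalIntegrable md volume a b := by
  wlog hab : a ≤ b generalizing a b with H
  · exact (H hb ha (le_of_not_ge hab)).symm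
  rw [intervalIntegrable_iff_integrableOn_Ioc_of_le hab]
  refine Measure.integrableOn_of_bounded (M := 1) (by simp) md_meas.aestronglyMeasurable ?_
  refine (ae_restrict_iff' measurableSet_Ioc).2 (Eventually.of_forall fun u hu => ?_)
  have h1 : 1 ≤ u := ha.trans hu.1.le
  rw [Real.norm_of_nonneg (md_nonneg h1)]
  exact md_le_one h1

/-- the primitive -/
noncomputable def MM (x : ℝ) : ℝ := ∫ u in (1 : ℝ)..x, md u

theorem MM_one : MM 1 = 0 := by simp [MM]

theorem MM_sub {a b : ℝ} (ha : 1 ≤ a) (hb : 1 ≤ b) : MM b - MM a = ∫ u in a..b, md u := by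
  unfold MM
  exact intervalIntegral.integral_interval_sub_left (md_int le_rfl hb) (md_int le_rfl ha)

theorem MM_lt {a b : ℝ} (ha : 1 ≤ a) (hab : a < b) : MM a < MM b := by
  have h1 : 0 < ∫ u in a..b, md u :=
    intervalIntegral.intervalIntegral_pos_of_pos_on (md_int ha (by linarith))
      (fun x hx => md_pos (by linarith [hx.1])) hab
  rw [← MM_sub ha (by linarith)] at h1
  linarith

theorem MM_le {a b : ℝ} (ha : 1 ≤ a) (hab : a ≤ b) : MM a ≤ MM b := by
  rcases eq_or_lt_of_le hab with h | h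
  · rw [h]
  · exact (MM_lt ha h).le

theorem MM_lt_iff {a b : ℝ} (ha : 1 ≤ a) (hb : 1 ≤ b) : MM a < MM b ↔ a < b := by
  constructor
  · intro h
    by_contra h2
    push Not at h2
    exact absurd h (not_lt.2 (MM_le hb h2))
  · exact MM_lt ha

theorem MM_le_iff {a b : ℝ} (ha : 1 ≤ a) (hb : 1 ≤ b) : MM a ≤ MM b ↔ a ≤ b := by
  rw [← not_lt, MM_lt_iff hb ha, not_lt]

theorem MM_sub_le {a b : ℝ} (ha : 1 ≤ a) (hab : a ≤ b) : MM b - MM a ≤ b - a := by
  rw [MM_sub ha (by linarith)]
  have h1 := intervalIntegral.integral_mono_on hab (md_int ha (by linarith))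
    (intervalIntegrable_const (c := (1 : ℝ))) (fun x hx => md_le_one (ha.trans hx.1))
  simpa using h1

theorem MM_nonneg {x : ℝ} (hx : 1 ≤ x) : 0 ≤ MM x := by
  rw [← MM_one]
  exact MM_le le_rfl hx

theorem MM_le_self {x : ℝ} (hx : 1 ≤ x) : MM x ≤ x - 1 := by
  have := MM_sub_le le_rfl hx
  rw [MM_one] at this
  linarith

theorem MM_cont : ContinuousOn MM (Ici 1) := by
  have h : LipschitzOnWith 1 MM (Ici 1) := by
    refine LipschitzOnWith.of_dist_le_mul fun x hx y hy => ?_
    rw [Real.dist_eq, Real.dist_eq, NNReal.coe_one, one_mul]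
    wlog hxy : y ≤ x generalizing x y with H
    · rw [abs_sub_comm, abs_sub_comm x y]
      exact H y hy x hx (le_of_not_ge hxy)
    rw [abs_of_nonneg (sub_nonneg.2 (MM_le hy hxy)), abs_of_nonneg (sub_nonneg.2 hxy)]
    exact MM_sub_le hy hxy
  exact h.continuousOn

/-- upper bound of the increments -/
theorem MM_inc_le {a b : ℝ} (ha : 1 < a) (hab : a ≤ b) : MM b - MM a ≤ (b - a) / Real.log a := by
  rw [MM_sub ha.le (by linarith)]
  have hl := log_pos' ha
  have h1 := intervalIntegral.integral_mono_on hab (md_int ha.le (by linarith))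
    (intervalIntegrable_const (c := 1 / Real.log a)) (fun x hx => by
      refine (md_le (by linarith [hx.1])).trans ?_
      exact one_div_le_one_div_of_le hl (Real.log_le_log (by linarith) hx.1))
  refine h1.trans (le_of_eq ?_)
  rw [intervalIntegral.integral_const, smul_eq_mul]
  ring

/-- lower bound of the increments -/
theorem le_MM_inc {a b : ℝ} (ha : 2 ≤ a) (hab : a ≤ b) : (b - a) / (2 * Real.log b) ≤ MM b - MM a := by
  rw [MM_sub (by linarith) (by linarith)]
  have h1 := intervalIntegral.integral_mono_on hab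
    (intervalIntegrable_const (c := 1 / (2 * Real.log b))) (md_int (by linarith) (by linarith))
    (fun x hx => by
      refine le_trans ?_ (le_md (by linarith [hx.1]))
      have hl := log_pos' (u := x) (by linarith [hx.1])
      exact one_div_le_one_div_of_le (by positivity)
        (mul_le_mul_of_nonneg_left (Real.log_le_log (by linarith [hx.1]) hx.2) (by norm_num)))
  refine le_trans (le_of_eq ?_) h1
  rw [intervalIntegral.integral_const, smul_eq_mul]
  ring

theorem MM_tendsto : Tendsto MM atTop atTop := by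
  have h1 : Tendsto (fun x : ℝ => (x - 2) / (2 * Real.log x)) atTop atTop := by
    have h2 : Tendsto (fun x : ℝ => Real.log x / x) atTop (𝓝 0) := by
      simpa using Real.tendsto_pow_log_div_mul_add_atTop 1 0 1 one_ne_zero
    refine tendsto_atTop.2 fun b => ?_
    have h3 : ∀ᶠ x : ℝ in atTop, Real.log x / x < 1 / (4 * (|b| + 1)) :=
      h2.eventually (gt_mem_nhds (by positivity))
    filter_upwards [h3, eventually_ge_atTop 4] with x hx hx4
    have hl := log_pos' (u := x) (by linarith)
    rw [div_lt_div_iff₀ (by linarith) (by positivity)] at hx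
    rw [le_div_iff₀ (by positivity)]
    have := le_abs_self b
    nlinarith [abs_nonneg b]
  refine tendsto_atTop_mono' _ ?_ h1
  filter_upwards [eventually_ge_atTop 2] with x hx
  have := le_MM_inc le_rfl hx
  have h4 := MM_nonneg (x := 2) (by norm_num)
  linarith

theorem exists_tt (j : ℕ) : ∃ t : ℝ, 1 ≤ t ∧ MM t = j := by
  obtain ⟨B, hB⟩ := (MM_tendsto.eventually (eventually_ge_atTop (j : ℝ))).exists_forall_of_atTop
  have hB' := hB (max B 1) (le_max_left _ _)
  have hc : ContinuousOn MM (Icc 1 (max B 1)) := MM_cont.mono (fun x hx => hx.1)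
  have h := intermediate_value_Icc (le_max_right B 1) hc
  have hj : (j : ℝ) ∈ Icc (MM 1) (MM (max B 1)) := ⟨by rw [MM_one]; exact Nat.cast_nonneg j, hB'⟩
  obtain ⟨t, ht, hte⟩ := h hj
  exact ⟨t, ht.1, hte⟩

/-- the ends of the slots -/
noncomputable def tt (j : ℕ) : ℝ := (exists_tt j).choose

theorem tt_one_le (j : ℕ) : 1 ≤ tt j := (exists_tt j).choose_spec.1

theorem MM_tt (j : ℕ) : MM (tt j) = j := (exists_tt j).choose_spec.2

theorem tt_mono : StrictMono tt := by
  refine strictMono_nat_of_lt_succ fun j => ?_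
  rw [← MM_lt_iff (tt_one_le _) (tt_one_le _), MM_tt, MM_tt]
  push_cast
  linarith

theorem tt_zero : tt 0 = 1 := by
  refine le_antisymm ?_ (tt_one_le 0)
  rw [← MM_le_iff (tt_one_le _) le_rfl, MM_tt, MM_one]
  simp

theorem tt_ge (j : ℕ) : (j : ℝ) + 1 ≤ tt j := by
  have := MM_le_self (tt_one_le j)
  rw [MM_tt] at this
  linarith

theorem tt_diff_ge {i j : ℕ} (h : i ≤ j) : ((j : ℝ) - i) ≤ tt j - tt i := by
  have := MM_sub_le (tt_one_le i) (tt_mono.monotone h)
  rw [MM_tt, MM_tt] at this
  linarith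

theorem tt_two {j : ℕ} (hj : 1 ≤ j) : 2 ≤ tt j := by
  have h1 := tt_ge j
  have h2 : (1 : ℝ) ≤ j := by exact_mod_cast hj
  linarith

theorem log_le_eighth {y : ℝ} (hy : 0 < y) : Real.log y ≤ y / 8 + 2 := by
  have h1 : Real.log y = Real.log (y / 8) + Real.log 8 := by
    rw [← Real.log_mul (by positivity) (by norm_num)]
    congr 1
    ring
  have h2 := Real.log_le_sub_one_of_pos (x := y / 8) (by positivity)
  have h3 : Real.log 8 ≤ 3 := by
    have : (8 : ℝ) = 2 ^ (3 : ℕ) := by norm_num
    rw [this, Real.log_pow]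
    have := Real.log_two_lt_d9
    push_cast
    linarith
  rw [h1]
  linarith

theorem tt_succ_sub_le {j : ℕ} (hj : 1 ≤ j) : tt (j + 1) - tt j ≤ 2 * Real.log (tt (j + 1)) := by
  have h1 := le_MM_inc (tt_two hj) (tt_mono.monotone (Nat.le_succ j))
  rw [MM_tt, MM_tt] at h1
  have h2 := log_pos' (u := tt (j + 1)) (by linarith [tt_two (j := j + 1) (by omega)])
  rw [div_le_iff₀ (by positivity)] at h1
  push_cast at h1
  linarith

theorem tt_succ_le {j : ℕ} (hj : 1 ≤ j) : tt (j + 1) ≤ 4 * tt j := by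
  have h1 := tt_succ_sub_le hj
  have h2 := log_le_eighth (y := tt (j + 1)) (by linarith [tt_one_le (j + 1)])
  have h3 := tt_two hj
  linarith

theorem log_tt_succ_le {j : ℕ} (hj : 1 ≤ j) : Real.log (tt (j + 1)) ≤ 3 * Real.log (tt j) := by
  have h1 := Real.log_le_log (by linarith [tt_one_le (j + 1)]) (tt_succ_le hj)
  rw [Real.log_mul (by norm_num) (by linarith [tt_one_le j])] at h1
  have h2 : Real.log 4 ≤ 2 * Real.log (tt j) := by
    have : (4 : ℝ) = 2 ^ (2 : ℕ) := by norm_num
    rw [this, Real.log_pow]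
    push_cast
    have := Real.log_le_log (by norm_num) (tt_two hj)
    linarith
  linarith

/-- the length of a slot -/
theorem slot_le {j : ℕ} (hj : 1 ≤ j) : tt (j + 1) - tt j ≤ 6 * Real.log (tt j) := by
  have h1 := tt_succ_sub_le hj
  have h2 := log_tt_succ_le hj
  linarith

theorem slot2_le {j : ℕ} (hj : 1 ≤ j) : tt (j + 2) - tt j ≤ 24 * Real.log (tt j) := by
  have h1 := slot_le hj
  have h2 := slot_le (j := j + 1) (by omega)
  have h3 := log_tt_succ_le hj
  have e : j + 1 + 1 = j + 2 := rfl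
  rw [e] at h2
  linarith

theorem exists_slot {x : ℝ} (hx : 1 ≤ x) : ∃ J : ℕ, tt J ≤ x ∧ x < tt (J + 1) := by
  refine ⟨⌊MM x⌋₊, ?_, ?_⟩
  · rw [← MM_le_iff (tt_one_le _) hx, MM_tt]
    exact Nat.floor_le (MM_nonneg hx)
  · rw [← MM_lt_iff hx (tt_one_le _), MM_tt]
    push_cast
    exact Nat.lt_floor_add_one _

end Pool.Agent.H49.BP
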