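import Pool.Agent.H49.BP.Trans

/-!
# The continuation of the sum over the generalised primes
-/

set_option autoImplicit false

open MeasureTheory Filter Topology Set Complex

namespace Pool.Agent.H49.BP

/-- small twisted discrepancies -/
def Disc (q : ℕ → ℝ) : Prop := ∀ δ : ℝ, 0 < δ → ∃ C : ℝ, 0 ≤ C ∧ ∀ (m : ℤ) (x : ℝ), 1 ≤ x →
  ‖AA q m x - BB m x‖ ≤ C * x ^ (1 / 2 + δ) * √(Real.log (|(m : ℝ)| + 3))

/-- the discrepancy as a function on the line -/
noncomputable def DD (q : ℕ → ℝ) (m : ℤ) (x : ℝ) : ℂ := if 1 < x then AA q m x - BB m x else 0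

/-- its transform -/
noncomputable def FF (q : ℕ → ℝ) (m : ℤ) (w : ℂ) : ℂ := w * mellin (DD q m) (-w)

theorem mellin_DD (q : ℕ → ℝ) (m : ℤ) (w : ℂ) :
    mellin (DD q m) (-w) = ∫ x in Ioi (1 : ℝ), (x : ℂ) ^ (-w - 1) * (AA q m x - BB m x) := by
  unfold mellin
  have h1 : ∫ u in Ioi (0 : ℝ), (u : ℂ) ^ (-w - 1) • DD q m u =
      ∫ u in Ioi (1 : ℝ), (u : ℂ) ^ (-w - 1) • DD q m u := by
    refine setIntegral_eq_of_subset_of_forall_sdiff_eq_zero measurableSet_Ioi
      (Ioi_subset_Ioi zero_le_one) (fun t ht => ?_)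
    have : ¬ 1 < t := fun h => ht.2 h
    unfold DD
    rw [if_neg this, smul_zero]
  rw [h1]
  refine setIntegral_congr_fun measurableSet_Ioi (fun t ht => ?_)
  unfold DD
  beta_reduce
  rw [if_pos (show (1 : ℝ) < t from ht), smul_eq_mul]

theorem FF_eq {q : ℕ → ℝ} (hq : StrictMono q) (hg : ∀ j : ℕ, (j : ℝ) + 1 ≤ q j) (hq0 : 1 < q 0) (m : ℤ) {w : ℂ}
    (hw : 1 < w.re) : FF q m w = (∑' j, (q j : ℂ) ^ (-(w + m * I))) - Tz (w + m * I) := by
  obtain ⟨h1, h2⟩ := AA_trans hq hg hq0 m hw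
  obtain ⟨h3, h4⟩ := BB_trans m hw
  unfold FF
  rw [mellin_DD, ← h2, ← h4, ← mul_sub, ← integral_sub h1 h3]
  congr 1
  refine integral_congr_ae (Eventually.of_forall fun x => ?_)
  beta_reduce
  ring

theorem DD_meas {q : ℕ → ℝ} (hq : StrictMono q) (hg : ∀ j : ℕ, (j : ℝ) + 1 ≤ q j) (m : ℤ) :
    AEStronglyMeasurable (DD q m) volume := by
  have h1 : AEStronglyMeasurable (fun x => AA q m x - BB m x) (volume.restrict (Ioi 1)) := by
    refine AEStronglyMeasurable.sub (AA_meas hq hg m).aestronglyMeasurable ?_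
    have hBc : ContinuousOn (BB m) (Ioi 1) := fun x hx => (BB_deriv m hx).continuousAt.continuousWithinAt
    exact hBc.aestronglyMeasurable measurableSet_Ioi
  have h2 : DD q m = indicator (Ioi 1) (fun x => AA q m x - BB m x) := by
    funext x
    unfold DD
    by_cases h : 1 < x
    · rw [if_pos h, indicator_of_mem (show x ∈ Ioi (1 : ℝ) from h)]
    · rw [if_neg h, indicator_of_notMem (by simpa using h)]
  rw [h2]
  exact (aestronglyMeasurable_indicator_iff measurableSet_Ioi).2 h1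

theorem DD_bd {q : ℕ → ℝ} {m : ℤ} {C δ : ℝ} (hC : 0 ≤ C)
    (h : ∀ x : ℝ, 1 ≤ x → ‖AA q m x - BB m x‖ ≤ C * x ^ (1 / 2 + δ)) {x : ℝ} (hx : 0 < x) :
    ‖DD q m x‖ ≤ C * x ^ (1 / 2 + δ) := by
  unfold DD
  split_ifs with h1
  · exact h x h1.le
  · rw [norm_zero]
    positivity

theorem FF_diff {q : ℕ → ℝ} (hq : StrictMono q) (hg : ∀ j : ℕ, (j : ℝ) + 1 ≤ q j) (hD : Disc q) (m : ℤ) :
    DifferentiableOn ℂ (FF q m) {w | 1 / 2 < w.re} := by
  intro w hw
  have hw' : 1 / 2 < w.re := hw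
  obtain ⟨C, hC0, hC⟩ := hD ((w.re - 1 / 2) / 2) (by linarith)
  set δ := (w.re - 1 / 2) / 2 with hδ
  set C' := C * √(Real.log (|(m : ℝ)| + 3)) with hC'
  have hC'0 : 0 ≤ C' := by positivity
  have hb : ∀ x : ℝ, 1 ≤ x → ‖AA q m x - BB m x‖ ≤ C' * x ^ (1 / 2 + δ) := by
    intro x hx
    refine (hC m x hx).trans (le_of_eq ?_)
    rw [hC']
    ring
  have hloc : LocallyIntegrableOn (DD q m) (Ioi 0) := by
    have h1 : LocallyIntegrableOn (fun x : ℝ => C' * x ^ (1 / 2 + δ)) (Ioi 0) := by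
      refine ContinuousOn.locallyIntegrableOn ?_ measurableSet_Ioi
      intro x hx
      have hx0 : (0 : ℝ) < x := hx
      exact ((Real.continuousAt_rpow_const x _ (Or.inl hx0.ne')).const_mul C').continuousWithinAt
    refine h1.mono (DD_meas hq hg m) (Eventually.of_forall fun x => ?_)
    by_cases hx : 1 < x
    · rw [Real.norm_of_nonneg (by positivity)]
      exact DD_bd hC'0 hb (by linarith)
    · unfold DD
      rw [if_neg hx, norm_zero]
      exact norm_nonneg _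
  have htop : DD q m =O[atTop] (fun x : ℝ => x ^ (-(-(1 / 2 + δ)))) := by
    refine Asymptotics.IsBigO.of_bound C' ?_
    filter_upwards [eventually_gt_atTop 0] with x hx
    rw [neg_neg, Real.norm_of_nonneg (by positivity)]
    exact DD_bd hC'0 hb hx
  have hmel := mellin_differentiableAt_of_isBigO_rpow (a := -(1 / 2 + δ)) (b := -w.re - 1) (s := -w) hloc htop
    (by rw [Complex.neg_re]; linarith)
    (zero_bot (fun u hu => by unfold DD; rw [if_neg (not_lt.2 hu)]) _) (by rw [Complex.neg_re]; linarith)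
  have h2 : DifferentiableAt ℂ (fun w : ℂ => mellin (DD q m) (-w)) w :=
    DifferentiableAt.comp (f := fun w : ℂ => -w) w hmel differentiableAt_id.neg
  exact (differentiableAt_id.mul h2).differentiableWithinAt

theorem FF_bound {q : ℕ → ℝ} {m : ℤ} {C δ : ℝ}
    (h : ∀ x : ℝ, 1 ≤ x → ‖AA q m x - BB m x‖ ≤ C * x ^ (1 / 2 + δ)) {w : ℂ} (hw : 1 / 2 + δ < w.re) :
    ‖FF q m w‖ ≤ ‖w‖ * (C / (w.re - 1 / 2 - δ)) := by
  unfold FF
  rw [norm_mul, mellin_DD]
  refine mul_le_mul_of_nonneg_left ?_ (norm_nonneg _)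
  have h1 : ‖∫ x in Ioi (1 : ℝ), (x : ℂ) ^ (-w - 1) * (AA q m x - BB m x)‖ ≤
      ∫ x in Ioi (1 : ℝ), C * x ^ (-w.re - 1 / 2 + δ) := by
    refine norm_integral_le_of_norm_le ((integrableOn_Ioi_rpow_of_lt (by linarith) one_pos).const_mul C) ?_
    refine (ae_restrict_iff' measurableSet_Ioi).2 (Eventually.of_forall fun x hx => ?_)
    have hx1 : (1 : ℝ) < x := hx
    have hx0 : 0 < x := by linarith
    rw [norm_mul, Complex.norm_cpow_eq_rpow_re_of_pos hx0]
    have e : (-w - 1).re = -w.re - 1 := by simp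
    rw [e]
    calc x ^ (-w.re - 1) * ‖AA q m x - BB m x‖ ≤ x ^ (-w.re - 1) * (C * x ^ (1 / 2 + δ)) :=
          mul_le_mul_of_nonneg_left (h x hx1.le) (by positivity)
      _ = C * (x ^ (-w.re - 1) * x ^ (1 / 2 + δ)) := by ring
      _ = C * x ^ (-w.re - 1 / 2 + δ) := by
          rw [← Real.rpow_add hx0]
          congr 2
          ring
  refine h1.trans (le_of_eq ?_)
  rw [integral_const_mul, integral_Ioi_rpow_of_lt (by linarith) one_pos, Real.one_rpow]
  have h2 : w.re - 1 / 2 - δ ≠ 0 := by linarith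
  have h3 : -w.re - 1 / 2 + δ + 1 = -(w.re - 1 / 2 - δ) := by ring
  rw [h3, neg_div_neg_eq, mul_one_div]

theorem identity {q : ℕ → ℝ} (hq : StrictMono q) (hg : ∀ j : ℕ, (j : ℝ) + 1 ≤ q j) (hq0 : 1 < q 0) (hD : Disc q)
    (m : ℤ) {s : ℂ} (hs : 1 / 2 < s.re) : FF q 0 s = FF q m (s - m * I) := by
  let U : Set ℂ := {s | 1 / 2 < s.re}
  have hU : IsOpen U := isOpen_lt continuous_const Complex.continuous_re
  have hUc : IsPreconnected U := (convex_halfSpace_re_gt (1 / 2)).isPreconnected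
  have h1 : AnalyticOnNhd ℂ (FF q 0) U := (FF_diff hq hg hD 0).analyticOnNhd hU
  have h2 : AnalyticOnNhd ℂ (fun s => FF q m (s - m * I)) U := by
    refine DifferentiableOn.analyticOnNhd ?_ hU
    refine (FF_diff hq hg hD m).comp (by fun_prop) ?_
    intro z hz
    show 1 / 2 < (z - m * I).re
    have : 1 / 2 < z.re := hz
    simpa using this
  have h2U : (2 : ℂ) ∈ U := by
    show (1 / 2 : ℝ) < (2 : ℂ).re
    norm_num
  refine h1.eqOn_of_preconnected_of_eventuallyEq h2 hUc h2U ?_ hs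
  have h3 : ∀ᶠ z : ℂ in 𝓝 2, 1 < z.re := by
    refine (isOpen_lt continuous_const Complex.continuous_re).mem_nhds ?_
    show (1 : ℝ) < (2 : ℂ).re
    norm_num
  filter_upwards [h3] with z hz
  rw [FF_eq hq hg hq0 0 hz, FF_eq hq hg hq0 m (w := z - m * I) (by simpa using hz)]
  have e1 : z + ((0 : ℤ) : ℂ) * I = z := by simp
  have e2 : z - m * I + m * I = z := by ring
  rw [e1, e2]

/-- the continuation of the sum over the generalised primes minus the transform of the density -/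
theorem cont {q : ℕ → ℝ} (hq : StrictMono q) (hg : ∀ j : ℕ, (j : ℝ) + 1 ≤ q j) (hq0 : 1 < q 0) (hD : Disc q) :
    ∃ P : ℂ → ℂ, DifferentiableOn ℂ P {s | 1 / 2 < s.re} ∧
      (∀ s : ℂ, 1 < s.re → P s = (∑' j, (q j : ℂ) ^ (-s)) - Tz s) ∧
      ∀ σ : ℝ, 1 / 2 < σ → ∃ C : ℝ, 0 ≤ C ∧ ∀ s : ℂ, σ ≤ s.re → ‖P s‖ ≤ C * √(Real.log (|s.im| + 3)) := by
  refine ⟨FF q 0, FF_diff hq hg hD 0, fun s hs => ?_, fun σ hσ => ?_⟩
  · rw [FF_eq hq hg hq0 0 hs]
    have e1 : s + ((0 : ℤ) : ℂ) * I = s := by simp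
    rw [e1]
  · set δ := (σ - 1 / 2) / 2 with hδ
    have hδ0 : 0 < δ := by rw [hδ]; linarith
    have hσδ : 0 < σ - 1 / 2 - δ := by rw [hδ]; linarith
    obtain ⟨C, hC0, hC⟩ := hD δ hδ0
    refine ⟨2 * C * (1 + (1 + δ) / (σ - 1 / 2 - δ)), by positivity, fun s hs => ?_⟩
    set m : ℤ := round s.im with hm
    have hmr : |s.im - m| ≤ 1 / 2 := abs_sub_round s.im
    rw [identity hq hg hq0 hD m (by linarith)]
    set w := s - m * I with hw
    have hwre : w.re = s.re := by rw [hw]; simp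
    have hwim : w.im = s.im - m := by rw [hw]; simp
    set L := Real.log (|(m : ℝ)| + 3) with hL
    set L' := Real.log (|s.im| + 3) with hL'
    have hb := FF_bound (q := q) (m := m) (C := C * √L) (δ := δ)
      (fun x hx => (hC m x hx).trans (le_of_eq (by ring))) (w := w) (by rw [hwre]; linarith)
    have hwn : ‖w‖ ≤ s.re + 1 / 2 := by
      refine (Complex.norm_le_abs_re_add_abs_im w).trans ?_
      rw [hwre, hwim, abs_of_nonneg (by linarith)]
      linarith
    have hLL : √L ≤ 2 * √L' := by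
      have h3 : (3 : ℝ) ≤ |s.im| + 3 := by linarith [abs_nonneg s.im]
      have h4 : |(m : ℝ)| + 3 ≤ (|s.im| + 3) ^ 2 := by
        have h5 : |(m : ℝ)| ≤ |s.im| + 1 / 2 := by
          have h6 := abs_sub_abs_le_abs_sub (m : ℝ) s.im
          rw [abs_sub_comm] at h6
          linarith
        nlinarith [abs_nonneg s.im]
      have h7 : L ≤ 2 * L' := by
        have := Real.log_le_log (by positivity) h4
        rw [Real.log_pow] at this
        push_cast at this
        exact this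
      have h8 : 0 ≤ L' := Real.log_nonneg (by linarith)
      calc √L ≤ √(2 ^ 2 * L') := Real.sqrt_le_sqrt (by linarith)
        _ = 2 * √L' := by
          rw [Real.sqrt_mul (by norm_num), Real.sqrt_sq (by norm_num)]
    have hfrac : (s.re + 1 / 2) / (s.re - 1 / 2 - δ) ≤ 1 + (1 + δ) / (σ - 1 / 2 - δ) := by
      have h9 : 0 < s.re - 1 / 2 - δ := by linarith
      have h10 : (s.re + 1 / 2) / (s.re - 1 / 2 - δ) = 1 + (1 + δ) / (s.re - 1 / 2 - δ) := by
        rw [div_eq_iff h9.ne', add_mul, div_mul_cancel₀ _ h9.ne']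
        ring
      rw [h10]
      have h11 : (1 + δ) / (s.re - 1 / 2 - δ) ≤ (1 + δ) / (σ - 1 / 2 - δ) :=
        div_le_div_of_nonneg_left (by positivity) hσδ (by linarith)
      linarith
    rw [hwre] at hb
    have h9 : 0 < s.re - 1 / 2 - δ := by linarith
    calc ‖FF q m w‖ ≤ ‖w‖ * (C * √L / (s.re - 1 / 2 - δ)) := hb
      _ ≤ (s.re + 1 / 2) * (C * √L / (s.re - 1 / 2 - δ)) := mul_le_mul_of_nonneg_right hwn (by positivity)
      _ = C * √L * ((s.re + 1 / 2) / (s.re - 1 / 2 - δ)) := by ring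
      _ ≤ C * (2 * √L') * (1 + (1 + δ) / (σ - 1 / 2 - δ)) := by
          have h12 : 0 ≤ 1 + (1 + δ) / (σ - 1 / 2 - δ) := by positivity
          have h13 : C * √L ≤ C * (2 * √L') := mul_le_mul_of_nonneg_left hLL hC0
          exact mul_le_mul h13 hfrac (by have : 0 ≤ s.re + 1 / 2 := by linarith
                                         positivity) (by positivity)
      _ = _ := by ring

end Pool.Agent.H49.BP
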