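import Mathlib

/-!
# Shift of the line of integration, and bounds for the kernel of the first Riesz mean
-/

set_option autoImplicit false

open Complex MeasureTheory Filter Topology Set

namespace Pool.Agent.H49.BP

theorem line_int {g : ℂ → ℂ} {θ a C : ℝ} (h1 : θ < a) (hg : DifferentiableOn ℂ g {s | θ < s.re})
    (hb : ∀ t : ℝ, ‖g (a + t * Complex.I)‖ ≤ C * (|t| + 3) ^ (-(3 : ℝ) / 2)) :
    Integrable (fun t : ℝ => g (a + t * Complex.I)) := by
  have hcont : Continuous fun t : ℝ => g (a + t * Complex.I) := by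
    refine continuousOn_univ.1 ?_
    refine hg.continuousOn.comp (f := fun t : ℝ => (a + t * Complex.I : ℂ)) (by fun_prop) ?_
    intro t _
    show θ < (a + t * Complex.I : ℂ).re
    simpa using h1
  have hint : Integrable fun t : ℝ => (1 + ‖t‖) ^ (-(3 / 2 : ℝ)) :=
    integrable_one_add_norm (by simp; norm_num)
  refine (hint.const_mul |C|).mono' hcont.aestronglyMeasurable (Eventually.of_forall fun t => ?_)
  refine (hb t).trans ?_
  have e1 : (-(3 : ℝ) / 2) = -(3 / 2 : ℝ) := by ring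
  rw [e1]
  have e2 : (|t| + 3) ^ (-(3 / 2 : ℝ)) ≤ (1 + ‖t‖) ^ (-(3 / 2 : ℝ)) := by
    rw [Real.norm_eq_abs]
    refine Real.rpow_le_rpow_of_nonpos (by positivity) (by linarith) (by norm_num)
  have e3 : 0 ≤ (|t| + 3) ^ (-(3 / 2 : ℝ)) := by positivity
  calc C * (|t| + 3) ^ (-(3 / 2 : ℝ)) ≤ |C| * (|t| + 3) ^ (-(3 / 2 : ℝ)) := by
        gcongr
        exact le_abs_self C
    _ ≤ _ := by gcongr

theorem shift (g : ℂ → ℂ) (θ a b C : ℝ) (h1 : θ < a) (h2 : a < b) (hg : DifferentiableOn ℂ g {s | θ < s.re})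
    (hb : ∀ s : ℂ, a ≤ s.re → s.re ≤ b → ‖g s‖ ≤ C * (|s.im| + 3) ^ (-(3 : ℝ) / 2)) :
    ∫ t : ℝ, g (a + t * Complex.I) = ∫ t : ℝ, g (b + t * Complex.I) := by
  have ia := line_int h1 hg (C := C) fun t => by
    have := hb (a + t * Complex.I) (by simp) (by simpa using h2.le)
    simpa using this
  have ib := line_int (h1.trans h2) hg (C := C) fun t => by
    have := hb (b + t * Complex.I) (by simpa using h2.le) (by simp)
    simpa using this
  have ta : Tendsto (fun T : ℝ => ∫ t in (-T)..T, g (a + t * Complex.I)) atTop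
      (𝓝 (∫ t : ℝ, g (a + t * Complex.I))) :=
    intervalIntegral_tendsto_integral ia tendsto_neg_atTop_atBot tendsto_id
  have tb : Tendsto (fun T : ℝ => ∫ t in (-T)..T, g (b + t * Complex.I)) atTop
      (𝓝 (∫ t : ℝ, g (b + t * Complex.I))) :=
    intervalIntegral_tendsto_integral ib tendsto_neg_atTop_atBot tendsto_id
  have hrect : ∀ T : ℝ, 0 ≤ T → ‖(∫ t in (-T)..T, g (b + t * Complex.I)) -
      ∫ t in (-T)..T, g (a + t * Complex.I)‖ ≤ 2 * ((b - a) * (|C| * (T + 3) ^ (-(3 : ℝ) / 2))) := by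
    intro T hT
    have hr := Complex.integral_boundary_rect_eq_zero_of_differentiableOn g
      ((a : ℂ) + ((-T : ℝ) : ℂ) * Complex.I) ((b : ℂ) + (T : ℂ) * Complex.I) (by
        refine hg.mono ?_
        intro s hs
        rw [Complex.mem_reProdIm] at hs
        have h3 := hs.1
        simp only [Complex.add_re, Complex.ofReal_re, Complex.mul_re, Complex.I_re, mul_zero,
          Complex.ofReal_im, Complex.I_im, mul_one, sub_self, add_zero] at h3
        rw [Set.uIcc_of_le h2.le] at h3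
        show θ < s.re
        linarith [h3.1])
    simp only [Complex.add_re, Complex.ofReal_re, Complex.mul_re, Complex.I_re, mul_zero,
      Complex.ofReal_im, Complex.I_im, mul_one, sub_self, add_zero, Complex.add_im, Complex.mul_im,
      zero_add, smul_eq_mul] at hr
    have hor : ∀ y : ℝ, |y| = T → ‖∫ x in a..b, g (x + y * Complex.I)‖ ≤
        (b - a) * (|C| * (T + 3) ^ (-(3 : ℝ) / 2)) := by
      intro y hy
      have h3 : ∀ x ∈ Set.uIoc a b, ‖g (x + y * Complex.I)‖ ≤ |C| * (T + 3) ^ (-(3 : ℝ) / 2) := by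
        intro x hx
        rw [Set.uIoc_of_le h2.le] at hx
        have h4 := hb (x + y * Complex.I) (by simpa using hx.1.le) (by simpa using hx.2)
        have h5 : ((x : ℂ) + y * Complex.I).im = y := by simp
        rw [h5, hy] at h4
        refine h4.trans (mul_le_mul_of_nonneg_right (le_abs_self C) ?_)
        have : 0 ≤ T + 3 := by linarith
        exact Real.rpow_nonneg this _
      have h4 := intervalIntegral.norm_integral_le_of_norm_le_const h3
      rw [abs_of_pos (by linarith : 0 < b - a)] at h4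
      linarith
    have hI : ∀ z w : ℂ, ‖z - w‖ = ‖Complex.I * z - Complex.I * w‖ := by
      intro z w
      rw [← mul_sub, norm_mul, Complex.norm_I, one_mul]
    rw [hI]
    have e1 : Complex.I * (∫ t in (-T)..T, g (b + t * Complex.I)) -
        Complex.I * ∫ t in (-T)..T, g (a + t * Complex.I) =
        (∫ x in a..b, g (x + T * Complex.I)) - ∫ x in a..b, g (x + ((-T : ℝ) : ℂ) * Complex.I) := by
      linear_combination hr
    rw [e1]
    refine (norm_sub_le _ _).trans ?_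
    have q1 := hor T (abs_of_nonneg hT)
    have q2 := hor (-T) (by rw [abs_neg, abs_of_nonneg hT])
    linarith
  have hz : Tendsto (fun T : ℝ => (∫ t in (-T)..T, g (b + t * Complex.I)) -
      ∫ t in (-T)..T, g (a + t * Complex.I)) atTop (𝓝 0) := by
    have hlim : Tendsto (fun T : ℝ => 2 * ((b - a) * (|C| * (T + 3) ^ (-(3 : ℝ) / 2)))) atTop
        (𝓝 0) := by
      have h3 : Tendsto (fun T : ℝ => (T + 3) ^ (-(3 / 2 : ℝ))) atTop (𝓝 0) :=
        (tendsto_rpow_neg_atTop (by norm_num : (0:ℝ) < 3 / 2)).comp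
          (tendsto_atTop_add_const_right _ 3 tendsto_id)
      have h4 := ((h3.const_mul |C|).const_mul (b - a)).const_mul 2
      simp only [mul_zero] at h4
      have e1 : (-(3 : ℝ) / 2) = -(3 / 2 : ℝ) := by ring
      rw [e1]
      exact h4
    refine squeeze_zero_norm' ?_ hlim
    filter_upwards [eventually_ge_atTop 0] with T hT
    exact hrect T hT
  have h3 := tendsto_nhds_unique (tb.sub ta) hz
  exact (sub_eq_zero.1 h3).symm

/-- the integrand -/
noncomputable def hh (G : ℂ → ℂ) (y : ℝ) (s : ℂ) : ℂ := G s * (y : ℂ) ^ (s + 1) / (s * (s + 1))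

theorem den_bd {σ : ℝ} (hσ : 0 < σ) {s : ℂ} (hs : σ ≤ s.re) :
    |s.im| + 3 ≤ (1 + 3 / σ) * ‖s‖ ∧ |s.im| + 3 ≤ (1 + 3 / σ) * ‖s + 1‖ := by
  have key : ∀ z : ℂ, σ ≤ z.re → |z.im| + 3 ≤ (1 + 3 / σ) * ‖z‖ := by
    intro z hz
    have h1 : |z.im| ≤ ‖z‖ := Complex.abs_im_le_norm z
    have h2 : σ ≤ ‖z‖ := hz.trans ((le_abs_self _).trans (Complex.abs_re_le_norm z))
    have h3 : 3 ≤ 3 / σ * ‖z‖ := by
      rw [div_mul_eq_mul_div, le_div_iff₀ hσ]
      nlinarith
    linarith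
  refine ⟨key s hs, ?_⟩
  have := key (s + 1) (by simp; linarith)
  simpa using this

theorem min_bd {u η : ℝ} (hu : 0 ≤ u) (hη : 0 < η) (hη1 : η ≤ 1) : min 1 u ≤ u ^ η := by
  rcases le_total u 1 with h | h
  · rw [min_eq_right h]
    rcases eq_or_lt_of_le hu with h0 | h0
    · rw [← h0, Real.zero_rpow hη.ne']
    · calc u = u ^ (1 : ℝ) := (Real.rpow_one u).symm
        _ ≤ u ^ η := Real.rpow_le_rpow_of_exponent_ge h0 h hη1
  · rw [min_eq_left h]
    exact Real.one_le_rpow h hη.le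

/-- the difference quotient -/
theorem K_bd {σ η x : ℝ} (hσ : 0 < σ) (hσ1 : σ < 1) (hη : 0 < η) (hη1 : η ≤ 1) (hx : 1 ≤ x) {s : ℂ}
    (hs : s.re = σ) :
    ‖(((x + 1 : ℝ) : ℂ) ^ (s + 1) - (x : ℂ) ^ (s + 1)) / (s + 1)‖ ≤
      8 * x ^ σ * (x / ‖s + 1‖) ^ η := by
  have hx0 : 0 < x := by linarith
  have hs1 : s + 1 ≠ 0 := by
    intro h
    have := congrArg Complex.re h
    simp [hs] at this
    linarith
  have hn1 : 0 < ‖s + 1‖ := norm_pos_iff.2 hs1
  -- first bound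
  have hA : ‖(((x + 1 : ℝ) : ℂ) ^ (s + 1) - (x : ℂ) ^ (s + 1)) / (s + 1)‖ ≤ 8 * x ^ σ := by
    have hd : ∀ u ∈ Icc x (x + 1), HasDerivWithinAt (fun y : ℝ => (y : ℂ) ^ (s + 1) / (s + 1))
        ((u : ℂ) ^ s) (Icc x (x + 1)) u := by
      intro u hu
      exact (hasDerivAt_ofReal_cpow_const' (by linarith [hu.1]) (by
        intro h; apply hs1; rw [h]; ring)).hasDerivWithinAt
    have hb : ∀ u ∈ Ico x (x + 1), ‖(u : ℂ) ^ s‖ ≤ (x + 1) ^ σ := by
      intro u hu
      rw [Complex.norm_cpow_eq_rpow_re_of_pos (by linarith [hu.1]), hs]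
      exact Real.rpow_le_rpow (by linarith [hu.1]) hu.2.le hσ.le
    have h1 := norm_image_sub_le_of_norm_deriv_le_segment' hd hb (x + 1) ⟨by linarith, le_refl _⟩
    rw [← sub_div] at h1
    refine h1.trans ?_
    have h2 : (x + 1) ^ σ ≤ 2 * x ^ σ := by
      calc (x + 1) ^ σ ≤ (2 * x) ^ σ := Real.rpow_le_rpow (by linarith) (by linarith) hσ.le
        _ = 2 ^ σ * x ^ σ := Real.mul_rpow (by norm_num) hx0.le
        _ ≤ 2 ^ (1 : ℝ) * x ^ σ := by
            gcongr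
            · norm_num
        _ = 2 * x ^ σ := by rw [Real.rpow_one]
    have : 0 ≤ x ^ σ := by positivity
    linarith
  -- second bound
  have hB : ‖(((x + 1 : ℝ) : ℂ) ^ (s + 1) - (x : ℂ) ^ (s + 1)) / (s + 1)‖ ≤
      8 * x ^ σ * (x / ‖s + 1‖) := by
    rw [norm_div, mul_div_assoc', div_le_div_iff_of_pos_right hn1]
    refine (norm_sub_le _ _).trans ?_
    rw [Complex.norm_cpow_eq_rpow_re_of_pos (by linarith), Complex.norm_cpow_eq_rpow_re_of_pos hx0]
    have hre : (s + 1).re = σ + 1 := by simp [hs]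
    rw [hre]
    have h2 : (x + 1) ^ (σ + 1) ≤ 4 * x ^ (σ + 1) := by
      calc (x + 1) ^ (σ + 1) ≤ (2 * x) ^ (σ + 1) :=
            Real.rpow_le_rpow (by linarith) (by linarith) (by linarith)
        _ = 2 ^ (σ + 1) * x ^ (σ + 1) := Real.mul_rpow (by norm_num) hx0.le
        _ ≤ 2 ^ (2 : ℝ) * x ^ (σ + 1) := by
            gcongr
            · norm_num
            · linarith
        _ = 4 * x ^ (σ + 1) := by norm_num
    have h3 : x ^ (σ + 1) = x ^ σ * x := by rw [Real.rpow_add hx0, Real.rpow_one]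
    have h4 : 0 < x ^ (σ + 1) := by positivity
    rw [mul_assoc, ← h3]
    linarith
  have hu : 0 ≤ x / ‖s + 1‖ := by positivity
  have hp : 0 ≤ 8 * x ^ σ := by positivity
  calc ‖(((x + 1 : ℝ) : ℂ) ^ (s + 1) - (x : ℂ) ^ (s + 1)) / (s + 1)‖
      ≤ min (8 * x ^ σ) (8 * x ^ σ * (x / ‖s + 1‖)) := le_min hA hB
    _ = 8 * x ^ σ * min 1 (x / ‖s + 1‖) := by rw [mul_min_of_nonneg _ _ hp, mul_one]
    _ ≤ 8 * x ^ σ * (x / ‖s + 1‖) ^ η := mul_le_mul_of_nonneg_left (min_bd hu hη hη1) hp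

/-- crude bound of the integrand -/
theorem hh_bd {G : ℂ → ℂ} {σ C y : ℝ} (hσ : 0 < σ) (hy : 1 ≤ y)
    (hG : ∀ s : ℂ, σ ≤ s.re → ‖G s‖ ≤ C * (|s.im| + 3) ^ (1 / 2 : ℝ)) (s : ℂ) (hs : σ ≤ s.re)
    (hs2 : s.re ≤ 2) :
    ‖hh G y s‖ ≤ (C * (1 + 3 / σ) ^ 2 * y ^ (3 : ℝ)) * (|s.im| + 3) ^ (-(3 : ℝ) / 2) := by
  obtain ⟨h1, h2⟩ := den_bd hσ hs
  set T := |s.im| + 3 with hT
  have hT0 : 0 < T := by positivity
  set κ := 1 + 3 / σ with hκ
  have hκ0 : 0 < κ := by positivity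
  have hg := hG s hs
  have hC : 0 ≤ C := by
    have : 0 ≤ C * T ^ (1 / 2 : ℝ) := (norm_nonneg _).trans hg
    have h3 : 0 < T ^ (1 / 2 : ℝ) := by positivity
    by_contra h
    push Not at h
    nlinarith
  unfold hh
  rw [norm_div, norm_mul, norm_mul, Complex.norm_cpow_eq_rpow_re_of_pos (by linarith)]
  have hy3 : y ^ (s + 1).re ≤ y ^ (3 : ℝ) := by
    apply Real.rpow_le_rpow_of_exponent_le hy
    simp; linarith
  have hden : T ^ 2 / κ ^ 2 ≤ ‖s‖ * ‖s + 1‖ := by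
    have h3 : T / κ ≤ ‖s‖ := by rw [div_le_iff₀ hκ0]; linarith
    have h4 : T / κ ≤ ‖s + 1‖ := by rw [div_le_iff₀ hκ0]; linarith
    calc T ^ 2 / κ ^ 2 = (T / κ) * (T / κ) := by field_simp
      _ ≤ ‖s‖ * ‖s + 1‖ := mul_le_mul h3 h4 (by positivity) (norm_nonneg _)
  have hden0 : 0 < T ^ 2 / κ ^ 2 := by positivity
  calc ‖G s‖ * y ^ (s + 1).re / (‖s‖ * ‖s + 1‖)
      ≤ (C * T ^ (1 / 2 : ℝ)) * y ^ (3 : ℝ) / (T ^ 2 / κ ^ 2) := by
        gcongr
    _ = (C * κ ^ 2 * y ^ (3 : ℝ)) * (T ^ (1 / 2 : ℝ) / T ^ 2) := by field_simp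
    _ = (C * κ ^ 2 * y ^ (3 : ℝ)) * T ^ (-(3 : ℝ) / 2) := by
        congr 1
        rw [← Real.rpow_natCast T 2, ← Real.rpow_sub hT0]
        norm_num

theorem hh_diff {G : ℂ → ℂ} {θ y : ℝ} (hθ : 0 < θ) (hy : 0 < y)
    (hG : DifferentiableOn ℂ G {s | θ < s.re}) : DifferentiableOn ℂ (hh G y) {s | θ < s.re} := by
  intro s hs
  have hs' : θ < s.re := hs
  have h0 : s * (s + 1) ≠ 0 := by
    intro h
    rcases mul_eq_zero.1 h with h | h
    · rw [h] at hs'; simp at hs'; linarith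
    · have := congrArg Complex.re h
      simp at this; linarith
  unfold hh
  refine DifferentiableWithinAt.div ((hG s hs).mul ?_) (by fun_prop) h0
  have : DifferentiableAt ℂ (fun s : ℂ => (y : ℂ) ^ (s + 1)) s := by
    refine DifferentiableAt.const_cpow (by fun_prop) (Or.inl ?_)
    exact_mod_cast hy.ne'
  exact this.differentiableWithinAt

theorem int_pow {r : ℝ} (hr : 1 < r) : Integrable fun t : ℝ => (|t| + 3) ^ (-r) := by
  have h1 : Integrable fun t : ℝ => (1 + ‖t‖) ^ (-r) :=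
    integrable_one_add_norm (by simpa using hr)
  refine h1.mono' ?_ (Eventually.of_forall fun t => ?_)
  · refine Measurable.aestronglyMeasurable ?_
    fun_prop
  · rw [Real.norm_of_nonneg (by positivity), Real.norm_eq_abs]
    exact Real.rpow_le_rpow_of_nonpos (by positivity) (by linarith) (by linarith)

theorem hh_int {G : ℂ → ℂ} {θ σ C y a : ℝ} (hθ : 0 < θ) (hσ : θ < σ) (hy : 1 ≤ y)
    (hd : DifferentiableOn ℂ G {s | θ < s.re})
    (hG : ∀ s : ℂ, σ ≤ s.re → ‖G s‖ ≤ C * (|s.im| + 3) ^ (1 / 2 : ℝ)) (ha : σ ≤ a) (ha2 : a ≤ 2) :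
    Integrable fun t : ℝ => hh G y ((a : ℂ) + t * I) := by
  have hσ0 : 0 < σ := hθ.trans hσ
  have hc : Continuous fun t : ℝ => hh G y ((a : ℂ) + t * I) := by
    refine (hh_diff hθ (by linarith) hd).continuousOn.comp_continuous (by fun_prop) fun t => ?_
    simp; linarith
  refine ((int_pow (r := 3 / 2) (by norm_num)).const_mul
    (C * (1 + 3 / σ) ^ 2 * y ^ (3 : ℝ))).mono' hc.aestronglyMeasurable
    (Eventually.of_forall fun t => ?_)
  have := hh_bd hσ0 hy hG ((a : ℂ) + t * I) (by simpa using ha) (by simpa using ha2)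
  simp only [add_im, ofReal_im, mul_im, ofReal_re, I_im, mul_one, I_re, mul_zero, add_zero,
    zero_add] at this
  rw [neg_div] at this
  exact this

/-- the difference of the Riesz means: the error term -/
theorem diff_bd {G : ℂ → ℂ} {θ ε : ℝ} (hθ : 0 < θ) (hε : 0 < ε) (hbig : θ + ε < 1)
    (hd : DifferentiableOn ℂ G {s | θ < s.re})
    (hgr : ∀ σ ε : ℝ, θ < σ → 0 < ε → ∃ C : ℝ, ∀ s : ℂ, σ ≤ s.re → ‖G s‖ ≤ C * (|s.im| + 3) ^ ε) :
    ∃ C : ℝ, ∀ x : ℝ, 1 ≤ x → ‖(∫ t : ℝ, hh G (x + 1) (((2 : ℝ) : ℂ) + t * I)) -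
      ∫ t : ℝ, hh G x (((2 : ℝ) : ℂ) + t * I)‖ ≤ C * x ^ (θ + ε) := by
  set σ := θ + ε / 2 with hσ
  set η := ε / 2 with hη
  have hη0 : 0 < η := by positivity
  have hη1 : η ≤ 1 := by linarith
  have hσ0 : 0 < σ := by positivity
  have hσ1 : σ < 1 := by linarith
  have hθσ : θ < σ := by linarith
  obtain ⟨C₁, hC₁⟩ := hgr σ (1 / 2) hθσ (by norm_num)
  obtain ⟨C₂, hC₂⟩ := hgr σ (η / 2) hθσ (by positivity)
  set κ := 1 + 3 / σ with hκ
  have hκ0 : 0 < κ := by positivity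
  have hC20 : 0 ≤ C₂ := by
    have h1 := (norm_nonneg _).trans (hC₂ (σ : ℂ) (by simp))
    have h2 : 0 < (|((σ : ℂ)).im| + 3) ^ (η / 2) := by positivity
    by_contra h
    push Not at h
    nlinarith
  have hRz : ∀ y : ℝ, 1 ≤ y → ∫ t : ℝ, hh G y (((2 : ℝ) : ℂ) + t * I) =
      ∫ t : ℝ, hh G y ((σ : ℂ) + t * I) := by
    intro y hy
    exact (shift (hh G y) θ σ 2 (C₁ * (1 + 3 / σ) ^ 2 * y ^ (3 : ℝ)) hθσ (by linarith)
      (hh_diff hθ (by linarith) hd) (fun s hs hs2 => hh_bd hσ0 hy hC₁ s hs hs2)).symm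
  set J := ∫ t : ℝ, (|t| + 3) ^ (-(1 + η / 2)) with hJ
  refine ⟨8 * C₂ * κ ^ (1 + η) * J, fun x hx1 => ?_⟩
  have hx0 : (0 : ℝ) < x := by linarith
  rw [hRz _ (by linarith), hRz _ hx1, ← integral_sub (hh_int hθ hθσ (by linarith) hd hC₁ le_rfl (by linarith))
      (hh_int hθ hθσ hx1 hd hC₁ le_rfl (by linarith))]
  have hpt : ∀ t : ℝ, ‖hh G (x + 1 : ℝ) ((σ : ℂ) + t * I) - hh G x ((σ : ℂ) + t * I)‖ ≤
      (8 * C₂ * κ ^ (1 + η) * x ^ (θ + ε)) * (|t| + 3) ^ (-(1 + η / 2)) := by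
    intro t
    set s : ℂ := (σ : ℂ) + t * I with hs
    have hsre : s.re = σ := by simp [hs]
    have hsim : s.im = t := by simp [hs]
    have hs0 : s ≠ 0 := by
      intro h; rw [h] at hsre; simp at hsre; linarith
    have hs1 : s + 1 ≠ 0 := by
      intro h
      have := congrArg Complex.re h
      simp [hsre] at this
      linarith
    obtain ⟨b1, b2⟩ := den_bd hσ0 hsre.ge
    rw [hsim] at b1 b2
    set T := |t| + 3 with hT
    have hT0 : 0 < T := by positivity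
    have hk := K_bd (x := x) hσ0 hσ1 hη0 hη1 hx1 hsre
    have hg := hC₂ s hsre.ge
    rw [hsim] at hg
    have e : hh G (x + 1 : ℝ) s - hh G x s =
        G s * (((x + 1 : ℝ) : ℂ) ^ (s + 1) - (x : ℂ) ^ (s + 1)) / (s + 1) / s := by
      unfold hh
      field_simp
    rw [e, norm_div, mul_div_assoc, norm_mul]
    have hsn : 0 < ‖s‖ := norm_pos_iff.2 hs0
    have hsn1 : 0 < ‖s + 1‖ := norm_pos_iff.2 hs1
    have c1 : 1 / ‖s‖ ≤ κ / T := by
      rw [div_le_div_iff₀ hsn hT0]; linarith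
    have c2 : x / ‖s + 1‖ ≤ κ * x / T := by
      rw [div_le_div_iff₀ hsn1 hT0]
      nlinarith
    have c3 : (x / ‖s + 1‖) ^ η ≤ κ ^ η * x ^ η * T ^ (-η) := by
      calc (x / ‖s + 1‖) ^ η ≤ (κ * x / T) ^ η :=
            Real.rpow_le_rpow (by positivity) c2 hη0.le
        _ = κ ^ η * x ^ η * T ^ (-η) := by
            rw [Real.div_rpow (by positivity) hT0.le, Real.mul_rpow hκ0.le hx0.le,
              Real.rpow_neg hT0.le, div_eq_mul_inv]
    calc ‖G s‖ * ‖(((x + 1 : ℝ) : ℂ) ^ (s + 1) - (x : ℂ) ^ (s + 1)) / (s + 1)‖ / ‖s‖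
        = ‖G s‖ * ‖(((x + 1 : ℝ) : ℂ) ^ (s + 1) - (x : ℂ) ^ (s + 1)) / (s + 1)‖ *
          (1 / ‖s‖) := by ring
      _ ≤ (C₂ * T ^ (η / 2)) * (8 * x ^ σ * (κ ^ η * x ^ η * T ^ (-η))) * (κ / T) := by
          have : ‖(((x + 1 : ℝ) : ℂ) ^ (s + 1) - (x : ℂ) ^ (s + 1)) / (s + 1)‖ ≤
              8 * x ^ σ * (κ ^ η * x ^ η * T ^ (-η)) :=
            hk.trans (mul_le_mul_of_nonneg_left c3 (by positivity))
          gcongr
      _ = (8 * C₂ * (κ ^ η * κ) * (x ^ σ * x ^ η)) *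
          (T ^ (η / 2) * T ^ (-η) * T⁻¹) := by ring
      _ = (8 * C₂ * κ ^ (1 + η) * x ^ (θ + ε)) * T ^ (-(1 + η / 2)) := by
          congr 1
          · congr 1
            · congr 1
              rw [add_comm (1 : ℝ) η, Real.rpow_add hκ0, Real.rpow_one]
            · rw [← Real.rpow_add hx0]
              congr 1
              rw [hσ, hη]; ring
          · rw [← Real.rpow_add hT0, ← Real.rpow_neg_one, ← Real.rpow_add hT0]
            congr 1
            ring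
  have hfin : ‖∫ t : ℝ, (hh G (x + 1 : ℝ) ((σ : ℂ) + t * I) - hh G x ((σ : ℂ) + t * I))‖ ≤
      (8 * C₂ * κ ^ (1 + η) * x ^ (θ + ε)) * J := by
    rw [hJ, ← integral_const_mul]
    exact norm_integral_le_of_norm_le ((int_pow (by linarith)).const_mul _)
      (Eventually.of_forall hpt)
  refine hfin.trans (le_of_eq ?_)
  ring

end Pool.Agent.H49.BP
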