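import Pool.Agent.H49.BP.Mell
import Pool.Agent.H49.BP.Shift

/-!
# From the zeta function to the counting function of the integers
-/

set_option autoImplicit false

open Complex MeasureTheory Filter Topology Set

namespace Pool.Agent.H49.BP

theorem ff_scale {x l : ℝ} (hx : 0 < x) : (x : ℂ) * ff (l / x) = ((max (x - l) 0 : ℝ) : ℂ) := by
  unfold ff
  rw [← Complex.ofReal_mul, mul_max_of_nonneg _ _ hx.le, mul_zero, mul_sub, mul_one,
    mul_div_cancel₀ _ hx.ne']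

theorem fg_scale {x : ℝ} (hx : 1 ≤ x) : (x : ℂ) * fg (1 / x) = (((x ^ 2 - 1) / 2 : ℝ) : ℂ) := by
  have hx0 : 0 < x := by linarith
  unfold fg
  rw [← Complex.ofReal_mul, one_div, inv_inv, max_eq_left]
  · congr 1
    field_simp
  · have := inv_le_one_of_one_le₀ hx
    linarith

/-- the powers -/
theorem cpow_quot {x l : ℝ} (hx : 0 < x) (hl : 0 < l) (s : ℂ) :
    ((l / x : ℝ) : ℂ) ^ (-s) = (l : ℂ) ^ (-s) * (x : ℂ) ^ s := by
  have h1 : ((l / x : ℝ) : ℂ) ^ (-s) = ((l : ℝ) : ℂ) ^ (-s) * (((x⁻¹ : ℝ)) : ℂ) ^ (-s) := by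
    rw [div_eq_mul_inv, Complex.ofReal_mul, Complex.mul_cpow_ofReal_nonneg hl.le (inv_nonneg.2 hx.le)]
  rw [h1]
  congr 1
  rw [Complex.ofReal_inv, Complex.inv_cpow, Complex.cpow_neg, inv_inv]
  rw [Complex.arg_ofReal_of_nonneg hx.le]
  exact Real.pi_pos.ne

theorem riesz {l : ℕ → ℝ} (hl : ∀ n, 1 ≤ l n) (hsum : Summable fun n => (l n) ^ (-2 : ℝ)) {ρ : ℝ} {G : ℂ → ℂ}
    (hG : ∀ t : ℝ, G (((2 : ℝ) : ℂ) + t * I) = (∑' n, (l n : ℂ) ^ (-(((2 : ℝ) : ℂ) + t * I))) -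
      ρ * ((((2 : ℝ) : ℂ) + t * I) / ((((2 : ℝ) : ℂ) + t * I) - 1))) {x : ℝ} (hx : 1 ≤ x) :
    HasSum (fun n => ((max (x - l n) 0 : ℝ) : ℂ)) (ρ * (((x ^ 2 - 1) / 2 : ℝ) : ℂ) +
      1 / (2 * Real.pi) * ∫ t : ℝ, hh G x (((2 : ℝ) : ℂ) + t * I)) := by
  have hx0 : 0 < x := by linarith
  have hc : (1 : ℝ) < 2 := by norm_num
  have hpi : (2 * Real.pi : ℂ) ≠ 0 := by
    have : (Real.pi : ℂ) ≠ 0 := by exact_mod_cast Real.pi_ne_zero
    simp [this]
  let S : ℝ → ℂ := fun t => ((2 : ℝ) : ℂ) + t * I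
  let F : ℕ → ℝ → ℂ := fun n t => (l n : ℂ) ^ (-(S t)) * (x : ℂ) ^ (S t + 1) / (S t * (S t + 1))
  have hSre : ∀ t, (S t).re = 2 := by intro t; simp [S]
  have hScont : Continuous S := by simp only [S]; fun_prop
  have hnx : ∀ t : ℝ, ‖(x : ℂ) ^ (S t + 1)‖ = x ^ (3 : ℝ) := by
    intro t
    rw [Complex.norm_cpow_eq_rpow_re_of_pos hx0]
    congr 1
    rw [Complex.add_re, hSre]; norm_num
  have hnl : ∀ (n : ℕ) (t : ℝ), ‖(l n : ℂ) ^ (-(S t))‖ = (l n) ^ (-2 : ℝ) := by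
    intro n t
    rw [Complex.norm_cpow_eq_rpow_re_of_pos (by linarith [hl n]), Complex.neg_re, hSre]
  have hbd : ∀ (n : ℕ) (t : ℝ), ‖F n t‖ ≤ ((l n) ^ (-2 : ℝ) * x ^ (3 : ℝ)) * (1 + t ^ 2)⁻¹ := by
    intro n t
    simp only [F]
    rw [norm_div, norm_mul, hnx, hnl, div_eq_mul_inv]
    have h3 : (‖S t * (S t + 1)‖)⁻¹ ≤ (1 + t ^ 2)⁻¹ :=
      inv_anti₀ (by positivity) (norm_den hc)
    have h4 : 0 ≤ (l n) ^ (-2 : ℝ) := Real.rpow_nonneg (by linarith [hl n]) _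
    exact mul_le_mul_of_nonneg_left h3 (by positivity)
  have hcont : ∀ n : ℕ, Continuous (F n) := by
    intro n
    simp only [F]
    have hn0 : (l n : ℂ) ≠ 0 := by
      have : l n ≠ 0 := by linarith [hl n]
      exact_mod_cast this
    have hxx : (x : ℂ) ≠ 0 := by exact_mod_cast hx0.ne'
    refine Continuous.div (Continuous.mul ?_ ?_) (by fun_prop) fun t => den_ne hc
    · exact Continuous.const_cpow (by fun_prop) (Or.inl hn0)
    · exact Continuous.const_cpow (by fun_prop) (Or.inl hxx)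
  have hint : ∀ n : ℕ, Integrable (F n) := by
    intro n
    refine ((integrable_inv_one_add_sq).const_mul ((l n) ^ (-2 : ℝ) * x ^ (3 : ℝ))).mono'
      (hcont n).aestronglyMeasurable (Eventually.of_forall fun t => hbd n t)
  have hsum' : Summable fun n : ℕ => ∫ t, ‖F n t‖ := by
    have h1 : Summable fun n : ℕ => (l n) ^ (-2 : ℝ) * (x ^ (3 : ℝ) * Real.pi) := hsum.mul_right _
    refine Summable.of_nonneg_of_le (fun n => integral_nonneg fun t => norm_nonneg _) (fun n => ?_) h1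
    calc ∫ t, ‖F n t‖ ≤ ∫ t, ((l n) ^ (-2 : ℝ) * x ^ (3 : ℝ)) * (1 + t ^ 2)⁻¹ :=
          integral_mono (hint n).norm ((integrable_inv_one_add_sq).const_mul _) (fun t => hbd n t)
      _ = (l n) ^ (-2 : ℝ) * (x ^ (3 : ℝ) * Real.pi) := by
          rw [integral_const_mul, integral_univ_inv_one_add_sq]; ring
  have hH := hasSum_integral_of_summable_integral_norm hint hsum'
  -- the terms
  have hT : ∀ n : ℕ, ∫ t, F n t = (2 * Real.pi) * ((max (x - l n) 0 : ℝ) : ℂ) := by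
    intro n
    have hln : 0 < l n := by linarith [hl n]
    rw [← ff_scale hx0, inv_ff (div_pos hln hx0)]
    have e : (2 * Real.pi : ℂ) * (x * (1 / (2 * Real.pi) * ∫ t : ℝ, ((l n / x : ℝ) : ℂ) ^ (-(((2 : ℝ) : ℂ) + t * I)) /
      ((((2 : ℝ) : ℂ) + t * I) * (((2 : ℝ) : ℂ) + t * I + 1)))) = x * ∫ t : ℝ, ((l n / x : ℝ) : ℂ) ^ (-(((2 : ℝ) : ℂ) + t * I)) /
      ((((2 : ℝ) : ℂ) + t * I) * (((2 : ℝ) : ℂ) + t * I + 1)) := by
      generalize (∫ t : ℝ, ((l n / x : ℝ) : ℂ) ^ (-(((2 : ℝ) : ℂ) + t * I)) /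
      ((((2 : ℝ) : ℂ) + t * I) * (((2 : ℝ) : ℂ) + t * I + 1))) = J
      field_simp
    rw [e, ← integral_const_mul]
    refine integral_congr_ae (Eventually.of_forall fun t => ?_)
    simp only [F]
    rw [cpow_quot hx0 hln]
    have hxx : (x : ℂ) ≠ 0 := by exact_mod_cast hx0.ne'
    rw [Complex.cpow_add _ _ hxx, Complex.cpow_one]
    simp only [S]
    ring
  -- the reference term
  have hrefint : Integrable fun t : ℝ => S t / (S t - 1) * (x : ℂ) ^ (S t + 1) / (S t * (S t + 1)) := by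
    have hne : ∀ t : ℝ, S t - 1 ≠ 0 := by
      intro t h
      have := congrArg Complex.re h
      rw [Complex.sub_re, hSre] at this
      simp at this
      linarith
    have hxx : (x : ℂ) ≠ 0 := by exact_mod_cast hx0.ne'
    have hcc : Continuous fun t : ℝ => S t / (S t - 1) * (x : ℂ) ^ (S t + 1) / (S t * (S t + 1)) := by
      refine Continuous.div (Continuous.mul (Continuous.div hScont (by fun_prop) hne) ?_) (by fun_prop)
        fun t => den_ne hc
      exact Continuous.const_cpow (by fun_prop) (Or.inl hxx)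
    refine ((integrable_inv_one_add_sq).const_mul (2 * x ^ (3 : ℝ))).mono' hcc.aestronglyMeasurable ?_
    refine Eventually.of_forall fun t => ?_
    rw [norm_div, norm_mul, hnx, div_eq_mul_inv]
    have h3 : (‖S t * (S t + 1)‖)⁻¹ ≤ (1 + t ^ 2)⁻¹ :=
      inv_anti₀ (by positivity) (norm_den hc)
    have h4 : ‖S t / (S t - 1)‖ ≤ 2 := norm_quot t
    exact mul_le_mul (mul_le_mul_of_nonneg_right h4 (by positivity)) h3 (by positivity) (by positivity)
  have href : ∫ t : ℝ, S t / (S t - 1) * (x : ℂ) ^ (S t + 1) / (S t * (S t + 1)) =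
      (2 * Real.pi) * (((x ^ 2 - 1) / 2 : ℝ) : ℂ) := by
    rw [← fg_scale hx, inv_fg (by positivity)]
    have e : (2 * Real.pi : ℂ) * (x * (1 / (2 * Real.pi) * ∫ t : ℝ, (((2 : ℝ) : ℂ) + t * I) / ((((2 : ℝ) : ℂ) + t * I) - 1) *
      ((1 / x : ℝ) : ℂ) ^ (-(((2 : ℝ) : ℂ) + t * I)) /
      ((((2 : ℝ) : ℂ) + t * I) * (((2 : ℝ) : ℂ) + t * I + 1)))) = x * ∫ t : ℝ, (((2 : ℝ) : ℂ) + t * I) / ((((2 : ℝ) : ℂ) + t * I) - 1) *
      ((1 / x : ℝ) : ℂ) ^ (-(((2 : ℝ) : ℂ) + t * I)) /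
      ((((2 : ℝ) : ℂ) + t * I) * (((2 : ℝ) : ℂ) + t * I + 1)) := by
      generalize (∫ t : ℝ, (((2 : ℝ) : ℂ) + t * I) / ((((2 : ℝ) : ℂ) + t * I) - 1) *
      ((1 / x : ℝ) : ℂ) ^ (-(((2 : ℝ) : ℂ) + t * I)) /
      ((((2 : ℝ) : ℂ) + t * I) * (((2 : ℝ) : ℂ) + t * I + 1))) = J
      field_simp
    rw [e, ← integral_const_mul]
    refine integral_congr_ae (Eventually.of_forall fun t => ?_)
    simp only
    rw [cpow_quot hx0 one_pos]
    have hxx : (x : ℂ) ≠ 0 := by exact_mod_cast hx0.ne'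
    rw [Complex.cpow_add _ _ hxx, Complex.cpow_one, Complex.ofReal_one, Complex.one_cpow]
    simp only [S]
    ring
  have hfull : ∫ t, ∑' n, F n t = (∫ t : ℝ, hh G x (((2 : ℝ) : ℂ) + t * I)) +
      ρ * ((2 * Real.pi) * (((x ^ 2 - 1) / 2 : ℝ) : ℂ)) := by
    have hsumI : Integrable fun t => ∑' n, F n t := by
      have hm : AEStronglyMeasurable (fun t => ∑' n, F n t) volume := by
        have hcc : Continuous fun t => ∑' n, F n t := by
          refine continuous_tsum hcont (u := fun n => (l n) ^ (-2 : ℝ) * x ^ (3 : ℝ)) (hsum.mul_right _) ?_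
          intro n t
          refine (hbd n t).trans ?_
          have h4 : 0 ≤ (l n) ^ (-2 : ℝ) := Real.rpow_nonneg (by linarith [hl n]) _
          have h5 : (1 + t ^ 2)⁻¹ ≤ 1 := inv_le_one_of_one_le₀ (by nlinarith [sq_nonneg t])
          exact mul_le_of_le_one_right (by positivity) h5
        exact hcc.aestronglyMeasurable
      refine ((integrable_inv_one_add_sq).const_mul ((∑' n, (l n) ^ (-2 : ℝ)) * x ^ (3 : ℝ))).mono' hm ?_
      refine Eventually.of_forall fun t => ?_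
      have h6 : HasSum (fun n => ((l n) ^ (-2 : ℝ) * x ^ (3 : ℝ)) * (1 + t ^ 2)⁻¹)
          (((∑' n, (l n) ^ (-2 : ℝ)) * x ^ (3 : ℝ)) * (1 + t ^ 2)⁻¹) :=
        (hsum.hasSum.mul_right _).mul_right _
      exact tsum_of_norm_bounded h6 fun n => hbd n t
    rw [← href, ← integral_const_mul, ← integral_add]
    · refine integral_congr_ae (Eventually.of_forall fun t => ?_)
      simp only [F, hh]
      rw [hG t, tsum_div_const, tsum_mul_right]
      simp only [S]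
      ring
    · have e : (fun t : ℝ => hh G x (((2 : ℝ) : ℂ) + t * I)) = fun t => (∑' n, F n t) -
          ρ * (S t / (S t - 1) * (x : ℂ) ^ (S t + 1) / (S t * (S t + 1))) := by
        funext t
        simp only [F, hh]
        rw [hG t, tsum_div_const, tsum_mul_right]
        simp only [S]
        ring
      rw [e]
      exact hsumI.sub (hrefint.const_mul _)
    · exact hrefint.const_mul _
  rw [hfull] at hH
  simp_rw [hT] at hH
  have h7 := hH.mul_left (1 / (2 * Real.pi) : ℂ)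
  have e1 : (fun n => ((max (x - l n) 0 : ℝ) : ℂ)) =
      fun n => (1 / (2 * Real.pi) : ℂ) * (2 * Real.pi * ((max (x - l n) 0 : ℝ) : ℂ)) := by
    funext n
    rw [← mul_assoc, one_div, inv_mul_cancel₀ hpi, one_mul]
  have e3 : (ρ : ℂ) * (((x ^ 2 - 1) / 2 : ℝ) : ℂ) +
      1 / (2 * Real.pi) * ∫ t : ℝ, hh G x (((2 : ℝ) : ℂ) + t * I) = (1 / (2 * Real.pi) : ℂ) *
      ((∫ t : ℝ, hh G x (((2 : ℝ) : ℂ) + t * I)) + ρ * ((2 * Real.pi) * (((x ^ 2 - 1) / 2 : ℝ) : ℂ))) := by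
    rw [mul_add]
    have e2 : (1 / (2 * Real.pi) : ℂ) * (ρ * ((2 * Real.pi) * (((x ^ 2 - 1) / 2 : ℝ) : ℂ))) =
        ρ * (((x ^ 2 - 1) / 2 : ℝ) : ℂ) := by
      generalize (((x ^ 2 - 1) / 2 : ℝ) : ℂ) = v
      field_simp
    rw [e2]
    ring
  rw [e1, e3]
  exact h7

theorem fin_le {l : ℕ → ℝ} (hl : ∀ n, 1 ≤ l n) (hsum : Summable fun n => (l n) ^ (-2 : ℝ)) (x : ℝ) :
    {n | l n ≤ x}.Finite := by
  by_cases hx : 0 < x
  · have h1 := hsum.tendsto_cofinite_zero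
    have h2 : ∀ᶠ n in cofinite, (l n) ^ (-2 : ℝ) < x ^ (-2 : ℝ) :=
      h1.eventually (gt_mem_nhds (Real.rpow_pos_of_pos hx _))
    refine (Filter.eventually_cofinite.1 h2).subset ?_
    intro n hn
    show ¬ (l n) ^ (-2 : ℝ) < x ^ (-2 : ℝ)
    push Not
    exact Real.rpow_le_rpow_of_nonpos (by linarith [hl n]) hn (by norm_num)
  · refine Set.Finite.subset Set.finite_empty ?_
    intro n hn
    have h3 : l n ≤ x := hn
    linarith [hl n, not_lt.1 hx]

/-- the counting function -/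
theorem count {l : ℕ → ℝ} (hl : ∀ n, 1 ≤ l n) (hsum : Summable fun n => (l n) ^ (-2 : ℝ)) {ρ : ℝ} {G : ℂ → ℂ}
    {θ : ℝ} (hθ : 0 < θ) (hθ1 : θ < 1) (hd : DifferentiableOn ℂ G {s | θ < s.re})
    (hgr : ∀ σ ε : ℝ, θ < σ → 0 < ε → ∃ C : ℝ, ∀ s : ℂ, σ ≤ s.re → ‖G s‖ ≤ C * (|s.im| + 3) ^ ε)
    (hG : ∀ t : ℝ, G (((2 : ℝ) : ℂ) + t * I) = (∑' n, (l n : ℂ) ^ (-(((2 : ℝ) : ℂ) + t * I))) -
      ρ * ((((2 : ℝ) : ℂ) + t * I) / ((((2 : ℝ) : ℂ) + t * I) - 1))) {ε : ℝ} (hε : 0 < ε) :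
    ∃ C : ℝ, ∀ x : ℝ, 1 ≤ x → |({n | l n ≤ x}.ncard : ℝ) - ρ * x| ≤ C * x ^ (θ + ε) := by
  -- reduction to small exponents
  wlog hbig : θ + ε < 1 generalizing ε with H
  · push Not at hbig
    obtain ⟨C, hC⟩ := H (ε := (1 - θ) / 2) (by linarith) (by linarith)
    refine ⟨C, fun x hx => (hC x hx).trans ?_⟩
    have h0 : 0 < x ^ (θ + (1 - θ) / 2) := Real.rpow_pos_of_pos (by linarith) _
    have hC0 : 0 ≤ C := by
      have h1 := (abs_nonneg _).trans (hC x hx)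
      by_contra h2
      push Not at h2
      nlinarith
    exact mul_le_mul_of_nonneg_left (Real.rpow_le_rpow_of_exponent_le hx (by linarith)) hC0
  obtain ⟨C, hC⟩ := diff_bd hθ hε hbig hd hgr
  have hR := fun {x : ℝ} (hx : 1 ≤ x) => riesz hl hsum hG hx
  set E : ℝ → ℂ := fun x => ∫ t : ℝ, hh G x (((2 : ℝ) : ℂ) + t * I) with hE
  have hkey : ∀ x : ℝ, 1 ≤ x → HasSum (fun n => max (x + 1 - l n) 0 - max (x - l n) 0)
      (ρ * (x + 1 / 2) + (1 / (2 * Real.pi) * (E (x + 1) - E x)).re) := by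
    intro x hx
    have h1 := (hR (x := x + 1) (by linarith)).sub (hR hx)
    have h2 := Complex.hasSum_re h1
    have e : (ρ * ((((x + 1) ^ 2 - 1) / 2 : ℝ) : ℂ) + 1 / (2 * Real.pi) * E (x + 1) -
          (ρ * (((x ^ 2 - 1) / 2 : ℝ) : ℂ) + 1 / (2 * Real.pi) * E x)) =
          ((ρ * (x + 1 / 2) : ℝ) : ℂ) + 1 / (2 * Real.pi) * (E (x + 1) - E x) := by
      push_cast
      ring
    have e4 : ρ * (x + 1 / 2) + (1 / (2 * Real.pi) * (E (x + 1) - E x)).re =
        (ρ * ((((x + 1) ^ 2 - 1) / 2 : ℝ) : ℂ) + 1 / (2 * Real.pi) * E (x + 1) -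
          (ρ * (((x ^ 2 - 1) / 2 : ℝ) : ℂ) + 1 / (2 * Real.pi) * E x)).re := by
      rw [e, Complex.add_re, Complex.ofReal_re]
    rw [e4]
    exact h2
  have hEb : ∀ x : ℝ, 1 ≤ x → |(1 / (2 * Real.pi) * (E (x + 1) - E x)).re| ≤ C * x ^ (θ + ε) := by
    intro x hx
    refine (Complex.abs_re_le_norm _).trans ?_
    rw [norm_mul]
    have hn : ‖(1 / (2 * Real.pi) : ℂ)‖ ≤ 1 := by
      rw [norm_div, norm_mul, Complex.norm_real, Real.norm_of_nonneg Real.pi_pos.le]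
      simp only [norm_one, RCLike.norm_ofNat]
      rw [div_le_one (by positivity)]
      linarith [Real.pi_gt_three]
    calc ‖(1 / (2 * Real.pi) : ℂ)‖ * ‖E (x + 1) - E x‖ ≤ 1 * ‖E (x + 1) - E x‖ :=
          mul_le_mul_of_nonneg_right hn (norm_nonneg _)
      _ ≤ C * x ^ (θ + ε) := by rw [one_mul]; exact hC x hx
  have hcnt : ∀ x : ℝ, HasSum (fun n => if l n ≤ x then (1 : ℝ) else 0) ({n | l n ≤ x}.ncard : ℝ) := by
    intro x
    have hf := fin_le hl hsum x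
    have h1 : HasSum (fun n => if l n ≤ x then (1 : ℝ) else 0) (∑ n ∈ hf.toFinset, if l n ≤ x then (1 : ℝ) else 0) :=
      hasSum_sum_of_ne_finset_zero (fun n hn => by
        rw [Set.Finite.mem_toFinset] at hn
        exact if_neg hn)
    have h2 : (∑ n ∈ hf.toFinset, if l n ≤ x then (1 : ℝ) else 0) = ({n | l n ≤ x}.ncard : ℝ) := by
      rw [Set.ncard_eq_toFinset_card _ hf, Finset.sum_congr rfl (fun n hn => by
        rw [Set.Finite.mem_toFinset] at hn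
        exact if_pos hn : ∀ n ∈ hf.toFinset, (if l n ≤ x then (1 : ℝ) else 0) = 1)]
      simp
    rw [← h2]
    exact h1
  have hup : ∀ x : ℝ, 1 ≤ x → ({n | l n ≤ x}.ncard : ℝ) ≤ ρ * (x + 1 / 2) + C * x ^ (θ + ε) := by
    intro x hx
    have h1 := hasSum_le (fun n => (by
      split_ifs with h
      · rw [max_eq_left (by linarith), max_eq_left (by linarith)]
        linarith
      · exact sub_nonneg.2 (max_le_max (by linarith) le_rfl) :
      (if l n ≤ x then (1 : ℝ) else 0) ≤ max (x + 1 - l n) 0 - max (x - l n) 0)) (hcnt x) (hkey x hx)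
    have h2 := (abs_le.1 (hEb x hx)).2
    linarith
  have hlow : ∀ x : ℝ, 2 ≤ x → ρ * (x - 1 / 2) - C * x ^ (θ + ε) ≤ ({n | l n ≤ x}.ncard : ℝ) := by
    intro x hx
    have hk := hkey (x - 1) (by linarith)
    have h1 := hasSum_le (fun n => (by
      split_ifs with h
      · rcases le_total (l n) (x - 1) with h' | h'
        · rw [max_eq_left (by linarith), max_eq_left (by linarith)]
          linarith
        · rw [max_eq_left (by linarith), max_eq_right (by linarith)]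
          linarith
      · push Not at h
        rw [max_eq_right (by linarith), max_eq_right (by linarith)]
        simp :
      max (x - 1 + 1 - l n) 0 - max (x - 1 - l n) 0 ≤ (if l n ≤ x then (1 : ℝ) else 0))) hk (hcnt x)
    have h2 := (abs_le.1 (hEb (x - 1) (by linarith))).1
    have hC0 : 0 ≤ C := by
      have h3 := (abs_nonneg _).trans (hEb 1 le_rfl)
      rw [Real.one_rpow, mul_one] at h3
      exact h3
    have h4 : C * (x - 1) ^ (θ + ε) ≤ C * x ^ (θ + ε) :=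
      mul_le_mul_of_nonneg_left (Real.rpow_le_rpow (by linarith) (by linarith) (by linarith)) hC0
    have h5 : x - 1 + 1 = x := by ring
    rw [h5] at h1 h2
    nlinarith
  -- final bound
  have hC0 : 0 ≤ C := by
    have h3 := (abs_nonneg _).trans (hEb 1 le_rfl)
    rw [Real.one_rpow, mul_one] at h3
    exact h3
  refine ⟨C + 2 * |ρ| + ({n | l n ≤ 2}.ncard : ℝ), fun x hx => ?_⟩
  have hp1 : 1 ≤ x ^ (θ + ε) := Real.one_le_rpow hx (by linarith)
  have hN2 : (0 : ℝ) ≤ ({n | l n ≤ 2}.ncard : ℝ) := Nat.cast_nonneg _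
  have hr1 := le_abs_self ρ
  have hr2 := neg_abs_le ρ
  have hr0 := abs_nonneg ρ
  have hexp : (C + 2 * |ρ| + ({n | l n ≤ 2}.ncard : ℝ)) * x ^ (θ + ε) =
    C * x ^ (θ + ε) + 2 * |ρ| * x ^ (θ + ε) + ({n | l n ≤ 2}.ncard : ℝ) * x ^ (θ + ε) := by ring
  have hq1 : 2 * |ρ| ≤ 2 * |ρ| * x ^ (θ + ε) := le_mul_of_one_le_right (by positivity) hp1
  have hq2 : ({n | l n ≤ 2}.ncard : ℝ) ≤ ({n | l n ≤ 2}.ncard : ℝ) * x ^ (θ + ε) :=
    le_mul_of_one_le_right hN2 hp1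
  have hq3 : 0 ≤ C * x ^ (θ + ε) := by positivity
  rw [hexp, abs_le]
  constructor
  · rcases le_total 2 x with h | h
    · have := hlow x h
      nlinarith
    · have h6 : (0 : ℝ) ≤ ({n | l n ≤ x}.ncard : ℝ) := Nat.cast_nonneg _
      have h7 : ρ * x ≤ 2 * |ρ| := by nlinarith
      linarith
  · have := hup x hx
    nlinarith

end Pool.Agent.H49.BP
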