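import Mathlib

/-!
# Generalised integers and the Euler product
-/

set_option autoImplicit false

open Filter Topology Set Complex

namespace Pool.Agent.H49.BP

/-- The generalised integer with the index `n ≥ 1`: the product of `q (k - 1)` over the prime factors of `n`, with
multiplicity, where the prime factor is the `k`-th prime number. -/
noncomputable def gint (q : ℕ → ℝ) (n : ℕ) : ℝ :=
  (n.primeFactorsList.map fun p => q (Nat.primeCounting' p)).prod

theorem gint_one (q : ℕ → ℝ) : gint q 1 = 1 := by simp [gint]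

theorem gint_mul (q : ℕ → ℝ) {m n : ℕ} (hm : m ≠ 0) (hn : n ≠ 0) : gint q (m * n) = gint q m * gint q n := by
  unfold gint
  rw [← List.prod_append, ← List.map_append]
  exact ((Nat.perm_primeFactorsList_mul hm hn).map _).prod_eq

theorem gint_prime (q : ℕ → ℝ) {p : ℕ} (hp : p.Prime) : gint q p = q (Nat.primeCounting' p) := by
  unfold gint
  rw [Nat.primeFactorsList_prime hp]
  simp

theorem one_le_gint {q : ℕ → ℝ} (hq1 : ∀ j, 1 < q j) (n : ℕ) : 1 ≤ gint q n := by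
  unfold gint
  have h : ∀ l : List ℕ, 1 ≤ (l.map fun p => q (Nat.primeCounting' p)).prod := by
    intro l
    induction l with
    | nil => simp
    | cons a l ih =>
      rw [List.map_cons, List.prod_cons]
      exact one_le_mul_of_one_le_of_one_le (hq1 _).le ih
  exact h _

/-- the primes and the indices -/
noncomputable def pe : Nat.Primes ≃ ℕ where
  toFun p := Nat.primeCounting' p
  invFun j := ⟨Nat.nth Nat.Prime j, Nat.prime_nth_prime j⟩
  left_inv p := by
    apply Subtype.ext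
    show Nat.nth Nat.Prime (Nat.primeCounting' p) = p
    unfold Nat.primeCounting'
    exact Nat.nth_count p.2
  right_inv j := by
    show Nat.primeCounting' (Nat.nth Nat.Prime j) = j
    exact Nat.primeCounting'_nth_eq j

/-- the real homomorphism -/
noncomputable def rh (q : ℕ → ℝ) (hq1 : ∀ j, 1 < q j) (σ : ℝ) : ℕ →*₀ ℝ where
  toFun n := if n = 0 then 0 else (gint q n) ^ (-σ)
  map_zero' := by simp
  map_one' := by simp [gint_one]
  map_mul' m n := by
    by_cases hm : m = 0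
    · simp [hm]
    by_cases hn : n = 0
    · simp [hn]
    rw [if_neg hm, if_neg hn, if_neg (mul_ne_zero hm hn), gint_mul q hm hn,
      Real.mul_rpow (by linarith [one_le_gint hq1 m]) (by linarith [one_le_gint hq1 n])]

theorem summable_q {q : ℕ → ℝ} (hq1 : ∀ j, 1 < q j) (hg : ∀ j : ℕ, (j : ℝ) + 1 ≤ q j) {σ : ℝ} (hσ : 1 < σ) :
    Summable fun j => (q j) ^ (-σ) := by
  have h1 : Summable fun j : ℕ => ((j : ℝ) + 1) ^ (-σ) := by
    have := (summable_nat_add_iff 1).2 (Real.summable_nat_rpow.2 (by linarith : -σ < -1))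
    simpa using this
  refine Summable.of_nonneg_of_le (fun j => Real.rpow_nonneg (by linarith [hq1 j]) _) (fun j => ?_) h1
  exact Real.rpow_le_rpow_of_nonpos (by positivity) (hg j) (by linarith)

theorem rh_nonneg (q : ℕ → ℝ) (hq1 : ∀ j, 1 < q j) (σ : ℝ) (n : ℕ) : 0 ≤ rh q hq1 σ n := by
  show 0 ≤ if n = 0 then 0 else (gint q n) ^ (-σ)
  split_ifs
  · exact le_rfl
  · exact Real.rpow_nonneg (by linarith [one_le_gint hq1 n]) _

theorem rh_prime (q : ℕ → ℝ) (hq1 : ∀ j, 1 < q j) (σ : ℝ) {p : ℕ} (hp : p.Prime) :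
    rh q hq1 σ p = (q (Nat.primeCounting' p)) ^ (-σ) := by
  show (if p = 0 then 0 else (gint q p) ^ (-σ)) = _
  rw [if_neg hp.ne_zero, gint_prime q hp]

theorem summable_rh {q : ℕ → ℝ} (hq : StrictMono q) (hq1 : ∀ j, 1 < q j) (hg : ∀ j : ℕ, (j : ℝ) + 1 ≤ q j) {σ : ℝ}
    (hσ : 1 < σ) : Summable fun n => rh q hq1 σ n := by
  have hq0 := hq1 0
  set z0 := (q 0) ^ (-σ) with hz0
  have hz01 : z0 < 1 := Real.rpow_lt_one_of_one_lt_of_neg hq0 (by linarith)
  have hz00 : 0 ≤ z0 := Real.rpow_nonneg (by linarith) _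
  set K := (1 - z0)⁻¹ with hK
  have hK0 : 0 < K := inv_pos.2 (by linarith)
  have hz : ∀ j, (q j) ^ (-σ) ≤ z0 := fun j =>
    Real.rpow_le_rpow_of_nonpos (by linarith) (hq.monotone (Nat.zero_le j)) (by linarith)
  have hznn : ∀ j, 0 ≤ (q j) ^ (-σ) := fun j => Real.rpow_nonneg (by linarith [hq1 j]) _
  have hsq := summable_q hq1 hg hσ
  refine summable_of_sum_le (c := Real.exp (K * ∑' j, (q j) ^ (-σ))) (fun n => rh_nonneg q hq1 σ n) fun u => ?_
  set N := u.sup id + 1 with hN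
  have hprod := EulerProduct.summable_and_hasSum_smoothNumbers_prod_primesBelow_geometric
    (f := (rh q hq1 σ : ℕ →* ℝ)) (fun {p} hp => by
      show ‖rh q hq1 σ p‖ < 1
      rw [rh_prime q hq1 σ hp, Real.norm_of_nonneg (hznn _)]
      exact lt_of_le_of_lt (hz _) hz01) N
  have h1 : ∑ n ∈ u, rh q hq1 σ n ≤ ∏ p ∈ N.primesBelow, (1 - rh q hq1 σ p)⁻¹ := by
    have h2 : HasSum (indicator (N.smoothNumbers) fun n => rh q hq1 σ n) (∏ p ∈ N.primesBelow, (1 - rh q hq1 σ p)⁻¹) :=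
      hasSum_subtype_iff_indicator.1 hprod.2
    have h3 : ∑ n ∈ u, rh q hq1 σ n = ∑ n ∈ u, indicator (N.smoothNumbers) (fun n => rh q hq1 σ n) n := by
      refine Finset.sum_congr rfl fun n hn => ?_
      rcases Nat.eq_zero_or_pos n with h | h
      · subst h
        rw [indicator_of_notMem]
        · exact (rh q hq1 σ).map_zero
        · intro h4
          exact Nat.ne_zero_of_mem_smoothNumbers h4 rfl
      · rw [indicator_of_mem]
        refine Nat.mem_smoothNumbers_of_lt h ?_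
        have : id n ≤ u.sup id := Finset.le_sup hn
        simp only [id] at this
        omega
    rw [h3]
    refine sum_le_hasSum u (fun n _ => ?_) h2
    exact indicator_nonneg (fun n _ => rh_nonneg q hq1 σ n) n
  refine h1.trans ?_
  calc ∏ p ∈ N.primesBelow, (1 - rh q hq1 σ p)⁻¹
      ≤ ∏ p ∈ N.primesBelow, Real.exp (K * (q (Nat.primeCounting' p)) ^ (-σ)) := by
        refine Finset.prod_le_prod (fun p hp => ?_) (fun p hp => ?_)
        · rw [rh_prime q hq1 σ (Nat.prime_of_mem_primesBelow hp)]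
          have := hz (Nat.primeCounting' p)
          exact inv_nonneg.2 (by linarith)
        · rw [rh_prime q hq1 σ (Nat.prime_of_mem_primesBelow hp)]
          set z := (q (Nat.primeCounting' p)) ^ (-σ) with hzz
          have hz1 : z ≤ z0 := hz _
          have hzn : 0 ≤ z := hznn _
          have hlt : 0 < 1 - z := by linarith
          have e : (1 - z)⁻¹ = 1 + z * (1 - z)⁻¹ := by field_simp; ring
          have h5 : (1 - z)⁻¹ ≤ K := inv_anti₀ (by linarith) (by linarith)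
          have h6 : z * (1 - z)⁻¹ ≤ K * z := by
            rw [mul_comm]
            exact mul_le_mul_of_nonneg_right h5 hzn
          calc (1 - z)⁻¹ = z * (1 - z)⁻¹ + 1 := by rw [add_comm]; exact e
            _ ≤ Real.exp (z * (1 - z)⁻¹) := Real.add_one_le_exp _
            _ ≤ Real.exp (K * z) := Real.exp_le_exp.2 h6
    _ = Real.exp (K * ∑ p ∈ N.primesBelow, (q (Nat.primeCounting' p)) ^ (-σ)) := by
        rw [← Real.exp_sum, Finset.mul_sum]
    _ ≤ Real.exp (K * ∑' j, (q j) ^ (-σ)) := by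
        refine Real.exp_le_exp.2 (mul_le_mul_of_nonneg_left ?_ hK0.le)
        have hinj : Set.InjOn Nat.primeCounting' (N.primesBelow : Set ℕ) := by
          intro a ha b hb hab
          have ha' := Nat.prime_of_mem_primesBelow (Finset.mem_coe.1 ha)
          have hb' := Nat.prime_of_mem_primesBelow (Finset.mem_coe.1 hb)
          have h7 : pe ⟨a, ha'⟩ = pe ⟨b, hb'⟩ := hab
          have h8 := pe.injective h7
          exact congrArg Subtype.val h8
        have h9 : ∑ p ∈ N.primesBelow, (q (Nat.primeCounting' p)) ^ (-σ) =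
            ∑ j ∈ N.primesBelow.image Nat.primeCounting', (q j) ^ (-σ) := by
          rw [Finset.sum_image hinj]
        rw [h9]
        exact hsq.sum_le_tsum _ fun j _ => hznn j

/-- the complex homomorphism -/
noncomputable def ch (q : ℕ → ℝ) (hq1 : ∀ j, 1 < q j) (s : ℂ) : ℕ →*₀ ℂ where
  toFun n := if n = 0 then 0 else ((gint q n : ℝ) : ℂ) ^ (-s)
  map_zero' := by simp
  map_one' := by simp [gint_one]
  map_mul' m n := by
    by_cases hm : m = 0
    · simp [hm]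
    by_cases hn : n = 0
    · simp [hn]
    rw [if_neg hm, if_neg hn, if_neg (mul_ne_zero hm hn), gint_mul q hm hn, Complex.ofReal_mul,
      Complex.mul_cpow_ofReal_nonneg (by linarith [one_le_gint hq1 m]) (by linarith [one_le_gint hq1 n])]

theorem ch_norm (q : ℕ → ℝ) (hq1 : ∀ j, 1 < q j) (s : ℂ) (n : ℕ) : ‖ch q hq1 s n‖ = rh q hq1 s.re n := by
  show ‖if n = 0 then 0 else ((gint q n : ℝ) : ℂ) ^ (-s)‖ = if n = 0 then 0 else (gint q n) ^ (-s.re)
  split_ifs
  · simp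
  · rw [Complex.norm_cpow_eq_rpow_re_of_pos (by linarith [one_le_gint hq1 n]), Complex.neg_re]

theorem summable_gint {q : ℕ → ℝ} (hq : StrictMono q) (hq1 : ∀ j, 1 < q j) (hg : ∀ j : ℕ, (j : ℝ) + 1 ≤ q j) {σ : ℝ}
    (hσ : 1 < σ) : Summable fun n => (gint q (n + 1)) ^ (-σ) := by
  have h1 := (summable_nat_add_iff 1).2 (summable_rh hq hq1 hg hσ)
  refine h1.congr fun n => ?_
  show (if n + 1 = 0 then 0 else (gint q (n + 1)) ^ (-σ)) = _
  rw [if_neg (Nat.succ_ne_zero n)]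

theorem euler {q : ℕ → ℝ} (hq : StrictMono q) (hq1 : ∀ j, 1 < q j) (hg : ∀ j : ℕ, (j : ℝ) + 1 ≤ q j) {s : ℂ}
    (hs : 1 < s.re) : ∑' n : ℕ, ((gint q (n + 1) : ℝ) : ℂ) ^ (-s) =
      Complex.exp (∑' j, -Complex.log (1 - (q j : ℂ) ^ (-s))) := by
  have hsum : Summable fun n => ‖ch q hq1 s n‖ := by
    simp only [ch_norm]
    exact summable_rh hq hq1 hg hs
  have h1 := EulerProduct.exp_tsum_primes_log_eq_tsum hsum
  have h2 : ∑' n, ch q hq1 s n = ∑' n : ℕ, ((gint q (n + 1) : ℝ) : ℂ) ^ (-s) := by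
    rw [hsum.of_norm.tsum_eq_zero_add, map_zero, zero_add]
    refine tsum_congr fun n => ?_
    show (if n + 1 = 0 then 0 else ((gint q (n + 1) : ℝ) : ℂ) ^ (-s)) = _
    rw [if_neg (Nat.succ_ne_zero n)]
  rw [← h2, ← h1]
  congr 1
  rw [← pe.tsum_eq]
  refine tsum_congr fun p => ?_
  have h3 : ch q hq1 s p = (q (pe p) : ℂ) ^ (-s) := by
    show (if (p : ℕ) = 0 then 0 else ((gint q p : ℝ) : ℂ) ^ (-s)) = _
    rw [if_neg p.2.ne_zero, gint_prime q p.2]
    rfl
  rw [h3]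

/-- the terms of the prime powers -/
noncomputable def ht (q : ℕ → ℝ) (j : ℕ) (s : ℂ) : ℂ := -Complex.log (1 - (q j : ℂ) ^ (-s)) - (q j : ℂ) ^ (-s)

theorem qs_norm {q : ℕ → ℝ} (hq1 : ∀ j, 1 < q j) (j : ℕ) (s : ℂ) : ‖(q j : ℂ) ^ (-s)‖ = (q j) ^ (-s.re) := by
  rw [Complex.norm_cpow_eq_rpow_re_of_pos (by linarith [hq1 j]), Complex.neg_re]

theorem qs_le {q : ℕ → ℝ} (hq : StrictMono q) (hq1 : ∀ j, 1 < q j) (j : ℕ) {s : ℂ} (hs : 1 / 2 < s.re) :
    ‖(q j : ℂ) ^ (-s)‖ ≤ (q 0) ^ (-(1 / 2 : ℝ)) := by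
  rw [qs_norm hq1]
  calc (q j) ^ (-s.re) ≤ (q 0) ^ (-s.re) :=
        Real.rpow_le_rpow_of_nonpos (by linarith [hq1 0]) (hq.monotone (Nat.zero_le j)) (by linarith)
    _ ≤ (q 0) ^ (-(1 / 2 : ℝ)) := Real.rpow_le_rpow_of_exponent_le (hq1 0).le (by linarith)

theorem z_lt {q : ℕ → ℝ} (hq1 : ∀ j, 1 < q j) : (q 0) ^ (-(1 / 2 : ℝ)) < 1 :=
  Real.rpow_lt_one_of_one_lt_of_neg (hq1 0) (by norm_num)

theorem ht_bound {q : ℕ → ℝ} (hq : StrictMono q) (hq1 : ∀ j, 1 < q j) (j : ℕ) {s : ℂ} {σ : ℝ} (hσ : 1 / 2 < σ)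
    (hs : σ ≤ s.re) : ‖ht q j s‖ ≤ (1 - (q 0) ^ (-(1 / 2 : ℝ)))⁻¹ * (q j) ^ (-(2 * σ)) := by
  unfold ht
  have h1 := qs_le hq hq1 j (s := s) (by linarith)
  have h1' := qs_norm hq1 j s
  have hz := z_lt hq1
  set z0 := (q 0) ^ (-(1 / 2 : ℝ)) with hz0
  generalize (q j : ℂ) ^ (-s) = z at *
  have h2 : ‖-z‖ < 1 := by rw [norm_neg]; linarith
  have h3 := Complex.norm_log_one_add_sub_self_le h2
  rw [norm_neg] at h3
  have e1 : -Complex.log (1 - z) - z = -(Complex.log (1 + -z) - -z) := by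
    rw [← sub_eq_add_neg]
    ring
  rw [e1, norm_neg]
  have h4 : (1 - ‖z‖)⁻¹ ≤ (1 - z0)⁻¹ := inv_anti₀ (by linarith) (by linarith)
  have h5 : ‖z‖ ^ 2 ≤ (q j) ^ (-(2 * σ)) := by
    rw [h1', ← Real.rpow_natCast, ← Real.rpow_mul (by linarith [hq1 j])]
    refine Real.rpow_le_rpow_of_exponent_le (hq1 j).le ?_
    push_cast
    linarith
  have h7 : 0 ≤ (1 - z0)⁻¹ := inv_nonneg.2 (by linarith)
  have h8 : 0 ≤ (1 - ‖z‖)⁻¹ := inv_nonneg.2 (by linarith)
  calc ‖Complex.log (1 + -z) - -z‖ ≤ ‖z‖ ^ 2 * (1 - ‖z‖)⁻¹ / 2 := h3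
    _ ≤ ‖z‖ ^ 2 * (1 - ‖z‖)⁻¹ := half_le_self (by positivity)
    _ ≤ (q j) ^ (-(2 * σ)) * (1 - z0)⁻¹ := mul_le_mul h5 h4 h8 (Real.rpow_nonneg (by linarith [hq1 j]) _)
    _ = _ := mul_comm _ _

theorem ht_diff {q : ℕ → ℝ} (hq : StrictMono q) (hq1 : ∀ j, 1 < q j) (j : ℕ) :
    DifferentiableOn ℂ (ht q j) {s | 1 / 2 < s.re} := by
  intro s hs
  apply DifferentiableAt.differentiableWithinAt
  unfold ht
  have hn0 : (q j : ℂ) ≠ 0 := by
    have : q j ≠ 0 := by linarith [hq1 j]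
    exact_mod_cast this
  have h1 : DifferentiableAt ℂ (fun s : ℂ => (q j : ℂ) ^ (-s)) s :=
    differentiableAt_id.neg.const_cpow (Or.inl hn0)
  have h2 : (1 - (q j : ℂ) ^ (-s)) ∈ Complex.slitPlane := by
    left
    have h3 := qs_le hq hq1 j (s := s) hs
    have h3' := z_lt hq1
    have h4 := Complex.abs_re_le_norm ((q j : ℂ) ^ (-s))
    have h5 := (abs_le.1 h4).2
    rw [Complex.sub_re, Complex.one_re]
    linarith
  exact ((((differentiableAt_const _).sub h1).clog h2).neg).sub h1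

/-- the contribution of the prime powers -/
theorem lgp {q : ℕ → ℝ} (hq : StrictMono q) (hq1 : ∀ j, 1 < q j) (hg : ∀ j : ℕ, (j : ℝ) + 1 ≤ q j) :
    ∃ H : ℂ → ℂ, DifferentiableOn ℂ H {s | 1 / 2 < s.re} ∧
      (∀ σ : ℝ, 1 / 2 < σ → ∃ C : ℝ, 0 ≤ C ∧ ∀ s : ℂ, σ ≤ s.re → ‖H s‖ ≤ C) ∧
      ∀ s : ℂ, 1 < s.re → ∑' j, -Complex.log (1 - (q j : ℂ) ^ (-s)) = (∑' j, (q j : ℂ) ^ (-s)) + H s := by
  set K := (1 - (q 0) ^ (-(1 / 2 : ℝ)))⁻¹ with hK
  have hK0 : 0 ≤ K := inv_nonneg.2 (by linarith [z_lt hq1])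
  have hsumm : ∀ σ : ℝ, 1 / 2 < σ → Summable fun j => K * (q j) ^ (-(2 * σ)) := fun σ hσ =>
    (summable_q hq1 hg (by linarith)).mul_left K
  refine ⟨fun s => ∑' j, ht q j s, ?_, ?_, ?_⟩
  · intro s hs
    have hs' : 1 / 2 < s.re := hs
    obtain ⟨σ, h1, h2⟩ := exists_between hs'
    have hopen : IsOpen {s : ℂ | σ < s.re} := isOpen_lt continuous_const Complex.continuous_re
    have h3 : DifferentiableOn ℂ (fun s => ∑' j, ht q j s) {s | σ < s.re} := by
      refine Complex.differentiableOn_tsum_of_summable_norm (hsumm σ h1)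
        (fun j => (ht_diff hq hq1 j).mono fun w hw => ?_) hopen fun j w hw => ?_
      · have hw' : σ < w.re := hw
        show 1 / 2 < w.re
        linarith
      · exact ht_bound hq hq1 j h1 (le_of_lt hw)
    exact (h3.differentiableAt (hopen.mem_nhds h2)).differentiableWithinAt
  · intro σ hσ
    refine ⟨∑' j, K * (q j) ^ (-(2 * σ)), tsum_nonneg fun j => ?_, fun s hs => ?_⟩
    · exact mul_nonneg hK0 (Real.rpow_nonneg (by linarith [hq1 j]) _)
    · exact tsum_of_norm_bounded (hsumm σ hσ).hasSum fun j => ht_bound hq hq1 j hσ hs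
  · intro s hs
    have hsum1 : Summable fun j => (q j : ℂ) ^ (-s) := by
      refine Summable.of_norm_bounded (summable_q hq1 hg hs) fun j => ?_
      rw [qs_norm hq1]
    have hsum2 : Summable fun j => ht q j s :=
      Summable.of_norm_bounded (hsumm (3 / 4) (by norm_num)) fun j =>
        ht_bound hq hq1 j (by norm_num) (by linarith)
    rw [← hsum1.tsum_add hsum2]
    refine tsum_congr fun j => ?_
    unfold ht
    ring

end Pool.Agent.H49.BP
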