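import Mathlib

/-!
# A choice of points that is good for countably many tests
-/

set_option autoImplicit false

open MeasureTheory Filter Topology Set
open scoped ENNReal

namespace Pool.Agent.H49.BP

theorem exp_le_quad {z : ℝ} (hz : |z| ≤ 1) : Real.exp z ≤ 1 + z + z ^ 2 := by
  have := (abs_le.1 (Real.abs_exp_sub_one_sub_id_le hz)).2
  linarith

theorem mean_exp {μ : Measure ℝ} [IsProbabilityMeasure μ] {Y : ℝ → ℝ} (hm : Measurable Y)
    (hb : ∀ x, |Y x| ≤ 1) (h0 : ∫ x, Y x ∂μ = 0) {a : ℝ} (ha : 0 ≤ a) (ha1 : a ≤ 1) (S c J : ℝ) :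
    ∫⁻ x, ENNReal.ofReal (c * Real.exp (a * (S + Y x) - a ^ 2 * (J + 1))) ∂μ ≤
      ENNReal.ofReal (c * Real.exp (a * S - a ^ 2 * J)) := by
  by_cases hc : 0 ≤ c
  swap
  · push Not at hc
    have h1 : ∀ x, ENNReal.ofReal (c * Real.exp (a * (S + Y x) - a ^ 2 * (J + 1))) = 0 := by
      intro x
      rw [ENNReal.ofReal_eq_zero]
      have := Real.exp_pos (a * (S + Y x) - a ^ 2 * (J + 1))
      nlinarith
    simp only [h1]
    simp
  have hYint : Integrable Y μ := Integrable.of_bound hm.aestronglyMeasurable 1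
    (Eventually.of_forall fun x => by rw [Real.norm_eq_abs]; exact hb x)
  have hmeas : Measurable fun x => c * Real.exp (a * (S + Y x) - a ^ 2 * (J + 1)) := by fun_prop
  have hpt : ∀ x, c * Real.exp (a * (S + Y x) - a ^ 2 * (J + 1)) ≤
      c * Real.exp (a * S - a ^ 2 * (J + 1)) * (1 + a * Y x + a ^ 2) := by
    intro x
    have h1 : |a * Y x| ≤ 1 := by
      rw [abs_mul, abs_of_nonneg ha]
      have := hb x
      nlinarith [abs_nonneg (Y x)]
    have h2 := exp_le_quad h1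
    have h3 : (a * Y x) ^ 2 ≤ a ^ 2 := by
      have h4 : (Y x) ^ 2 ≤ 1 := by
        have := (sq_le_one_iff_abs_le_one (Y x)).2 (hb x)
        exact this
      calc (a * Y x) ^ 2 = a ^ 2 * (Y x) ^ 2 := by ring
        _ ≤ a ^ 2 * 1 := mul_le_mul_of_nonneg_left h4 (sq_nonneg a)
        _ = a ^ 2 := mul_one _
    have e : a * (S + Y x) - a ^ 2 * (J + 1) = (a * S - a ^ 2 * (J + 1)) + a * Y x := by ring
    rw [e, Real.exp_add, ← mul_assoc]
    exact mul_le_mul_of_nonneg_left (by linarith) (mul_nonneg hc (Real.exp_pos _).le)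
  have hint : Integrable (fun x => c * Real.exp (a * S - a ^ 2 * (J + 1)) * (1 + a * Y x + a ^ 2)) μ := by
    refine Integrable.const_mul ?_ _
    exact ((integrable_const _).add (hYint.const_mul a)).add (integrable_const _)
  calc ∫⁻ x, ENNReal.ofReal (c * Real.exp (a * (S + Y x) - a ^ 2 * (J + 1))) ∂μ
      ≤ ∫⁻ x, ENNReal.ofReal (c * Real.exp (a * S - a ^ 2 * (J + 1)) * (1 + a * Y x + a ^ 2)) ∂μ :=
        lintegral_mono fun x => ENNReal.ofReal_le_ofReal (hpt x)
    _ = ENNReal.ofReal (∫ x, c * Real.exp (a * S - a ^ 2 * (J + 1)) * (1 + a * Y x + a ^ 2) ∂μ) := by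
        refine (ofReal_integral_eq_lintegral_ofReal hint (Eventually.of_forall fun x => ?_)).symm
        show (0 : ℝ) ≤ _
        refine le_trans ?_ (hpt x)
        exact mul_nonneg hc (Real.exp_pos _).le
    _ ≤ ENNReal.ofReal (c * Real.exp (a * S - a ^ 2 * J)) := by
        apply ENNReal.ofReal_le_ofReal
        rw [integral_const_mul]
        have h5 : ∫ x, (1 + a * Y x + a ^ 2) ∂μ = 1 + a ^ 2 := by
          have hI1 : Integrable (fun x => 1 + a * Y x) μ := (integrable_const _).add (hYint.const_mul a)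
          rw [integral_add hI1 (integrable_const _),
            integral_add (integrable_const _) (hYint.const_mul a), integral_const_mul, h0]
          simp
        rw [h5]
        have h6 : 1 + a ^ 2 ≤ Real.exp (a ^ 2) := by
          have := Real.add_one_le_exp (a ^ 2)
          linarith
        have h7 : a * S - a ^ 2 * J = (a * S - a ^ 2 * (J + 1)) + a ^ 2 := by ring
        rw [h7, Real.exp_add, ← mul_assoc]
        exact mul_le_mul_of_nonneg_left h6 (mul_nonneg hc (Real.exp_pos _).le)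

section
variable {P : Type} [Countable P] (μ : ℕ → Measure ℝ) (A : ℕ → Set ℝ) (Y : ℕ → P → ℝ → ℝ) (a v : P → ℝ)

/-- the potential -/
noncomputable def pot (a v : P → ℝ) (J : ℕ) (S : P → ℝ) : ℝ≥0∞ :=
  ∑' p, ENNReal.ofReal (v p * Real.exp (a p * S p - (a p) ^ 2 * J))

theorem step [∀ j, IsProbabilityMeasure (μ j)] (hA : ∀ j, (μ j) (A j)ᶜ = 0)
    (hYm : ∀ j p, Measurable (Y j p)) (hYb : ∀ j p x, |Y j p x| ≤ 1)
    (hY0 : ∀ j p, ∫ x, Y j p x ∂(μ j) = 0) (ha : ∀ p, 0 ≤ a p) (ha1 : ∀ p, a p ≤ 1) (J : ℕ) (S : P → ℝ) :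
    ∃ x ∈ A J, pot a v (J + 1) (fun p => S p + Y J p x) ≤ pot a v J S := by
  have hmeas : ∀ p, Measurable fun x =>
      ENNReal.ofReal (v p * Real.exp (a p * (S p + Y J p x) - (a p) ^ 2 * ((J + 1 : ℕ) : ℝ))) := by
    intro p
    have := hYm J p
    fun_prop
  obtain ⟨x, hx, hle⟩ := exists_notMem_null_le_lintegral (μ := μ J)
    (f := fun x => pot a v (J + 1) (fun p => S p + Y J p x))
    (Measurable.tsum hmeas).aemeasurable (hA J)
  refine ⟨x, by simpa using hx, hle.trans ?_⟩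
  unfold pot
  rw [lintegral_tsum fun p => (hmeas p).aemeasurable]
  refine ENNReal.tsum_le_tsum fun p => ?_
  have := mean_exp (μ := μ J) (hYm J p) (hYb J p) (hY0 J p) (ha p) (ha1 p) (S p) (v p) J
  push_cast
  exact this

/-- the greedy choice -/
theorem greedy0 [∀ j, IsProbabilityMeasure (μ j)] (hA : ∀ j, (μ j) (A j)ᶜ = 0)
    (hYm : ∀ j p, Measurable (Y j p)) (hYb : ∀ j p x, |Y j p x| ≤ 1)
    (hY0 : ∀ j p, ∫ x, Y j p x ∂(μ j) = 0) (ha : ∀ p, 0 ≤ a p) (ha1 : ∀ p, a p ≤ 1)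
    (hv : ∀ p, 0 < v p) (hvs : Summable v) :
    ∃ q : ℕ → ℝ, (∀ j, q j ∈ A j) ∧ ∀ (J : ℕ) (p : P),
      a p * ∑ j ∈ Finset.range J, Y j p (q j) ≤ (a p) ^ 2 * J + Real.log ((∑' p, v p) / v p) := by
  choose ch hch1 hch2 using step μ A Y a v hA hYm hYb hY0 ha ha1
  let SS : ℕ → P → ℝ := fun J => Nat.rec (fun _ => 0) (fun J S p => S p + Y J p (ch J S)) J
  have hS0 : SS 0 = fun _ => 0 := rfl
  have hS1 : ∀ J, SS (J + 1) = fun p => SS J p + Y J p (ch J (SS J)) := fun J => rfl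
  have hpot : ∀ J, pot a v J (SS J) ≤ ENNReal.ofReal (∑' p, v p) := by
    intro J
    induction J with
    | zero =>
      rw [hS0]
      unfold pot
      simp only [mul_zero, Nat.cast_zero, sub_zero, Real.exp_zero, mul_one]
      rw [ENNReal.ofReal_tsum_of_nonneg (fun p => (hv p).le) hvs]
    | succ J ih =>
      rw [hS1]
      exact (hch2 J (SS J)).trans ih
  refine ⟨fun j => ch j (SS j), fun j => hch1 j _, fun J p => ?_⟩
  have hsum : ∀ J p, SS J p = ∑ j ∈ Finset.range J, Y j p (ch j (SS j)) := by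
    intro J p
    induction J with
    | zero => simp [hS0]
    | succ J ih => rw [hS1, Finset.sum_range_succ, ← ih]
  rw [← hsum]
  have h1 : ENNReal.ofReal (v p * Real.exp (a p * SS J p - (a p) ^ 2 * J)) ≤ ENNReal.ofReal (∑' p, v p) :=
    (ENNReal.le_tsum p).trans (hpot J)
  have hW : 0 < ∑' p, v p := hvs.tsum_pos (fun p => (hv p).le) p (hv p)
  rw [ENNReal.ofReal_le_ofReal_iff hW.le] at h1
  have h2 : Real.exp (a p * SS J p - (a p) ^ 2 * J) ≤ (∑' p, v p) / v p := by
    rw [le_div_iff₀ (hv p)]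
    linarith
  have h3 := Real.log_le_log (Real.exp_pos _) h2
  rw [Real.log_exp] at h3
  linarith

end

end Pool.Agent.H49.BP
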