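import Pool.Agent.H49.BP.Zeta

/-!
# Sparse long gaps
-/

set_option autoImplicit false

open MeasureTheory Filter Topology Set

namespace Pool.Agent.H49.BP

section
variable (h : ℝ → ℝ)

theorem exists_hole (n : ℕ) : ∃ r : ℕ, n < r ∧ tt n + h (tt n) ≤ tt r := by
  obtain ⟨r, hr⟩ := exists_nat_gt (max (n : ℝ) (tt n + h (tt n)))
  refine ⟨r, ?_, ?_⟩
  · exact_mod_cast lt_of_le_of_lt (le_max_left _ _) hr
  · have h1 := tt_ge r
    have h2 := lt_of_le_of_lt (le_max_right _ _) hr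
    linarith

open Classical in
/-- the end of the hole that starts at the end of the slot before the slot `n` -/
noncomputable def hole (n : ℕ) : ℕ := Nat.find (exists_hole h n)

theorem hole_gt (n : ℕ) : n < hole h n := by
  classical
  exact (Nat.find_spec (exists_hole h n)).1

theorem hole_ge (n : ℕ) : tt n + h (tt n) ≤ tt (hole h n) := by
  classical
  exact (Nat.find_spec (exists_hole h n)).2

theorem hole_min (n : ℕ) : hole h n = n + 1 ∨ tt (hole h n - 1) < tt n + h (tt n) := by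
  classical
  rcases Nat.lt_or_ge (n + 1) (hole h n) with h1 | h1
  · right
    have h2 : ¬ (n < hole h n - 1 ∧ tt n + h (tt n) ≤ tt (hole h n - 1)) :=
      Nat.find_min (exists_hole h n) (show hole h n - 1 < Nat.find (exists_hole h n) by
        have : hole h n = Nat.find (exists_hole h n) := by unfold hole; congr
        omega)
    by_contra h3
    push Not at h3
    exact h2 ⟨by omega, h3⟩
  · left
    have := hole_gt h n
    omega

/-- the places of the holes -/
noncomputable def NN (n0 : ℕ) : ℕ → ℕ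
  | 0 => n0 + 2
  | k + 1 => (hole h (NN n0 k)) ^ 2 + hole h (NN n0 k) + 2

theorem NN_succ_gt (n0 k : ℕ) : hole h (NN h n0 k) + 1 < NN h n0 (k + 1) := by
  show _ < (hole h (NN h n0 k)) ^ 2 + hole h (NN h n0 k) + 2
  have := hole_gt h (NN h n0 k)
  have : 0 < hole h (NN h n0 k) := by omega
  nlinarith

theorem NN_sq (n0 k : ℕ) : (hole h (NN h n0 k)) ^ 2 ≤ NN h n0 (k + 1) := by
  show _ ≤ (hole h (NN h n0 k)) ^ 2 + hole h (NN h n0 k) + 2
  omega

theorem NN_mono (n0 : ℕ) : StrictMono (NN h n0) := by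
  refine strictMono_nat_of_lt_succ fun k => ?_
  have h1 := NN_succ_gt h n0 k
  have h2 := hole_gt h (NN h n0 k)
  omega

theorem NN_ge (n0 k : ℕ) : n0 + 2 ≤ NN h n0 k := by
  have h1 : NN h n0 0 ≤ NN h n0 k := (NN_mono h n0).monotone (Nat.zero_le k)
  exact h1

theorem NN_hole_lt (n0 : ℕ) {k k' : ℕ} (hk : k < k') : hole h (NN h n0 k) + 1 < NN h n0 k' := by
  have h1 := NN_succ_gt h n0 k
  have h2 : NN h n0 (k + 1) ≤ NN h n0 k' := (NN_mono h n0).monotone hk
  omega

/-- the moved places -/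
def EE (n0 : ℕ) (j : ℕ) : Prop := ∃ k, NN h n0 k ≤ j ∧ j < hole h (NN h n0 k)

/-- the starts -/
def SS (n0 : ℕ) (j : ℕ) : Prop := ∃ k, j + 1 = NN h n0 k

theorem EE_unique (n0 : ℕ) {j k k' : ℕ} (h1 : NN h n0 k ≤ j) (h2 : j < hole h (NN h n0 k))
    (h1' : NN h n0 k' ≤ j) (h2' : j < hole h (NN h n0 k')) : k = k' := by
  rcases lt_trichotomy k k' with h3 | h3 | h3
  · have := NN_hole_lt h n0 h3
    omega
  · exact h3
  · have := NN_hole_lt h n0 h3
    omega

theorem SS_not_EE (n0 : ℕ) {j : ℕ} (hs : SS h n0 j) : ¬ EE h n0 j := by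
  rintro ⟨k, h1, h2⟩
  obtain ⟨k', hk'⟩ := hs
  rcases Nat.lt_or_ge k k' with h3 | h3
  · have := NN_hole_lt h n0 h3
    omega
  · have : NN h n0 k' ≤ NN h n0 k := (NN_mono h n0).monotone h3
    omega

open Classical in
/-- the system with the holes -/
noncomputable def qq (n0 : ℕ) (q' : ℕ → ℝ) (j : ℕ) : ℝ :=
  if SS h n0 j then tt (j + 1)
  else if h2 : EE h n0 j then tt (hole h (NN h n0 h2.choose)) -
    ((hole h (NN h n0 h2.choose) : ℝ) - j) / (2 * (hole h (NN h n0 h2.choose) : ℝ))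
  else q' j

theorem qq_SS (n0 : ℕ) (q' : ℕ → ℝ) {j : ℕ} (hs : SS h n0 j) : qq h n0 q' j = tt (j + 1) := by
  unfold qq
  rw [if_pos hs]

theorem qq_EE (n0 : ℕ) (q' : ℕ → ℝ) {j k : ℕ} (h1 : NN h n0 k ≤ j) (h2 : j < hole h (NN h n0 k)) :
    qq h n0 q' j = tt (hole h (NN h n0 k)) -
      ((hole h (NN h n0 k) : ℝ) - j) / (2 * (hole h (NN h n0 k) : ℝ)) := by
  have he : EE h n0 j := ⟨k, h1, h2⟩
  have hns : ¬ SS h n0 j := fun hs => SS_not_EE h n0 hs he
  unfold qq
  rw [if_neg hns, dif_pos he]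
  have h3 := he.choose_spec
  have h4 : he.choose = k := EE_unique h n0 h3.1 h3.2 h1 h2
  rw [h4]

theorem qq_other (n0 : ℕ) (q' : ℕ → ℝ) {j : ℕ} (h1 : ¬ SS h n0 j) (h2 : ¬ EE h n0 j) : qq h n0 q' j = q' j := by
  unfold qq
  rw [if_neg h1, dif_neg h2]

theorem frac_bd {r j : ℕ} (hj : j < r) : 0 < ((r : ℝ) - j) / (2 * (r : ℝ)) ∧ ((r : ℝ) - j) / (2 * (r : ℝ)) ≤ 1 / 2 := by
  have h1 : (j : ℝ) < r := by exact_mod_cast hj
  have h2 : (0 : ℝ) ≤ j := Nat.cast_nonneg j
  have h3 : (0 : ℝ) < r := by linarith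
  refine ⟨div_pos (by linarith) (by positivity), ?_⟩
  rw [div_le_div_iff₀ (by positivity) (by norm_num)]
  linarith

theorem qq_gt (n0 : ℕ) {q' : ℕ → ℝ} (hq' : ∀ j, q' j ∈ Ioc (tt j) (tt (j + 1))) (j : ℕ) : tt j < qq h n0 q' j := by
  by_cases hs : SS h n0 j
  · rw [qq_SS h n0 q' hs]
    exact tt_mono (Nat.lt_succ_self j)
  · by_cases he : EE h n0 j
    · obtain ⟨k, h1, h2⟩ := he
      rw [qq_EE h n0 q' h1 h2]
      have h3 := (frac_bd h2).2
      have h4 := tt_diff_ge h2.le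
      have h5 : (j : ℝ) + 1 ≤ hole h (NN h n0 k) := by exact_mod_cast h2
      linarith
    · rw [qq_other h n0 q' hs he]
      exact (hq' j).1

theorem qq_le (n0 : ℕ) {q' : ℕ → ℝ} (hq' : ∀ j, q' j ∈ Ioc (tt j) (tt (j + 1))) {j : ℕ} (he : ¬ EE h n0 j) :
    qq h n0 q' j ≤ tt (j + 1) := by
  by_cases hs : SS h n0 j
  · rw [qq_SS h n0 q' hs]
  · rw [qq_other h n0 q' hs he]
    exact (hq' j).2

theorem qq_step (n0 : ℕ) (q' : ℕ → ℝ) {j k : ℕ} (h1 : NN h n0 k ≤ j) (h2 : j + 1 < hole h (NN h n0 k)) :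
    qq h n0 q' (j + 1) - qq h n0 q' j = 1 / (2 * (hole h (NN h n0 k) : ℝ)) := by
  rw [qq_EE h n0 q' h1 (by omega), qq_EE h n0 q' (by omega) h2]
  push_cast
  ring

theorem qq_mono (n0 : ℕ) {q' : ℕ → ℝ} (hq' : ∀ j, q' j ∈ Ioc (tt j) (tt (j + 1))) : StrictMono (qq h n0 q') := by
  refine strictMono_nat_of_lt_succ fun j => ?_
  by_cases he : EE h n0 j
  · obtain ⟨k, h1, h2⟩ := he
    rcases Nat.lt_or_ge (j + 1) (hole h (NN h n0 k)) with h3 | h3
    · have h4 := qq_step h n0 q' h1 h3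
      have h5 : (0 : ℝ) < hole h (NN h n0 k) := by
        have : 0 < hole h (NN h n0 k) := by omega
        exact_mod_cast this
      have h6 : 0 < 1 / (2 * (hole h (NN h n0 k) : ℝ)) := by positivity
      linarith
    · have h4 : j + 1 = hole h (NN h n0 k) := by omega
      have h5 := qq_gt h n0 hq' (j + 1)
      rw [qq_EE h n0 q' h1 h2]
      have h6 := (frac_bd h2).1
      rw [h4] at h5 ⊢
      linarith
  · exact lt_of_le_of_lt (qq_le h n0 hq' he) (qq_gt h n0 hq' (j + 1))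

theorem qq_ge (n0 : ℕ) {q' : ℕ → ℝ} (hq' : ∀ j, q' j ∈ Ioc (tt j) (tt (j + 1))) (j : ℕ) :
    (j : ℝ) + 1 ≤ qq h n0 q' j := (tt_ge j).trans (qq_gt h n0 hq' j).le

theorem qq_zero (n0 : ℕ) {q' : ℕ → ℝ} (hq' : ∀ j, q' j ∈ Ioc (tt j) (tt (j + 1))) : 1 < qq h n0 q' 0 := by
  have := qq_gt h n0 hq' 0
  rwa [tt_zero] at this

/-- the length of a block -/
theorem hole_len {A : ℝ} (hA : 0 ≤ A) {n : ℕ} (hn : 1 ≤ n) (hb : h (tt n) ≤ A * √(tt n) * Real.log (tt n)) :
    ((hole h n : ℝ) - n) ≤ A * √(tt n) + 1 := by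
  have ht := tt_two hn
  have hl : 0 < Real.log (tt n) := log_pos' (by linarith)
  have hA' : 0 ≤ A * √(tt n) := by positivity
  rcases hole_min h n with h1 | h1
  · rw [h1]
    push_cast
    linarith
  · have hgt := hole_gt h n
    have h2 : tt n ≤ tt (hole h n - 1) := tt_mono.monotone (by omega)
    have h3 := MM_inc_le (a := tt n) (b := tt (hole h n - 1)) (by linarith) h2
    rw [MM_tt, MM_tt] at h3
    have h4 : ((hole h n - 1 : ℕ) : ℝ) = (hole h n : ℝ) - 1 := by
      rw [Nat.cast_sub (by omega)]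
      simp
    rw [h4] at h3
    have h5 : (tt (hole h n - 1) - tt n) / Real.log (tt n) ≤ A * √(tt n) := by
      rw [div_le_iff₀ hl]
      linarith
    linarith

/-- the exceptional places before `J` -/
theorem exc_card {A : ℝ} (hA : 0 ≤ A) {n0 : ℕ} (hb : ∀ n, n0 ≤ n → h (tt n) ≤ A * √(tt n) * Real.log (tt n)) (J : ℕ) :
    ∃ E : Finset ℕ, (∀ j, j < J → (SS h n0 j ∨ EE h n0 j) → j ∈ E) ∧ (E.card : ℝ) ≤ (A + 4) * √(tt J) := by
  classical
  have hsq1 : 1 ≤ √(tt J) := Real.one_le_sqrt.2 (tt_one_le J)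
  have hex : ∃ K, J < NN h n0 K := by
    refine ⟨J + 1, ?_⟩
    have := (NN_mono h n0).le_apply (x := J + 1)
    omega
  set K := Nat.find hex with hK
  have hK1 : J < NN h n0 K := Nat.find_spec hex
  have hK2 : ∀ k, k < K → NN h n0 k ≤ J := fun k hk => by
    have := Nat.find_min hex hk
    push Not at this
    exact this
  rcases Nat.eq_zero_or_pos K with h0 | h0
  · refine ⟨∅, fun j hj hor => ?_, by simp; positivity⟩
    exfalso
    rw [h0] at hK1
    rcases hor with ⟨k, hk⟩ | ⟨k, hk, _⟩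
    · have : NN h n0 0 ≤ NN h n0 k := (NN_mono h n0).monotone (Nat.zero_le k)
      omega
    · have : NN h n0 0 ≤ NN h n0 k := (NN_mono h n0).monotone (Nat.zero_le k)
      omega
  · obtain ⟨k, hkk⟩ : ∃ k, K = k + 1 := ⟨K - 1, by omega⟩
    have hk := hK2 k (by omega)
    rw [hkk] at hK1
    set n := NN h n0 k with hn
    have hn2 : n0 + 2 ≤ n := NN_ge h n0 k
    refine ⟨Finset.range (Nat.sqrt J + 1) ∪ Finset.Ico (n - 1) (hole h n), ?_, ?_⟩
    · intro j hj hor
      -- the block of `j`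
      have hblock : ∃ k', NN h n0 k' - 1 ≤ j ∧ j < hole h (NN h n0 k') ∧ NN h n0 k' ≤ J := by
        rcases hor with ⟨k', hk'⟩ | ⟨k', hk1, hk2⟩
        · refine ⟨k', by omega, ?_, by omega⟩
          have := hole_gt h (NN h n0 k')
          omega
        · exact ⟨k', by omega, hk2, by omega⟩
      obtain ⟨k', h1, h2, h3⟩ := hblock
      have h4 : k' < k + 1 := by
        by_contra h5
        push Not at h5
        have : NN h n0 (k + 1) ≤ NN h n0 k' := (NN_mono h n0).monotone h5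
        omega
      rw [Finset.mem_union]
      rcases Nat.lt_or_ge k' k with h5 | h5
      · left
        rw [Finset.mem_range]
        have h6 := NN_sq h n0 k'
        have h7 : NN h n0 (k' + 1) ≤ NN h n0 k := (NN_mono h n0).monotone h5
        have h8 : j ≤ Nat.sqrt J := by
          rw [Nat.le_sqrt']
          have : j ^ 2 ≤ (hole h (NN h n0 k')) ^ 2 := Nat.pow_le_pow_left h2.le 2
          omega
        omega
      · right
        have h6 : k' = k := by omega
        rw [h6] at h1 h2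
        rw [Finset.mem_Ico]
        exact ⟨h1, h2⟩
    · have h1 : ((Finset.range (Nat.sqrt J + 1) ∪ Finset.Ico (n - 1) (hole h n)).card : ℝ) ≤
          (Nat.sqrt J + 1 : ℝ) + ((hole h n : ℝ) - n + 1) := by
        have h2 := Finset.card_union_le (Finset.range (Nat.sqrt J + 1)) (Finset.Ico (n - 1) (hole h n))
        rw [Finset.card_range, Nat.card_Ico] at h2
        have h3 : ((hole h n - (n - 1) : ℕ) : ℝ) = (hole h n : ℝ) - n + 1 := by
          have hgt := hole_gt h n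
          rw [Nat.cast_sub (by omega), Nat.cast_sub (by omega)]
          push_cast
          ring
        have h4 : ((Finset.range (Nat.sqrt J + 1) ∪ Finset.Ico (n - 1) (hole h n)).card : ℝ) ≤
            ((Nat.sqrt J + 1 + (hole h n - (n - 1)) : ℕ) : ℝ) := by exact_mod_cast h2
        rw [Nat.cast_add, h3] at h4
        push_cast at h4
        exact h4
      have h5 := hole_len h hA (n := n) (by omega) (hb n (by omega))
      have h6 : √(tt n) ≤ √(tt J) := Real.sqrt_le_sqrt (tt_mono.monotone hk)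
      have h7 : (Nat.sqrt J : ℝ) ≤ √(tt J) := by
        refine (Real.nat_sqrt_le_real_sqrt).trans (Real.sqrt_le_sqrt ?_)
        have := tt_ge J
        linarith
      have h8 := mul_le_mul_of_nonneg_left h6 hA
      linarith
end

end Pool.Agent.H49.BP
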