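import Mathlib

/-!
# Two Mellin transforms and their inversion
-/

set_option autoImplicit false

open Complex MeasureTheory Filter Topology Set

namespace Pool.Agent.H49.BP

/-- the weight of the first Riesz mean -/
noncomputable def ff (u : ℝ) : ℂ := ((max (1 - u) 0 : ℝ) : ℂ)

/-- the weight of the reference system -/
noncomputable def fg (u : ℝ) : ℂ := ((max (u⁻¹ - u) 0 / 2 : ℝ) : ℂ)

theorem ff_cont : Continuous ff := by unfold ff; fun_prop

theorem fg_cont {u : ℝ} (hu : 0 < u) : ContinuousAt fg u := by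
  unfold fg
  have h1 : ContinuousAt (fun u : ℝ => u⁻¹) u := continuousAt_inv₀ hu.ne'
  have h2 : ContinuousAt (fun u : ℝ => max (u⁻¹ - u) 0 / 2) u := by
    have h3 : ContinuousAt (fun u : ℝ => u⁻¹ - u) u := h1.sub continuousAt_id
    have h4 : ContinuousAt (fun u : ℝ => max (u⁻¹ - u) 0) u := h3.max continuousAt_const
    exact h4.div_const 2
  exact Complex.continuous_ofReal.continuousAt.comp h2

theorem ff_eq {u : ℝ} (hu : 0 < u) : ff u =
    indicator (Ioc 0 1) (fun _ => 1 : ℝ → ℂ) u - indicator (Ioc 0 1) (fun t => (t : ℂ) ^ (1 : ℂ) : ℝ → ℂ) u := by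
  unfold ff
  by_cases h : u ≤ 1
  · rw [indicator_of_mem (show u ∈ Ioc (0 : ℝ) 1 from ⟨hu, h⟩), indicator_of_mem (show u ∈ Ioc (0 : ℝ) 1 from ⟨hu, h⟩),
      max_eq_left (by linarith), cpow_one]
    push_cast; ring
  · rw [indicator_of_notMem (by simp [h]), indicator_of_notMem (by simp [h]),
      max_eq_right (by push Not at h; linarith)]
    simp

theorem fg_eq {u : ℝ} (hu : 0 < u) : fg u =
    (2⁻¹ : ℂ) • (indicator (Ioc 0 1) (fun t => (t : ℂ) ^ (-1 : ℂ) : ℝ → ℂ) u -
      indicator (Ioc 0 1) (fun t => (t : ℂ) ^ (1 : ℂ) : ℝ → ℂ) u) := by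
  unfold fg
  by_cases h : u ≤ 1
  · have h1 : 1 ≤ u⁻¹ := (one_le_inv₀ hu).2 h
    rw [indicator_of_mem (show u ∈ Ioc (0 : ℝ) 1 from ⟨hu, h⟩), indicator_of_mem (show u ∈ Ioc (0 : ℝ) 1 from ⟨hu, h⟩),
      max_eq_left (by linarith), cpow_one, cpow_neg_one]
    push_cast
    rw [smul_eq_mul]
    ring
  · push Not at h
    have h1 : u⁻¹ ≤ 1 := inv_le_one_of_one_le₀ h.le
    rw [indicator_of_notMem (by simp [h]), indicator_of_notMem (by simp [h]),
      max_eq_right (by linarith)]
    simp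

theorem hasMellin_congr {f g : ℝ → ℂ} {s m : ℂ} (h : ∀ u, 0 < u → f u = g u) (hg : HasMellin g s m) :
    HasMellin f s m := by
  unfold HasMellin MellinConvergent mellin at *
  have hc : ∀ t ∈ Ioi (0 : ℝ), (t : ℂ) ^ (s - 1) • g t = (t : ℂ) ^ (s - 1) • f t := fun t ht => by
    rw [h t ht]
  refine ⟨hg.1.congr_fun hc measurableSet_Ioi, ?_⟩
  rw [← hg.2]
  exact (setIntegral_congr_fun measurableSet_Ioi hc).symm

theorem mellin_ff {s : ℂ} (hs : 0 < s.re) : HasMellin ff s (1 / (s * (s + 1))) := by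
  have h1 := hasMellin_one_Ioc hs
  have h2 := hasMellin_cpow_Ioc 1 (s := s) (by simp; linarith)
  have h3 := hasMellin_sub h1.1 h2.1
  rw [h1.2, h2.2] at h3
  have e : 1 / s - 1 / (s + 1) = 1 / (s * (s + 1)) := by
    have hs0 : s ≠ 0 := by intro h; simp [h] at hs
    have hs1 : s + 1 ≠ 0 := by
      intro h
      have := congrArg Complex.re h
      simp at this; linarith
    field_simp
    ring
  rw [e] at h3
  exact hasMellin_congr (fun u hu => ff_eq hu) h3

theorem mellin_fg {s : ℂ} (hs : 1 < s.re) : HasMellin fg s (1 / (2 * ((s - 1))) - 1 / (2 * (s + 1))) := by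
  have h1 := hasMellin_cpow_Ioc (-1) (s := s) (by simp; linarith)
  have h2 := hasMellin_cpow_Ioc 1 (s := s) (by simp; linarith)
  have h3 := hasMellin_sub h1.1 h2.1
  rw [h1.2, h2.2] at h3
  have h4 := hasMellin_const_smul h3.1 (2⁻¹ : ℂ)
  rw [h3.2] at h4
  have hs0 : s - 1 ≠ 0 := by
    intro h
    have := congrArg Complex.re h
    simp at this; linarith
  have hs1 : s + 1 ≠ 0 := by
    intro h
    have := congrArg Complex.re h
    simp at this; linarith
  have e : (2⁻¹ : ℂ) • (1 / (s + -1) - 1 / (s + 1)) = 1 / (2 * ((s - 1))) - 1 / (2 * (s + 1)) := by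
    rw [smul_eq_mul, ← sub_eq_add_neg]
    field_simp
  rw [e] at h4
  exact hasMellin_congr (fun u hu => fg_eq hu) h4

theorem fg_val {s : ℂ} (hs : 1 < s.re) :
    1 / (2 * ((s - 1))) - 1 / (2 * (s + 1)) = (s / (s - 1)) / (s * (s + 1)) := by
  have hs' : s ≠ 0 := by
    intro h
    rw [h] at hs
    simp at hs; linarith
  have hs0 : s - 1 ≠ 0 := by
    intro h
    have := congrArg Complex.re h
    simp at this; linarith
  have hs1 : s + 1 ≠ 0 := by
    intro h
    have := congrArg Complex.re h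
    simp at this; linarith
  field_simp
  ring

theorem norm_den {c t : ℝ} (hc : 1 < c) :
    1 + t ^ 2 ≤ ‖((c : ℂ) + t * I) * ((c : ℂ) + t * I + 1)‖ := by
  rw [norm_mul]
  have h1 : √(1 + t ^ 2) ≤ ‖(c : ℂ) + t * I‖ := by
    rw [Complex.norm_add_mul_I]
    exact Real.sqrt_le_sqrt (by nlinarith)
  have h2 : √(1 + t ^ 2) ≤ ‖(c : ℂ) + t * I + 1‖ := by
    have : (c : ℂ) + t * I + 1 = ((c + 1 : ℝ) : ℂ) + t * I := by push_cast; ring
    rw [this, Complex.norm_add_mul_I]
    exact Real.sqrt_le_sqrt (by nlinarith)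
  calc 1 + t ^ 2 = √(1 + t ^ 2) * √(1 + t ^ 2) := (Real.mul_self_sqrt (by positivity)).symm
    _ ≤ _ := mul_le_mul h1 h2 (Real.sqrt_nonneg _) (norm_nonneg _)

theorem den_ne {c t : ℝ} (hc : 1 < c) : ((c : ℂ) + t * I) * ((c : ℂ) + t * I + 1) ≠ 0 := by
  have h := norm_den (t := t) hc
  intro h0
  rw [h0, norm_zero] at h
  nlinarith [sq_nonneg t]

/-- on the line of real part `2` -/
theorem norm_quot (t : ℝ) : ‖((2 : ℝ) + t * I : ℂ) / (((2 : ℝ) + t * I : ℂ) - 1)‖ ≤ 2 := by
  have h0 : (1 : ℝ) ≤ ‖(((2 : ℝ) + t * I : ℂ) - 1)‖ := by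
    have h := Complex.abs_re_le_norm (((2 : ℝ) + t * I : ℂ) - 1)
    simp at h
    have e : |(2 : ℝ) - 1| = 1 := by norm_num
    rw [e] at h
    simpa using h
  rw [norm_div, div_le_iff₀ (by linarith)]
  have h1 : ‖((2 : ℝ) + t * I : ℂ)‖ ≤ ‖(((2 : ℝ) + t * I : ℂ) - 1)‖ + ‖(1 : ℂ)‖ := by
    have := norm_add_le (((2 : ℝ) + t * I : ℂ) - 1) 1
    simpa using this
  rw [norm_one] at h1
  linarith

/-- the inversion of the first transform -/
theorem inv_ff {u : ℝ} (hu : 0 < u) :
    ff u = 1 / (2 * Real.pi) * ∫ t : ℝ, (u : ℂ) ^ (-(((2 : ℝ) : ℂ) + t * I)) /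
      ((((2 : ℝ) : ℂ) + t * I) * (((2 : ℝ) : ℂ) + t * I + 1)) := by
  have hc : (1 : ℝ) < 2 := by norm_num
  have hvi : VerticalIntegrable (mellin ff) 2 := by
    unfold VerticalIntegrable
    have e : (fun t : ℝ => mellin ff (((2 : ℝ) : ℂ) + t * I)) =
          fun t : ℝ => 1 / ((((2 : ℝ) : ℂ) + t * I) * (((2 : ℝ) : ℂ) + t * I + 1)) := by
      funext t
      rw [(mellin_ff (by simp)).2]
    have hcont : Continuous fun t : ℝ => mellin ff (((2 : ℝ) : ℂ) + t * I) := by
      rw [e]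
      exact Continuous.div continuous_const (by fun_prop) fun t => den_ne hc
    refine (integrable_inv_one_add_sq).mono' hcont.aestronglyMeasurable ?_
    refine Eventually.of_forall fun t => ?_
    rw [(mellin_ff (by simp)).2, norm_div, norm_one, one_div]
    exact inv_anti₀ (by positivity) (norm_den hc)
  have h := mellinInv_mellin_eq 2 ff hu (by
    have := (mellin_ff (s := ((2 : ℝ) : ℂ)) (by simp)).1
    exact this) hvi ff_cont.continuousAt
  rw [← h]
  unfold mellinInv
  rw [Complex.real_smul]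
  congr 1
  · push_cast; rfl
  · refine integral_congr_ae (Eventually.of_forall fun t => ?_)
    simp only
    rw [(mellin_ff (by simp)).2, smul_eq_mul]
    ring

/-- the inversion of the second transform -/
theorem inv_fg {u : ℝ} (hu : 0 < u) :
    fg u = 1 / (2 * Real.pi) * ∫ t : ℝ, (((2 : ℝ) : ℂ) + t * I) / ((((2 : ℝ) : ℂ) + t * I) - 1) *
      (u : ℂ) ^ (-(((2 : ℝ) : ℂ) + t * I)) /
      ((((2 : ℝ) : ℂ) + t * I) * (((2 : ℝ) : ℂ) + t * I + 1)) := by
  have hc : (1 : ℝ) < 2 := by norm_num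
  have hne : ∀ t : ℝ, (((2 : ℝ) : ℂ) + t * I) - 1 ≠ 0 := by
    intro t h
    have := congrArg Complex.re h
    simp at this
    linarith
  have hvi : VerticalIntegrable (mellin fg) 2 := by
    unfold VerticalIntegrable
    have e : (fun t : ℝ => mellin fg (((2 : ℝ) : ℂ) + t * I)) =
          fun t : ℝ => (((2 : ℝ) : ℂ) + t * I) / ((((2 : ℝ) : ℂ) + t * I) - 1) /
            ((((2 : ℝ) : ℂ) + t * I) * (((2 : ℝ) : ℂ) + t * I + 1)) := by
      funext t
      rw [(mellin_fg (by simp)).2, fg_val (by simp)]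
    have hcont : Continuous fun t : ℝ => mellin fg (((2 : ℝ) : ℂ) + t * I) := by
      rw [e]
      exact Continuous.div (Continuous.div (by fun_prop) (by fun_prop) hne) (by fun_prop) fun t => den_ne hc
    refine ((integrable_inv_one_add_sq).const_mul 2).mono' hcont.aestronglyMeasurable ?_
    refine Eventually.of_forall fun t => ?_
    rw [(mellin_fg (by simp)).2, fg_val (by simp), norm_div, div_eq_mul_inv]
    exact mul_le_mul (norm_quot t) (inv_anti₀ (by positivity) (norm_den hc)) (by positivity) (by norm_num)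
  have h := mellinInv_mellin_eq 2 fg hu (by
    have := (mellin_fg (s := ((2 : ℝ) : ℂ)) (by simp)).1
    exact this) hvi (fg_cont hu)
  rw [← h]
  unfold mellinInv
  rw [Complex.real_smul]
  congr 1
  · push_cast; rfl
  · refine integral_congr_ae (Eventually.of_forall fun t => ?_)
    simp only
    rw [(mellin_fg (by simp)).2, fg_val (by simp), smul_eq_mul]
    ring

end Pool.Agent.H49.BP
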