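import Pool.Agent.H49.BP.Base

/-!
# The transform of the density
-/

set_option autoImplicit false

open MeasureTheory Filter Topology Set Complex

namespace Pool.Agent.H49.BP

/-- the density as a function on the line -/
noncomputable def fd (u : ℝ) : ℂ := if 1 < u then (md u : ℂ) else 0

theorem fd_meas : Measurable fd := by
  unfold fd
  exact Measurable.ite measurableSet_Ioi (Complex.measurable_ofReal.comp md_meas) measurable_const

theorem fd_norm (u : ℝ) : ‖fd u‖ ≤ 1 := by
  unfold fd
  split_ifs with h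
  · rw [Complex.norm_real, Real.norm_of_nonneg (md_nonneg h.le)]
    exact md_le_one h.le
  · simp

theorem fd_loc : LocallyIntegrableOn fd (Ioi 0) := by
  have h1 : LocallyIntegrable fd := by
    refine (locallyIntegrable_const (1 : ℝ)).mono fd_meas.aestronglyMeasurable ?_
    refine Eventually.of_forall fun u => ?_
    simpa using fd_norm u
  exact h1.locallyIntegrableOn _

theorem fd_top : fd =O[atTop] (fun x : ℝ => x ^ (-(0 : ℝ))) := by
  refine Asymptotics.IsBigO.of_bound 1 (Eventually.of_forall fun x => ?_)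
  simpa using fd_norm x

theorem zero_bot {f : ℝ → ℂ} (hf : ∀ u, u ≤ 1 → f u = 0) (b : ℝ) :
    f =O[𝓝[>] 0] (fun x : ℝ => x ^ (-b)) := by
  have h1 : f =ᶠ[𝓝[>] 0] fun _ => (0 : ℂ) := by
    have h2 : ∀ᶠ x : ℝ in 𝓝[>] 0, x < 1 :=
      nhdsWithin_le_nhds (gt_mem_nhds zero_lt_one)
    filter_upwards [h2] with x hx
    exact hf x hx.le
  exact h1.trans_isBigO (Asymptotics.isBigO_zero _ _)

/-- the transform of the density -/
noncomputable def Tz (s : ℂ) : ℂ := mellin fd (1 - s)

theorem Tz_eq (s : ℂ) : Tz s = ∫ u in Ioi (1 : ℝ), (u : ℂ) ^ (-s) * (md u : ℂ) := by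
  unfold Tz mellin
  have h1 : ∫ u in Ioi (0 : ℝ), (u : ℂ) ^ (1 - s - 1) • fd u =
      ∫ u in Ioi (1 : ℝ), (u : ℂ) ^ (1 - s - 1) • fd u := by
    refine setIntegral_eq_of_subset_of_forall_sdiff_eq_zero measurableSet_Ioi
      (Ioi_subset_Ioi zero_le_one) (fun t ht => ?_)
    have : ¬ 1 < t := fun h => ht.2 h
    unfold fd
    rw [if_neg this, smul_zero]
  rw [h1]
  refine setIntegral_congr_fun measurableSet_Ioi (fun t ht => ?_)
  beta_reduce
  have e : (1 : ℂ) - s - 1 = -s := by ring
  unfold fd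
  rw [if_pos (show (1 : ℝ) < t from ht), smul_eq_mul, e]

theorem Tz_int {s : ℂ} (hs : 1 < s.re) : IntegrableOn (fun u : ℝ => (u : ℂ) ^ (-s) * (md u : ℂ)) (Ioi 1) := by
  have h1 := integrableOn_Ioi_cpow_of_lt (a := -s) (by simpa using hs) zero_lt_one
  refine Integrable.mono' h1.norm ?_ ?_
  · exact h1.aestronglyMeasurable.mul (Complex.measurable_ofReal.comp md_meas).aestronglyMeasurable
  · refine (ae_restrict_iff' measurableSet_Ioi).2 (Eventually.of_forall fun u hu => ?_)
    have hu1 : (1 : ℝ) < u := hu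
    rw [norm_mul, Complex.norm_real, Real.norm_of_nonneg (md_nonneg hu1.le)]
    exact mul_le_of_le_one_right (norm_nonneg _) (md_le_one hu1.le)

theorem Tz_deriv {s : ℂ} (hs : 1 < s.re) : HasDerivAt Tz (1 / s - 1 / (s - 1)) s := by
  have h1 := (mellin_hasDerivAt_of_isBigO_rpow (a := 0) (b := (1 - s).re - 1) (s := 1 - s) fd_loc fd_top
    (by simp; linarith) (zero_bot (fun u hu => by unfold fd; rw [if_neg (not_lt.2 hu)]) _) (by linarith)).2
  have h2 : HasDerivAt (fun s : ℂ => 1 - s) (-1) s := by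
    simpa using (hasDerivAt_id s).const_sub 1
  have h3 := HasDerivAt.comp s h1 h2
  have e1 : mellin (fun t => Real.log t • fd t) (1 - s) = 1 / (s - 1) - 1 / s := by
    unfold mellin
    have h4 : ∫ u in Ioi (0 : ℝ), (u : ℂ) ^ (1 - s - 1) • (Real.log u • fd u) =
        ∫ u in Ioi (1 : ℝ), (u : ℂ) ^ (1 - s - 1) • (Real.log u • fd u) := by
      refine setIntegral_eq_of_subset_of_forall_sdiff_eq_zero measurableSet_Ioi
        (Ioi_subset_Ioi zero_le_one) (fun t ht => ?_)
      have : ¬ 1 < t := fun h => ht.2 h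
      unfold fd
      rw [if_neg this, smul_zero, smul_zero]
    have h5 : ∫ u in Ioi (1 : ℝ), (u : ℂ) ^ (1 - s - 1) • (Real.log u • fd u) =
        ∫ u in Ioi (1 : ℝ), ((u : ℂ) ^ (-s) - (u : ℂ) ^ (-s - 1)) := by
      refine setIntegral_congr_fun measurableSet_Ioi (fun t ht => ?_)
      have ht1 : (1 : ℝ) < t := ht
      have ht0 : (t : ℂ) ≠ 0 := by
        have : t ≠ 0 := by linarith
        exact_mod_cast this
      have hl : (Real.log t : ℂ) ≠ 0 := by
        exact_mod_cast (log_pos' ht1).ne'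
      have e : (1 : ℂ) - s - 1 = -s := by ring
      unfold fd
      rw [if_pos ht1, smul_eq_mul, e, Complex.real_smul, Complex.cpow_sub _ _ ht0, Complex.cpow_one]
      unfold md
      push_cast
      rw [mul_div_cancel₀ _ hl]
      field_simp
    rw [h4, h5, integral_sub (integrableOn_Ioi_cpow_of_lt (by simpa using hs) zero_lt_one)
      (integrableOn_Ioi_cpow_of_lt (by simp; linarith) zero_lt_one),
      integral_Ioi_cpow_of_lt (by simpa using hs) zero_lt_one,
      integral_Ioi_cpow_of_lt (by simp; linarith) zero_lt_one, Complex.ofReal_one, Complex.one_cpow,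
      Complex.one_cpow]
    have hs0 : s ≠ 0 := by
      intro h
      rw [h] at hs
      simp at hs
      linarith
    have hs1 : s - 1 ≠ 0 := by
      intro h
      have := congrArg Complex.re h
      simp at this
      linarith
    have hs2 : -s + 1 ≠ 0 := by
      intro h
      apply hs1
      linear_combination -h
    have e2 : -s - 1 + 1 = -s := by ring
    rw [e2]
    have e3 : -s + 1 = -(s - 1) := by ring
    rw [e3]
    field_simp
  rw [e1] at h3
  have e4 : (1 / (s - 1) - 1 / s) * -1 = 1 / s - 1 / (s - 1) := by ring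
  rw [e4] at h3
  exact h3

theorem Tz_bound {σ : ℝ} (hσ : 1 < σ) : ‖Tz σ‖ ≤ 1 / (σ - 1) := by
  rw [Tz_eq]
  have h1 : ‖∫ u in Ioi (1 : ℝ), (u : ℂ) ^ (-(σ : ℂ)) * (md u : ℂ)‖ ≤ ∫ u in Ioi (1 : ℝ), u ^ (-σ) := by
    refine norm_integral_le_of_norm_le (integrableOn_Ioi_rpow_of_lt (by linarith) zero_lt_one) ?_
    refine (ae_restrict_iff' measurableSet_Ioi).2 (Eventually.of_forall fun u hu => ?_)
    have hu1 : (1 : ℝ) < u := hu
    rw [norm_mul, Complex.norm_real, Real.norm_of_nonneg (md_nonneg hu1.le),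
      Complex.norm_cpow_eq_rpow_re_of_pos (by linarith)]
    have e : (-(σ : ℂ)).re = -σ := by simp
    rw [e]
    exact mul_le_of_le_one_right (Real.rpow_nonneg (by linarith) _) (md_le_one hu1.le)
  refine h1.trans (le_of_eq ?_)
  rw [integral_Ioi_rpow_of_lt (by linarith) zero_lt_one, Real.one_rpow]
  have h2 : σ - 1 ≠ 0 := by linarith
  have h3 : -σ + 1 ≠ 0 := by
    intro h
    apply h2
    linarith
  field_simp
  ring

theorem Tz_exp {s : ℂ} (hs : 1 < s.re) : Complex.exp (Tz s) = s / (s - 1) := by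
  let U : Set ℂ := {s | 1 < s.re}
  have hU : IsOpen U := isOpen_lt continuous_const Complex.continuous_re
  have hUc : IsPreconnected U := (convex_halfSpace_re_gt 1).isPreconnected
  have hne0 : ∀ z ∈ U, z ≠ 0 := by
    intro z hz h
    have hz' : 1 < z.re := hz
    rw [h] at hz'
    simp at hz'
    linarith
  have hne1 : ∀ z ∈ U, z - 1 ≠ 0 := by
    intro z hz h
    have hz' : 1 < z.re := hz
    have := congrArg Complex.re h
    simp at this
    linarith
  let E : ℂ → ℂ := fun z => Complex.exp (Tz z) * ((z - 1) / z)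
  have hE : ∀ z ∈ U, HasDerivAt E 0 z := by
    intro z hz
    have h1 := (Tz_deriv (s := z) hz).cexp
    have h2 : HasDerivAt (fun z : ℂ => (z - 1) / z) ((1 * z - (z - 1) * 1) / z ^ 2) z :=
      ((hasDerivAt_id z).sub_const 1).div (hasDerivAt_id z) (hne0 z hz)
    have h3 := h1.mul h2
    have e : Complex.exp (Tz z) * (1 / z - 1 / (z - 1)) * ((z - 1) / z) +
        Complex.exp (Tz z) * ((1 * z - (z - 1) * 1) / z ^ 2) = 0 := by
      have a0 := hne0 z hz
      have a1 := hne1 z hz
      field_simp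
      ring
    rw [e] at h3
    exact h3
  have hconst : ∀ x ∈ U, ∀ y ∈ U, E x = E y := by
    intro x hx y hy
    exact hU.is_const_of_deriv_eq_zero hUc (fun z hz => (hE z hz).differentiableAt.differentiableWithinAt)
      (fun z hz => (hE z hz).deriv) hx hy
  have hlim : Tendsto (fun σ : ℝ => E σ) atTop (𝓝 1) := by
    have h1 : Tendsto (fun σ : ℝ => Tz σ) atTop (𝓝 0) := by
      refine squeeze_zero_norm' (a := fun σ : ℝ => 1 / (σ - 1)) ?_ ?_
      · filter_upwards [eventually_gt_atTop 1] with σ hσ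
        exact Tz_bound hσ
      · have : Tendsto (fun σ : ℝ => σ - 1) atTop atTop := tendsto_atTop_add_const_right _ _ tendsto_id
        have h0 := this.inv_tendsto_atTop
        refine h0.congr fun σ => ?_
        rw [Pi.inv_apply, one_div]
    have h2 : Tendsto (fun σ : ℝ => Complex.exp (Tz σ)) atTop (𝓝 1) := by
      have h0 := (Complex.continuous_exp.tendsto 0).comp h1
      rw [Complex.exp_zero] at h0
      exact h0
    have h3 : Tendsto (fun σ : ℝ => ((σ : ℂ) - 1) / σ) atTop (𝓝 1) := by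
      have h4 : Tendsto (fun σ : ℝ => 1 - σ⁻¹) atTop (𝓝 (1 - 0)) :=
        tendsto_const_nhds.sub tendsto_inv_atTop_zero
      have h5 : Tendsto (fun σ : ℝ => ((1 - σ⁻¹ : ℝ) : ℂ)) atTop (𝓝 ((1 - 0 : ℝ) : ℂ)) :=
        (Complex.continuous_ofReal.tendsto _).comp h4
      have e : ((1 - 0 : ℝ) : ℂ) = 1 := by simp
      rw [e] at h5
      refine h5.congr' ?_
      filter_upwards [eventually_gt_atTop 0] with σ hσ
      have : (σ : ℂ) ≠ 0 := by exact_mod_cast hσ.ne'
      push_cast
      field_simp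
    have h6 := h2.mul h3
    rw [mul_one] at h6
    exact h6
  have hval : E s = 1 := by
    have h1 : Tendsto (fun _ : ℝ => E s) atTop (𝓝 1) := by
      refine hlim.congr' ?_
      filter_upwards [eventually_gt_atTop 1] with σ hσ
      exact hconst _ (by show 1 < ((σ : ℂ)).re; simpa using hσ) _ hs
    exact tendsto_nhds_unique tendsto_const_nhds h1
  have a0 := hne0 s hs
  have a1 := hne1 s hs
  have h7 : Complex.exp (Tz s) * ((s - 1) / s) = 1 := hval
  field_simp at h7 ⊢
  exact h7

end Pool.Agent.H49.BP
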