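import Pool.Agent.H49.BP.Samp
import Pool.Agent.H49.BP.Tz

/-!
# The transform of the discrepancy
-/

set_option autoImplicit false

open MeasureTheory Filter Topology Set Complex

namespace Pool.Agent.H49.BP

/-- the number of terms of the sequence up to `x` -/
noncomputable def pc (q : ℕ → ℝ) (x : ℝ) : ℕ := {j | q j ≤ x}.ncard

theorem pc_set {q : ℕ → ℝ} (hq : StrictMono q) (hg : ∀ j : ℕ, (j : ℝ) + 1 ≤ q j) (x : ℝ) :
    ∃ N : ℕ, {j | q j ≤ x} = Iio N := by
  classical
  have hex : ∃ N : ℕ, x < q N := by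
    obtain ⟨N, hN⟩ := exists_nat_gt x
    exact ⟨N, by linarith [hg N]⟩
  refine ⟨Nat.find hex, ?_⟩
  ext j
  show q j ≤ x ↔ j < _
  constructor
  · intro h
    by_contra h2
    push Not at h2
    have h3 := Nat.find_spec hex
    have h4 := hq.monotone h2
    linarith
  · intro h
    have := Nat.find_min hex h
    push Not at this
    exact this

theorem lt_pc {q : ℕ → ℝ} (hq : StrictMono q) (hg : ∀ j : ℕ, (j : ℝ) + 1 ≤ q j) (x : ℝ) (j : ℕ) :
    j < pc q x ↔ q j ≤ x := by
  obtain ⟨N, hN⟩ := pc_set hq hg x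
  have h1 : pc q x = N := by
    unfold pc
    rw [hN, ← Finset.coe_Iio, Set.ncard_coe_finset, Nat.card_Iio]
  rw [h1]
  have h2 : j ∈ {j | q j ≤ x} ↔ j ∈ Iio N := by rw [hN]
  exact h2.symm

theorem pc_mono {q : ℕ → ℝ} (hq : StrictMono q) (hg : ∀ j : ℕ, (j : ℝ) + 1 ≤ q j) : Monotone (pc q) := by
  intro x y hxy
  by_contra h
  push Not at h
  have h1 := (lt_pc hq hg x _).1 h
  have h2 := (lt_pc hq hg y (pc q y)).2 (h1.trans hxy)
  exact absurd h2 (lt_irrefl _)

/-- the sum -/
noncomputable def AA (q : ℕ → ℝ) (m : ℤ) (x : ℝ) : ℂ := ∑ j ∈ Finset.range (pc q x), em m (q j)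

/-- the integral -/
noncomputable def BB (m : ℤ) (x : ℝ) : ℂ := ∫ u in (1 : ℝ)..x, em m u * (md u : ℂ)

theorem AA_meas {q : ℕ → ℝ} (hq : StrictMono q) (hg : ∀ j : ℕ, (j : ℝ) + 1 ≤ q j) (m : ℤ) : Measurable (AA q m) := by
  have h1 : Measurable (pc q) := (pc_mono hq hg).measurable
  have h2 : Measurable fun N : ℕ => ∑ j ∈ Finset.range N, em m (q j) := measurable_from_top
  exact h2.comp h1

theorem em_cont (m : ℤ) {x : ℝ} (hx : x ≠ 0) : ContinuousAt (em m) x := by
  have h1 : ContinuousAt (fun u : ℝ => m * Real.log u) x := continuousAt_const.mul (Real.continuousAt_log hx)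
  unfold em
  refine ContinuousAt.sub ?_ (ContinuousAt.mul ?_ continuousAt_const)
  · exact Complex.continuous_ofReal.continuousAt.comp (Real.continuous_cos.continuousAt.comp h1)
  · exact Complex.continuous_ofReal.continuousAt.comp (Real.continuous_sin.continuousAt.comp h1)

theorem md_cont {x : ℝ} (hx : 1 < x) : ContinuousAt md x := by
  unfold md
  have hx0 : x ≠ 0 := by linarith
  exact (continuousAt_const.sub (continuousAt_inv₀ hx0)).div (Real.continuousAt_log hx0) (log_pos' hx).ne'

theorem BB_deriv (m : ℤ) {x : ℝ} (hx : 1 < x) : HasDerivAt (BB m) (em m x * (md x : ℂ)) x := by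
  unfold BB
  refine intervalIntegral.integral_hasDerivAt_right (mdg_int (em_meas m) (fun u => (em_norm m u).le) le_rfl hx.le)
    ?_ ?_
  · exact ((em_meas m).mul (Complex.measurable_ofReal.comp md_meas)).stronglyMeasurable.stronglyMeasurableAtFilter
  · exact (em_cont m (by linarith)).mul (Complex.continuous_ofReal.continuousAt.comp (md_cont hx))

theorem BB_norm (m : ℤ) {x : ℝ} (hx : 1 ≤ x) : ‖BB m x‖ ≤ x - 1 := by
  unfold BB
  have h1 := intervalIntegral.norm_integral_le_of_norm_le_const (a := 1) (b := x) (C := 1)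
    (f := fun u => em m u * (md u : ℂ)) (fun u hu => by
      rw [uIoc_of_le hx] at hu
      rw [norm_mul, em_norm, one_mul, Complex.norm_real, Real.norm_of_nonneg (md_nonneg hu.1.le)]
      exact md_le_one hu.1.le)
  rw [one_mul, abs_of_nonneg (by linarith)] at h1
  exact h1

theorem em_cpow (m : ℤ) {u : ℝ} (hu : 0 < u) (w : ℂ) :
    em m u * (u : ℂ) ^ (-w) = (u : ℂ) ^ (-(w + m * I)) := by
  have h0 : (u : ℂ) ≠ 0 := by exact_mod_cast hu.ne'
  rw [← em_eq m hu, ← Complex.cpow_add _ _ h0]
  congr 1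
  ring

/-- the transform of the sum -/
theorem AA_trans {q : ℕ → ℝ} (hq : StrictMono q) (hg : ∀ j : ℕ, (j : ℝ) + 1 ≤ q j) (hq0 : 1 < q 0) (m : ℤ) {w : ℂ}
    (hw : 1 < w.re) : IntegrableOn (fun x : ℝ => (x : ℂ) ^ (-w - 1) * AA q m x) (Ioi 1) ∧
      w * ∫ x in Ioi (1 : ℝ), (x : ℂ) ^ (-w - 1) * AA q m x = ∑' j, (q j : ℂ) ^ (-(w + m * I)) := by
  have hq1 : ∀ j, 1 < q j := fun j => lt_of_lt_of_le hq0 (hq.monotone (Nat.zero_le j))
  have hw0 : w ≠ 0 := by
    intro h
    rw [h] at hw
    simp at hw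
    linarith
  let F : ℕ → ℝ → ℂ := fun j => indicator (Ici (q j)) (fun x : ℝ => em m (q j) * (x : ℂ) ^ (-w - 1))
  have hbase : ∀ c : ℝ, 0 < c → IntegrableOn (fun x : ℝ => (x : ℂ) ^ (-w - 1)) (Ioi c) := by
    intro c hc
    exact integrableOn_Ioi_cpow_of_lt (by simp; linarith) hc
  have hsub : ∀ j, Ioi (1 : ℝ) ∩ Ici (q j) = Ici (q j) := fun j =>
    inter_eq_self_of_subset_right fun x hx => lt_of_lt_of_le (hq1 j) hx
  have hFi : ∀ j, Integrable (F j) (volume.restrict (Ioi 1)) := by
    intro j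
    rw [integrable_indicator_iff measurableSet_Ici, IntegrableOn, Measure.restrict_restrict measurableSet_Ici,
      inter_comm, hsub]
    have h1 : IntegrableOn (fun x : ℝ => em m (q j) * (x : ℂ) ^ (-w - 1)) (Ioi (q j)) :=
      ((hbase (q j) (by linarith [hq1 j])).const_mul (em m (q j)))
    exact (integrableOn_Ici_iff_integrableOn_Ioi).2 h1
  have hnorm : ∀ j, ∫ x in Ioi (1 : ℝ), ‖F j x‖ = (q j) ^ (-w.re) / w.re := by
    intro j
    have e : (fun x => ‖F j x‖) = indicator (Ici (q j)) (fun x : ℝ => ‖em m (q j) * (x : ℂ) ^ (-w - 1)‖) := by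
      funext x
      simp only [F]
      rw [norm_indicator_eq_indicator_norm]
    rw [e, setIntegral_indicator measurableSet_Ici, hsub, integral_Ici_eq_integral_Ioi]
    have e2 : ∫ x in Ioi (q j), ‖em m (q j) * (x : ℂ) ^ (-w - 1)‖ = ∫ x in Ioi (q j), x ^ (-w.re - 1) := by
      refine setIntegral_congr_fun measurableSet_Ioi fun x hx => ?_
      have hx0 : 0 < x := by
        have : q j < x := hx
        linarith [hq1 j]
      beta_reduce
      rw [norm_mul, em_norm, one_mul, Complex.norm_cpow_eq_rpow_re_of_pos hx0]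
      simp
    rw [e2, integral_Ioi_rpow_of_lt (by linarith) (by linarith [hq1 j])]
    have e3 : -w.re - 1 + 1 = -w.re := by ring
    rw [e3, neg_div_neg_eq]
  have hsq : Summable fun j => (q j) ^ (-w.re) := by
    have h1 : Summable fun j : ℕ => ((j : ℝ) + 1) ^ (-w.re) := by
      have := (summable_nat_add_iff 1).2 (Real.summable_nat_rpow.2 (by linarith : -w.re < -1))
      simpa using this
    refine Summable.of_nonneg_of_le (fun j => Real.rpow_nonneg (by linarith [hq1 j]) _) (fun j => ?_) h1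
    exact Real.rpow_le_rpow_of_nonpos (by positivity) (hg j) (by linarith)
  have hsum : Summable fun j => ∫ x in Ioi (1 : ℝ), ‖F j x‖ := by
    simp only [hnorm]
    exact hsq.div_const _
  have hH := hasSum_integral_of_summable_integral_norm hFi hsum
  have hpt : ∀ x : ℝ, HasSum (fun j => F j x) ((x : ℂ) ^ (-w - 1) * AA q m x) := by
    intro x
    have h1 : (x : ℂ) ^ (-w - 1) * AA q m x = ∑ j ∈ Finset.range (pc q x), F j x := by
      unfold AA
      rw [Finset.mul_sum]
      refine Finset.sum_congr rfl fun j hj => ?_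
      rw [Finset.mem_range, lt_pc hq hg] at hj
      simp only [F]
      rw [indicator_of_mem (show x ∈ Ici (q j) from hj), mul_comm]
    rw [h1]
    refine hasSum_sum_of_ne_finset_zero fun j hj => ?_
    rw [Finset.mem_range, lt_pc hq hg] at hj
    simp only [F]
    exact indicator_of_notMem hj _
  have hval : ∀ j, ∫ x in Ioi (1 : ℝ), F j x = (q j : ℂ) ^ (-(w + m * I)) / w := by
    intro j
    have hq0' : 0 < q j := by linarith [hq1 j]
    simp only [F]
    rw [setIntegral_indicator measurableSet_Ici, hsub, integral_Ici_eq_integral_Ioi, integral_const_mul,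
      integral_Ioi_cpow_of_lt (by simp; linarith) hq0']
    have e3 : -w - 1 + 1 = -w := by ring
    rw [e3, neg_div_neg_eq, mul_div_assoc', em_cpow m hq0']
  have hint : Integrable (fun x : ℝ => (x : ℂ) ^ (-w - 1) * AA q m x) (volume.restrict (Ioi 1)) := by
    -- bound of the sum by the number of terms
    have hm : AEStronglyMeasurable (fun x : ℝ => (x : ℂ) ^ (-w - 1) * AA q m x) (volume.restrict (Ioi 1)) :=
      (hbase 1 one_pos).aestronglyMeasurable.mul (AA_meas hq hg m).aestronglyMeasurable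
    refine ⟨hm, ?_⟩
    have h2 : ∫⁻ x in Ioi (1 : ℝ), ‖(x : ℂ) ^ (-w - 1) * AA q m x‖ₑ ≤ ∫⁻ x in Ioi (1 : ℝ), ∑' j, ‖F j x‖ₑ := by
      refine lintegral_mono fun x => ?_
      rw [← (hpt x).tsum_eq]
      exact enorm_tsum_le_tsum_enorm
    rw [lintegral_tsum fun j => (hFi j).aestronglyMeasurable.enorm] at h2
    refine lt_of_le_of_lt h2 ?_
    have h3 : ∀ j, ∫⁻ x in Ioi (1 : ℝ), ‖F j x‖ₑ = ENNReal.ofReal ((q j) ^ (-w.re) / w.re) := by
      intro j
      rw [← hnorm j, ← ofReal_integral_norm_eq_lintegral_enorm (hFi j)]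
    simp only [h3]
    rw [← ENNReal.ofReal_tsum_of_nonneg (fun j => by
      have := hq1 j
      have : 0 ≤ q j := by linarith
      positivity) (hsq.div_const _)]
    exact ENNReal.ofReal_lt_top
  refine ⟨hint, ?_⟩
  have h4 : ∫ x in Ioi (1 : ℝ), (x : ℂ) ^ (-w - 1) * AA q m x = ∫ x in Ioi (1 : ℝ), ∑' j, F j x := by
    refine integral_congr_ae (Eventually.of_forall fun x => ?_)
    exact (hpt x).tsum_eq.symm
  rw [h4, ← hH.tsum_eq]
  simp only [hval]
  rw [tsum_div_const, mul_div_cancel₀ _ hw0]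

/-- the transform of the integral -/
theorem BB_trans (m : ℤ) {w : ℂ} (hw : 1 < w.re) :
    IntegrableOn (fun x : ℝ => (x : ℂ) ^ (-w - 1) * BB m x) (Ioi 1) ∧
      w * ∫ x in Ioi (1 : ℝ), (x : ℂ) ^ (-w - 1) * BB m x = Tz (w + m * I) := by
  have hw0 : w ≠ 0 := by
    intro h
    rw [h] at hw
    simp at hw
    linarith
  have hBc : ContinuousOn (BB m) (Ioi 1) := fun x hx => (BB_deriv m hx).continuousAt.continuousWithinAt
  have hpc : ∀ z : ℂ, ContinuousOn (fun x : ℝ => (x : ℂ) ^ z) (Ioi 1) := by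
    intro z x hx
    have hx1 : (1 : ℝ) < x := hx
    refine ContinuousAt.continuousWithinAt ?_
    exact (Complex.continuousAt_ofReal_cpow_const x z (Or.inr (by linarith)))
  have hI : IntegrableOn (fun x : ℝ => (x : ℂ) ^ (-w - 1) * BB m x) (Ioi 1) := by
    refine Integrable.mono' (integrableOn_Ioi_rpow_of_lt (a := -w.re) (by linarith) one_pos) ?_ ?_
    · exact ((hpc _).mul hBc).aestronglyMeasurable measurableSet_Ioi
    · refine (ae_restrict_iff' measurableSet_Ioi).2 (Eventually.of_forall fun x hx => ?_)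
      have hx1 : (1 : ℝ) < x := hx
      rw [norm_mul, Complex.norm_cpow_eq_rpow_re_of_pos (by linarith)]
      have e : (-w - 1).re = -w.re - 1 := by simp
      rw [e]
      calc x ^ (-w.re - 1) * ‖BB m x‖ ≤ x ^ (-w.re - 1) * x :=
            mul_le_mul_of_nonneg_left ((BB_norm m hx1.le).trans (by linarith))
              (Real.rpow_nonneg (by linarith) _)
        _ = x ^ (-w.re) := by
            rw [Real.rpow_sub_one (by linarith)]
            field_simp
  refine ⟨hI, ?_⟩
  have hT := Tz_int (s := w + m * I) (by simpa using hw)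
  have hparts := integral_Ioi_mul_deriv_eq_deriv_mul (a := (1 : ℝ)) (A := ℂ)
    (u := fun x : ℝ => (x : ℂ) ^ (-w)) (u' := fun x : ℝ => -w * (x : ℂ) ^ (-w - 1))
    (v := BB m) (v' := fun x => em m x * (md x : ℂ)) (a' := 0) (b' := 0)
    (fun x hx => by
      have hx1 : (1 : ℝ) < x := hx
      exact hasDerivAt_ofReal_cpow_const (by linarith) (by
        intro h
        apply hw0
        linear_combination -h))
    (fun x hx => BB_deriv m hx)
    (by
      refine hT.congr_fun (fun x hx => ?_) measurableSet_Ioi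
      have hx1 : (1 : ℝ) < x := hx
      simp only [Pi.mul_apply]
      rw [← em_cpow m (by linarith)]
      ring)
    (by
      have h1 : IntegrableOn (fun x : ℝ => -w * ((x : ℂ) ^ (-w - 1) * BB m x)) (Ioi 1) := hI.const_mul (-w)
      refine h1.congr_fun (fun x hx => ?_) measurableSet_Ioi
      simp only [Pi.mul_apply]
      ring)
    (by
      have h1 : Tendsto (fun x : ℝ => x - 1) (𝓝[>] 1) (𝓝 0) := by
        have : Tendsto (fun x : ℝ => x - 1) (𝓝 1) (𝓝 (1 - 1)) := (continuous_id.sub continuous_const).tendsto 1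
        rw [sub_self] at this
        exact this.mono_left nhdsWithin_le_nhds
      refine squeeze_zero_norm' ?_ h1
      filter_upwards [self_mem_nhdsWithin] with x hx
      have hx1 : (1 : ℝ) < x := hx
      simp only [Pi.mul_apply]
      rw [norm_mul, Complex.norm_cpow_eq_rpow_re_of_pos (by linarith)]
      have h2 : x ^ (-w).re ≤ 1 := Real.rpow_le_one_of_one_le_of_nonpos hx1.le (by simp; linarith)
      calc x ^ (-w).re * ‖BB m x‖ ≤ 1 * (x - 1) :=
            mul_le_mul h2 (BB_norm m hx1.le) (norm_nonneg _) zero_le_one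
        _ = x - 1 := one_mul _)
    (by
      have h1 : Tendsto (fun x : ℝ => x ^ (-(w.re - 1))) atTop (𝓝 0) := tendsto_rpow_neg_atTop (by linarith)
      refine squeeze_zero_norm' ?_ h1
      filter_upwards [eventually_gt_atTop 1] with x hx1
      simp only [Pi.mul_apply]
      rw [norm_mul, Complex.norm_cpow_eq_rpow_re_of_pos (by linarith)]
      calc x ^ (-w).re * ‖BB m x‖ ≤ x ^ (-w).re * x :=
            mul_le_mul_of_nonneg_left ((BB_norm m hx1.le).trans (by linarith)) (Real.rpow_nonneg (by linarith) _)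
        _ = x ^ (-(w.re - 1)) := by
            rw [Complex.neg_re, neg_sub, Real.rpow_sub (by linarith), Real.rpow_one,
              Real.rpow_neg (by linarith)]
            field_simp)
  rw [Tz_eq]
  have e1 : ∫ u in Ioi (1 : ℝ), (u : ℂ) ^ (-(w + m * I)) * (md u : ℂ) =
      ∫ x in Ioi (1 : ℝ), (x : ℂ) ^ (-w) * (em m x * (md x : ℂ)) := by
    refine setIntegral_congr_fun measurableSet_Ioi (fun x hx => ?_)
    have hx1 : (1 : ℝ) < x := hx
    beta_reduce
    rw [← em_cpow m (by linarith)]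
    ring
  rw [e1, hparts]
  have e2 : ∫ x in Ioi (1 : ℝ), -w * (x : ℂ) ^ (-w - 1) * BB m x =
      -w * ∫ x in Ioi (1 : ℝ), (x : ℂ) ^ (-w - 1) * BB m x := by
    rw [← integral_const_mul]
    refine integral_congr_ae (Eventually.of_forall fun x => ?_)
    beta_reduce
    ring
  rw [e2]
  ring

end Pool.Agent.H49.BP
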